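import Pool.Agent.ChL.Defs
import Pool.Agent.ChS.FGGam

/-!
# The dimension of the space of functions invariant up to constants

`H` acts freely on the vertices with finitely many orbits.  Choose representatives `v_O` of the
orbits.  For `f ∈ QInv p H` the function `χ` is determined on `H` by `f` (there is a vertex) and it is a
homomorphism there; `f ↦ ((f v_O)_O, χ)` is an isomorphism onto `(orbits → ZMod p) × HomR (ZMod p) H`
with inverse `f (g • v_O) = a_O + χ g`.  `HomR (ZMod p) H` is finite dimensional because `H` is finitely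
generated (`gamma_fg`, Schreier).
-/

namespace Pool.Agent.ChL

open Matrix Pool.Agent.ChP Pool.Agent.ChS
open scoped Pointwise

theorem homR_finite (p : ℕ) [Fact p.Prime] {G : Type*} [Group G] (hG : Group.FG G)
    (H : Subgroup G) (hH : H.FiniteIndex) : Module.Finite (ZMod p) (HomR (ZMod p) H) := by
  classical
  have := hG
  have := hH
  have hfg : Group.FG H := inferInstance
  obtain ⟨S, hS⟩ := Group.fg_iff.mp hfg
  have : Finite S := hS.2
  obtain ⟨L, hL⟩ : ∃ L : HomR (ZMod p) H →ₗ[ZMod p] (S → ZMod p),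
      ∀ f s, L f s = f.1 s.1 :=
    ⟨{ toFun := fun f s => f.1 s.1
       map_add' := fun a b => rfl
       map_smul' := fun c a => rfl }, fun f s => rfl⟩
  refine Module.Finite.of_injective L ?_
  rw [injective_iff_map_eq_zero]
  intro f hf
  have hfm := f.2
  have h1 : f.1 1 = 0 := by
    have h2 := hfm 1 1
    rw [mul_one] at h2
    have h3 : f.1 1 + f.1 1 = f.1 1 + 0 := by rw [← h2, add_zero]
    exact add_left_cancel h3
  have h4 : ∀ x : H, f.1 x = 0 := by
    intro x
    have hx : x ∈ Subgroup.closure S := by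
      rw [hS.1]
      exact Subgroup.mem_top x
    refine Subgroup.closure_induction (p := fun y _ => f.1 y = 0) ?_ h1 ?_ ?_ hx
    · intro y hy
      have h5 := hL f ⟨y, hy⟩
      rw [hf] at h5
      exact h5.symm
    · intro a b _ _ ha hb
      rw [hfm a b, ha, hb, add_zero]
    · intro a _ ha
      have h6 := hfm a a⁻¹
      rw [mul_inv_cancel, h1, ha, zero_add] at h6
      exact h6.symm
  apply Subtype.ext
  funext x
  exact h4 x

variable {n : ℕ} {K : AffineTriangulation n}

private theorem QInvDim_free {g h : K.Γ} {v : K.V} (hgh : g • v = h • v) : g = h := by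
  have h1 : (h⁻¹ * g) • ({v} : Finset K.V) = {v} := by
    rw [Finset.smul_finset_singleton, mul_smul, hgh, inv_smul_smul]
  have h2 := K.free _ _ (K.singleton_mem v) h1
  rw [inv_mul_eq_one] at h2
  exact h2.symm

theorem finite_orbits (H : Subgroup K.Γ) (hH : H.FiniteIndex) :
    Finite (MulAction.orbitRel.Quotient H K.V) := by
  classical
  have := hH
  obtain ⟨F, hF⟩ := K.cocompact
  obtain ⟨D, hD⟩ : ∃ D : Finset K.V, D = F.biUnion id := ⟨_, rfl⟩
  have hex : ∀ v : K.V, ∃ γ : K.Γ, γ • v ∈ D := by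
    intro v
    obtain ⟨γ, hγ⟩ := hF _ (K.singleton_mem v)
    refine ⟨γ, ?_⟩
    rw [hD, Finset.mem_biUnion]
    refine ⟨_, hγ, ?_⟩
    rw [Finset.smul_finset_singleton]
    exact Finset.mem_singleton_self _
  refine Finite.of_surjective
    (fun x : (K.Γ ⧸ H) × D => (Quotient.mk _ ((Quotient.out x.1)⁻¹ • (x.2 : K.V)) :
      MulAction.orbitRel.Quotient H K.V)) ?_
  intro O
  induction O using Quotient.inductionOn with
  | h v =>
    obtain ⟨γ, hγ⟩ := hex v
    refine ⟨⟨(γ : K.Γ ⧸ H), ⟨γ • v, hγ⟩⟩, ?_⟩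
    apply Quotient.sound
    have h1 : (Quotient.out (γ : K.Γ ⧸ H))⁻¹ * γ ∈ H := by
      rw [← QuotientGroup.eq]
      exact Quotient.out_eq _
    refine ⟨⟨_, h1⟩, ?_⟩
    change ((Quotient.out (γ : K.Γ ⧸ H))⁻¹ * γ) • v = (Quotient.out (γ : K.Γ ⧸ H))⁻¹ • (γ • v)
    rw [mul_smul]

theorem exists_qInv_of_hom (p : ℕ) (H : Subgroup K.Γ) (χ : H → ZMod p)
    (hχ : χ ∈ HomR (ZMod p) H) :
    ∃ f ∈ QInv (K := K) p H, ∀ (g : H) (v : K.V), f ((g : K.Γ) • v) = f v + χ g := by
  classical
  have hex : ∀ v : K.V, ∃ g : H,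
      g • (Quotient.out (Quotient.mk _ v : MulAction.orbitRel.Quotient H K.V)) = v := by
    intro v
    have h1 : (Quotient.mk _ v : MulAction.orbitRel.Quotient H K.V) =
        Quotient.mk _ (Quotient.out (Quotient.mk _ v : MulAction.orbitRel.Quotient H K.V)) :=
      (Quotient.out_eq _).symm
    have h2 := Quotient.exact h1
    obtain ⟨g, hg⟩ := h2
    exact ⟨g, hg⟩
  choose G hG using hex
  have hmove : ∀ (g : H) (v : K.V), G (g • v) = g * G v := by
    intro g v
    have h1 : (Quotient.mk _ (g • v) : MulAction.orbitRel.Quotient H K.V) = Quotient.mk _ v :=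
      Quotient.sound ⟨g, rfl⟩
    have h2 := hG (g • v)
    rw [h1] at h2
    have h3 : (G (g • v)) • (Quotient.out (Quotient.mk _ v : MulAction.orbitRel.Quotient H K.V)) =
        (g * G v) • (Quotient.out (Quotient.mk _ v : MulAction.orbitRel.Quotient H K.V)) := by
      rw [h2, mul_smul, hG v]
    apply Subtype.ext
    exact QInvDim_free h3
  have hχ' : ∀ g h : H, χ (g * h) = χ g + χ h := hχ
  have hmain : ∀ (g : H) (v : K.V), χ (G ((g : K.Γ) • v)) = χ (G v) + χ g := by
    intro g v
    have h1 : (g : K.Γ) • v = g • v := rfl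
    rw [h1, hmove, hχ', add_comm]
  refine ⟨fun v => χ (G v), ⟨fun γ => if h : γ ∈ H then χ ⟨γ, h⟩ else 0, ?_⟩, hmain⟩
  intro γ hγ v
  have h1 := hmain ⟨γ, hγ⟩ v
  simp only [hγ, dif_pos]
  exact h1

theorem exists_hom_of_qInv (hV : Nonempty K.V) (p : ℕ) (H : Subgroup K.Γ) (f : K.V → ZMod p)
    (hf : f ∈ QInv (K := K) p H) :
    ∃ χ ∈ HomR (ZMod p) H, ∀ (g : H) (v : K.V), f ((g : K.Γ) • v) = f v + χ g := by
  obtain ⟨χ, hχ⟩ := hf
  obtain ⟨v⟩ := hV
  refine ⟨fun g => χ g.1, ?_, fun g v => hχ g.1 g.2 v⟩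
  intro g h
  have h1 := hχ g.1 g.2 (h.1 • v)
  have h2 := hχ h.1 h.2 v
  have h3 := hχ (g.1 * h.1) (H.mul_mem g.2 h.2) v
  rw [mul_smul, h1, h2] at h3
  have h4 : f v + (χ g.1 + χ h.1) = f v + χ (g.1 * h.1) := by
    rw [← h3]
    ring
  exact (add_left_cancel h4).symm

theorem inv_finrank (p : ℕ) [Fact p.Prime] (H : Subgroup K.Γ) (hH : H.FiniteIndex) :
    Module.Finite (ZMod p) (Inv (K := K) p H) ∧
    Module.finrank (ZMod p) (Inv (K := K) p H) =
      Nat.card (MulAction.orbitRel.Quotient H K.V) := by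
  classical
  have := finite_orbits (K := K) H hH
  obtain ⟨e⟩ : Nonempty (Inv (K := K) p H ≃ₗ[ZMod p]
      (MulAction.orbitRel.Quotient H K.V → ZMod p)) := by
    refine ⟨LinearEquiv.ofBijective
      { toFun := fun f O => f.1 (Quotient.out O)
        map_add' := fun a b => rfl
        map_smul' := fun c a => rfl } ⟨?_, ?_⟩⟩
    · intro a b hab
      apply Subtype.ext
      funext v
      have h1 := congrFun hab (Quotient.mk _ v : MulAction.orbitRel.Quotient H K.V)
      change a.1 (Quotient.out (Quotient.mk _ v : MulAction.orbitRel.Quotient H K.V)) =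
        b.1 (Quotient.out (Quotient.mk _ v : MulAction.orbitRel.Quotient H K.V)) at h1
      have h2 : (Quotient.mk _ v : MulAction.orbitRel.Quotient H K.V) =
          Quotient.mk _ (Quotient.out (Quotient.mk _ v : MulAction.orbitRel.Quotient H K.V)) :=
        (Quotient.out_eq _).symm
      obtain ⟨g, hg⟩ := Quotient.exact h2
      have h3 := a.2 g.1 g.2
        (Quotient.out (Quotient.mk _ v : MulAction.orbitRel.Quotient H K.V))
      have h4 := b.2 g.1 g.2
        (Quotient.out (Quotient.mk _ v : MulAction.orbitRel.Quotient H K.V))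
      have h5 : (g : K.Γ) • (Quotient.out (Quotient.mk _ v : MulAction.orbitRel.Quotient H K.V)) =
          v := hg
      rw [h5] at h3 h4
      rw [h3, h4, h1]
    · intro a
      refine ⟨⟨fun v => a (Quotient.mk _ v), ?_⟩, ?_⟩
      · intro g hg v
        change a (Quotient.mk _ (g • v)) = a (Quotient.mk _ v)
        congr 1
        exact Quotient.sound ⟨⟨g, hg⟩, rfl⟩
      · funext O
        change a (Quotient.mk _ (Quotient.out O)) = a O
        rw [Quotient.out_eq]
  have : Fintype (MulAction.orbitRel.Quotient H K.V) := Fintype.ofFinite _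
  refine ⟨Module.Finite.equiv e.symm, ?_⟩
  rw [LinearEquiv.finrank_eq e, Module.finrank_fintype_fun_eq_card, Nat.card_eq_fintype_card]

theorem qInv_finrank (hc : Connected K) (p : ℕ) [Fact p.Prime] (H : Subgroup K.Γ)
    (hH : H.FiniteIndex) :
    Module.Finite (ZMod p) (QInv (K := K) p H) ∧
    Module.finrank (ZMod p) (QInv (K := K) p H) =
      Nat.card (MulAction.orbitRel.Quotient H K.V) +
        Module.finrank (ZMod p) (HomR (ZMod p) H) := by
  classical
  obtain ⟨v₀⟩ := hc.1
  have hΓ : Group.FG K.Γ := gamma_fg K hc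
  have := homR_finite p hΓ H hH
  obtain ⟨hIf, hIr⟩ := inv_finrank (K := K) p H hH
  have := hIf
  have hmem : ∀ f : QInv (K := K) p H,
      (fun g : H => f.1 ((g : K.Γ) • v₀) - f.1 v₀) ∈ HomR (ZMod p) H := by
    intro f
    obtain ⟨χ, hχ, h1⟩ := exists_hom_of_qInv ⟨v₀⟩ p H f.1 f.2
    have h2 : (fun g : H => f.1 ((g : K.Γ) • v₀) - f.1 v₀) = χ := by
      funext g
      rw [h1 g v₀]
      ring
    rw [h2]
    exact hχ
  obtain ⟨L, hL⟩ : ∃ L : QInv (K := K) p H →ₗ[ZMod p] HomR (ZMod p) H,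
      ∀ f g, (L f).1 g = f.1 ((g : K.Γ) • v₀) - f.1 v₀ := by
    refine ⟨{ toFun := fun f => ⟨_, hmem f⟩
              map_add' := ?_
              map_smul' := ?_ }, fun f g => rfl⟩
    · intro a b
      apply Subtype.ext
      funext g
      change (a.1 + b.1) ((g : K.Γ) • v₀) - (a.1 + b.1) v₀ =
        (a.1 ((g : K.Γ) • v₀) - a.1 v₀) + (b.1 ((g : K.Γ) • v₀) - b.1 v₀)
      simp only [Pi.add_apply]
      ring
    · intro c a
      apply Subtype.ext
      funext g
      change (c • a.1) ((g : K.Γ) • v₀) - (c • a.1) v₀ =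
        c • (a.1 ((g : K.Γ) • v₀) - a.1 v₀)
      simp only [Pi.smul_apply, smul_eq_mul]
      ring
  have hLχ : ∀ (f : QInv (K := K) p H) (g : H) (v : K.V),
      f.1 ((g : K.Γ) • v) = f.1 v + (L f).1 g := by
    intro f g v
    obtain ⟨χ, hχ, h1⟩ := exists_hom_of_qInv ⟨v₀⟩ p H f.1 f.2
    rw [hL, h1 g v, h1 g v₀]
    ring
  have hle : Inv (K := K) p H ≤ QInv (K := K) p H := by
    intro f hf
    refine ⟨fun _ => 0, fun g hg v => ?_⟩
    rw [hf g hg v, add_zero]
  have hker : LinearMap.ker L = Submodule.comap (QInv (K := K) p H).subtype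
      (Inv (K := K) p H) := by
    ext f
    rw [LinearMap.mem_ker, Submodule.mem_comap]
    constructor
    · intro h g hg v
      have h1 := hLχ f ⟨g, hg⟩ v
      rw [h] at h1
      change f.1 (g • v) = f.1 v
      rw [show f.1 (g • v) = f.1 v + (0 : HomR (ZMod p) H).1 ⟨g, hg⟩ from h1]
      exact add_zero _
    · intro h
      apply Subtype.ext
      funext g
      rw [hL]
      have h1 := h g.1 g.2 v₀
      change f.1 ((g : K.Γ) • v₀) = f.1 v₀ at h1
      rw [h1, sub_self]
      rfl
  have hsurj : LinearMap.range L = ⊤ := by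
    rw [LinearMap.range_eq_top]
    intro χ
    obtain ⟨f, hf, h1⟩ := exists_qInv_of_hom (K := K) p H χ.1 χ.2
    refine ⟨⟨f, hf⟩, ?_⟩
    apply Subtype.ext
    funext g
    rw [hL]
    change f ((g : K.Γ) • v₀) - f v₀ = χ.1 g
    rw [h1 g v₀]
    ring
  have e1 : LinearMap.ker L ≃ₗ[ZMod p] Inv (K := K) p H :=
    (LinearEquiv.ofEq _ _ hker).trans (Submodule.comapSubtypeEquivOfLe hle)
  have hkf : Module.Finite (ZMod p) (LinearMap.ker L) := Module.Finite.equiv e1.symm
  have hqf : Module.Finite (ZMod p) (QInv (K := K) p H ⧸ LinearMap.ker L) := by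
    have e2 : (QInv (K := K) p H ⧸ LinearMap.ker L) ≃ₗ[ZMod p] HomR (ZMod p) H :=
      LinearMap.quotKerEquivOfSurjective L (LinearMap.range_eq_top.mp hsurj)
    exact Module.Finite.equiv e2.symm
  have hQf : Module.Finite (ZMod p) (QInv (K := K) p H) :=
    Module.Finite.of_submodule_quotient (LinearMap.ker L)
  refine ⟨hQf, ?_⟩
  have h1 := LinearMap.finrank_range_add_finrank_ker L
  rw [hsurj, finrank_top, LinearEquiv.finrank_eq e1, hIr] at h1
  rw [← h1, add_comm]

end Pool.Agent.ChL
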