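import Pool.Agent.ChL.Orb
import Pool.Agent.ChP.Star

/-!
# Edges and triangles

The group `Γ` acts freely on vertices (`free` for `{v}`), hence on pairs and triples of vertices.  There
are finitely many orbits of simplices (`cocompact`), hence of ordered edges and triangles.

`link_card`: the triangles `(a, b, c)` with different `c` are in different orbits of `Γ`.

`nOrb_bad_le`: the set of the bad edges `(u, v)` is the image of
`{(u, v, w) ∈ Tr | f u ≠ f v} ∪ {(u, v, w) ∈ Tr | f v ≠ f w}` under `(u, v, w) ↦ (u, v)` (`nOrb_image_le`); to the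
first set apply `nOrb_le_mul` with `(u, v, w) ↦ (u, v)`, to the second with `(u, v, w) ↦ (v, w)`.
-/

namespace Pool.Agent.ChL

open Matrix Pool.Agent.ChP Pool.Agent.ChS
open scoped Pointwise

variable {n : ℕ} {K : AffineTriangulation n}

theorem v_free (g : K.Γ) (v : K.V) (h : g • v = v) : g = 1 := by
  apply K.free g {v} (K.singleton_mem v)
  rw [Finset.smul_finset_singleton, h]

private theorem TriSet_fin {X : Type*} [MulAction K.Γ X] (S : Set X)
    (T : Set X) (hT : T.Finite) (h : ∀ x ∈ S, ∃ g : K.Γ, g • x ∈ T) (H : Subgroup K.Γ)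
    (hH : H.FiniteIndex) : ((fun x => (MulAction.orbit H x : Set X)) '' S).Finite := by
  refine orb_finite H ⊤ le_top ?_ S ?_
  · rw [Subgroup.relIndex_top_right]
    exact hH.index_ne_zero
  · refine (hT.image (fun x => (MulAction.orbit (⊤ : Subgroup K.Γ) x : Set X))).subset ?_
    rintro _ ⟨x, hx, rfl⟩
    obtain ⟨g, hg⟩ := h x hx
    refine ⟨g • x, hg, ?_⟩
    exact MulAction.orbit_eq_iff.2 ⟨⟨g, Subgroup.mem_top g⟩, rfl⟩

theorem v_finite (H : Subgroup K.Γ) (hH : H.FiniteIndex) :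
    ((fun x => (MulAction.orbit H x : Set K.V)) '' Set.univ).Finite := by
  classical
  obtain ⟨F, hF⟩ := K.cocompact
  refine TriSet_fin _ ((F.biUnion id : Finset K.V) : Set K.V) (Finset.finite_toSet _) ?_ H hH
  intro v _
  obtain ⟨γ, hγ⟩ := hF {v} (K.singleton_mem v)
  refine ⟨γ, ?_⟩
  rw [Finset.mem_coe, Finset.mem_biUnion]
  refine ⟨_, hγ, ?_⟩
  rw [Finset.smul_finset_singleton]
  exact Finset.mem_singleton_self _

private theorem TriSet_pair (g : K.Γ) (a b : K.V) :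
    ({g • a, g • b} : Finset K.V) = g • {a, b} := by
  rw [Finset.smul_finset_insert, Finset.smul_finset_singleton]

private theorem TriSet_tri (g : K.Γ) (a b c : K.V) :
    ({g • a, g • b, g • c} : Finset K.V) = g • {a, b, c} := by
  rw [Finset.smul_finset_insert, Finset.smul_finset_insert, Finset.smul_finset_singleton]

theorem ed_inv (g : K.Γ) (e : K.V × K.V) (he : e ∈ Ed K) : g • e ∈ Ed K := by
  show ({g • e.1, g • e.2} : Finset K.V) ∈ K.faces
  rw [TriSet_pair]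
  exact K.smul_mem g _ he

theorem tr_inv (g : K.Γ) (e : K.V × K.V × K.V) (he : e ∈ Tr K) : g • e ∈ Tr K := by
  show ({g • e.1, g • e.2.1, g • e.2.2} : Finset K.V) ∈ K.faces
  rw [TriSet_tri]
  exact K.smul_mem g _ he

theorem ed_finite (H : Subgroup K.Γ) (hH : H.FiniteIndex) :
    ((fun x => (MulAction.orbit H x : Set (K.V × K.V))) '' Ed K).Finite := by
  classical
  obtain ⟨F, hF⟩ := K.cocompact
  refine TriSet_fin _ (((F.biUnion id) ×ˢ (F.biUnion id) : Finset (K.V × K.V)) :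
    Set (K.V × K.V)) (Finset.finite_toSet _) ?_ H hH
  rintro ⟨a, b⟩ he
  obtain ⟨γ, hγ⟩ := hF _ he
  refine ⟨γ, ?_⟩
  simp only at hγ
  rw [← TriSet_pair] at hγ
  rw [Finset.mem_coe]
  show (γ • a, γ • b) ∈ _
  simp only [Finset.mem_product, Finset.mem_biUnion, id]
  exact ⟨⟨_, hγ, by simp⟩, ⟨_, hγ, by simp⟩⟩

theorem tr_finite (H : Subgroup K.Γ) (hH : H.FiniteIndex) :
    ((fun x => (MulAction.orbit H x : Set (K.V × K.V × K.V))) '' Tr K).Finite := by
  classical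
  obtain ⟨F, hF⟩ := K.cocompact
  refine TriSet_fin _ (((F.biUnion id) ×ˢ ((F.biUnion id) ×ˢ (F.biUnion id)) :
    Finset (K.V × K.V × K.V)) : Set (K.V × K.V × K.V)) (Finset.finite_toSet _) ?_ H hH
  rintro ⟨a, b, c⟩ he
  obtain ⟨γ, hγ⟩ := hF _ he
  refine ⟨γ, ?_⟩
  simp only at hγ
  rw [← TriSet_tri] at hγ
  rw [Finset.mem_coe]
  show (γ • a, γ • b, γ • c) ∈ _
  simp only [Finset.mem_product, Finset.mem_biUnion, id]
  exact ⟨⟨_, hγ, by simp⟩, ⟨_, hγ, by simp⟩, ⟨_, hγ, by simp⟩⟩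

theorem nOrb_ed (H : Subgroup K.Γ) (hH : H.FiniteIndex) :
    nOrb H (Ed K) = H.index * nOrb (⊤ : Subgroup K.Γ) (Ed K) := by
  have h := nOrb_index H ⊤ le_top (by
    rw [Subgroup.relIndex_top_right]
    exact hH.index_ne_zero) (Ed K) (ed_finite ⊤ inferInstance) (fun g _ e he => ed_inv g e he)
    (fun g _ e _ h => v_free g e.1 (congrArg Prod.fst h))
  rwa [Subgroup.relIndex_top_right] at h

theorem nOrb_tr (H : Subgroup K.Γ) (hH : H.FiniteIndex) :
    nOrb H (Tr K) = H.index * nOrb (⊤ : Subgroup K.Γ) (Tr K) := by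
  have h := nOrb_index H ⊤ le_top (by
    rw [Subgroup.relIndex_top_right]
    exact hH.index_ne_zero) (Tr K) (tr_finite ⊤ inferInstance) (fun g _ e he => tr_inv g e he)
    (fun g _ e _ h => v_free g e.1 (congrArg Prod.fst h))
  rwa [Subgroup.relIndex_top_right] at h

theorem link_card (a b : K.V) :
    {c : K.V | ({a, b, c} : Finset K.V) ∈ K.faces}.Finite ∧
    {c : K.V | ({a, b, c} : Finset K.V) ∈ K.faces}.ncard ≤ nOrb (⊤ : Subgroup K.Γ) (Tr K) := by
  have hfin := tr_finite (K := K) ⊤ inferInstance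
  have hmaps : ∀ c ∈ {c : K.V | ({a, b, c} : Finset K.V) ∈ K.faces},
      (MulAction.orbit (⊤ : Subgroup K.Γ) (a, b, c) : Set (K.V × K.V × K.V)) ∈
        ((fun x => (MulAction.orbit (⊤ : Subgroup K.Γ) x : Set (K.V × K.V × K.V))) '' Tr K) :=
    fun c hc => ⟨(a, b, c), hc, rfl⟩
  have hinj : Set.InjOn (fun c =>
      (MulAction.orbit (⊤ : Subgroup K.Γ) (a, b, c) : Set (K.V × K.V × K.V)))
      {c : K.V | ({a, b, c} : Finset K.V) ∈ K.faces} := by
    intro c _ c' _ h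
    obtain ⟨g, hg⟩ := MulAction.orbit_eq_iff.1 h
    have hg' : ((g : K.Γ) • a, (g : K.Γ) • b, (g : K.Γ) • c') = (a, b, c) := hg
    simp only [Prod.mk.injEq] at hg'
    have h1 := v_free (g : K.Γ) a hg'.1
    have h2 := hg'.2.2
    rw [h1, one_smul] at h2
    exact h2.symm
  exact ⟨Set.Finite.of_injOn hmaps hinj hfin, Set.ncard_le_ncard_of_injOn _ hmaps hinj hfin⟩

theorem nOrb_bad_le {p : ℕ} (H : Subgroup K.Γ) (hH : H.FiniteIndex) (f : K.V → ZMod p)
    (hf : f ∈ QInv (K := K) p H) :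
    nOrb H {e : K.V × K.V | Bad f e.1 e.2} ≤ 2 * nOrb (⊤ : Subgroup K.Γ) (Tr K) *
      nOrb H {e : K.V × K.V | e ∈ Ed K ∧ f e.1 ≠ f e.2} := by
  obtain ⟨χ, hχ⟩ := hf
  have hne : ∀ g ∈ H, ∀ u v : K.V, f u ≠ f v → f (g • u) ≠ f (g • v) := by
    intro g hg u v h h1
    rw [hχ g hg, hχ g hg] at h1
    exact h (add_right_cancel h1)
  set R : Set (K.V × K.V) := {e | e ∈ Ed K ∧ f e.1 ≠ f e.2} with hR
  set S₁ : Set (K.V × K.V × K.V) := {e | e ∈ Tr K ∧ f e.1 ≠ f e.2.1} with hS₁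
  set S₂ : Set (K.V × K.V × K.V) := {e | e ∈ Tr K ∧ f e.2.1 ≠ f e.2.2} with hS₂
  have hRfin : ((fun y => (MulAction.orbit H y : Set (K.V × K.V))) '' R).Finite :=
    (ed_finite H hH).subset (Set.image_mono fun e he => he.1)
  have hsubfin : ((fun y => (MulAction.orbit H y : Set (K.V × K.V × K.V))) '' (S₁ ∪ S₂)).Finite := by
    refine (tr_finite H hH).subset (Set.image_mono ?_)
    rintro e (he | he)
    · exact he.1
    · exact he.1
  have hrot : ∀ a b c : K.V, ({a, b, c} : Finset K.V) = {b, c, a} := by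
    intro a b c
    ext x
    simp only [Finset.mem_insert, Finset.mem_singleton]
    tauto
  have h1 : nOrb H S₁ ≤ nOrb (⊤ : Subgroup K.Γ) (Tr K) * nOrb H R := by
    refine nOrb_le_mul H (fun e : K.V × K.V × K.V => ((e.1, e.2.1) : K.V × K.V))
      (fun g x => rfl) S₁ ?_ R ?_ hRfin _ ?_
    · rintro g hg x ⟨hx, hx'⟩
      exact ⟨tr_inv g x hx, hne g hg _ _ hx'⟩
    · rintro x ⟨hx, hx'⟩
      refine ⟨?_, hx'⟩
      refine K.down_closed _ hx _ ?_ ⟨x.1, by simp⟩
      intro z hz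
      simp only [Finset.mem_insert, Finset.mem_singleton] at hz ⊢
      tauto
    · rintro ⟨u, v⟩ _
      obtain ⟨hl1, hl2⟩ := link_card u v
      have hsub : {x | x ∈ S₁ ∧ (x.1, x.2.1) = (u, v)} ⊆
          (fun c => ((u, v, c) : K.V × K.V × K.V)) '' {c | ({u, v, c} : Finset K.V) ∈ K.faces} := by
        rintro ⟨a, b, c⟩ ⟨⟨hx, -⟩, hx'⟩
        simp only [Prod.mk.injEq] at hx'
        obtain ⟨rfl, rfl⟩ := hx'
        exact ⟨c, hx, rfl⟩
      exact ⟨(hl1.image _).subset hsub,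
        ((Set.ncard_le_ncard hsub (hl1.image _)).trans (Set.ncard_image_le hl1)).trans hl2⟩
  have h2 : nOrb H S₂ ≤ nOrb (⊤ : Subgroup K.Γ) (Tr K) * nOrb H R := by
    refine nOrb_le_mul H (fun e : K.V × K.V × K.V => ((e.2.1, e.2.2) : K.V × K.V))
      (fun g x => rfl) S₂ ?_ R ?_ hRfin _ ?_
    · rintro g hg x ⟨hx, hx'⟩
      exact ⟨tr_inv g x hx, hne g hg _ _ hx'⟩
    · rintro x ⟨hx, hx'⟩
      refine ⟨?_, hx'⟩
      refine K.down_closed _ hx _ ?_ ⟨x.2.1, by simp⟩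
      intro z hz
      simp only [Finset.mem_insert, Finset.mem_singleton] at hz ⊢
      tauto
    · rintro ⟨u, v⟩ _
      obtain ⟨hl1, hl2⟩ := link_card u v
      have hsub : {x | x ∈ S₂ ∧ (x.2.1, x.2.2) = (u, v)} ⊆
          (fun c => ((c, u, v) : K.V × K.V × K.V)) '' {c | ({u, v, c} : Finset K.V) ∈ K.faces} := by
        rintro ⟨a, b, c⟩ ⟨⟨hx, -⟩, hx'⟩
        simp only [Prod.mk.injEq] at hx'
        obtain ⟨rfl, rfl⟩ := hx'
        refine ⟨a, ?_, rfl⟩
        have h3 : ({a, b, c} : Finset K.V) ∈ K.faces := hx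
        rw [hrot] at h3
        exact h3
      exact ⟨(hl1.image _).subset hsub,
        ((Set.ncard_le_ncard hsub (hl1.image _)).trans (Set.ncard_image_le hl1)).trans hl2⟩
  calc nOrb H {e : K.V × K.V | Bad f e.1 e.2} ≤ nOrb H (S₁ ∪ S₂) := by
        refine nOrb_image_le H (fun e : K.V × K.V × K.V => ((e.1, e.2.1) : K.V × K.V))
          (fun g x => rfl) _ hsubfin _ ?_
        rintro ⟨u, v⟩ ⟨w, hw, hw'⟩
        refine ⟨(u, v, w), ?_, rfl⟩
        by_cases huv : f u = f v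
        · exact Or.inr ⟨hw, fun h => hw' ⟨huv, h⟩⟩
        · exact Or.inl ⟨hw, huv⟩
    _ ≤ nOrb H S₁ + nOrb H S₂ := nOrb_union_le H S₁ S₂
    _ ≤ _ := by
        rw [mul_assoc, two_mul]
        exact add_le_add h1 h2

end Pool.Agent.ChL
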