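import Pool.Agent.ChL.Defs

/-!
# Subspaces cut out by invariant families of linear conditions

`finrank_cut`: intersecting with the kernel of a linear form lowers the dimension by at most one.

`finrank_cut_orb`: choose a finite set `s ⊆ S` of representatives of the `H`-orbits of elements of `S`, with
`s.card = nOrb H S`; the intersection of the kernels of `ℓ x`, `x ∈ s`, is contained in `W`.
-/

set_option linter.all false

namespace Pool.Agent.ChL

theorem finrank_cut {F V ι : Type*} [Field F] [AddCommGroup V] [Module F V] [Module.Finite F V]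
    (s : Finset ι) (ℓ : ι → V →ₗ[F] F) :
    Module.finrank F V ≤
      Module.finrank F (⨅ i ∈ s, LinearMap.ker (ℓ i) : Submodule F V) + s.card := by
  let L : V →ₗ[F] (s → F) := LinearMap.pi fun i => ℓ i
  have h1 : LinearMap.ker L = (⨅ i ∈ s, LinearMap.ker (ℓ i) : Submodule F V) := by
    ext v
    simp only [LinearMap.mem_ker, Submodule.mem_iInf]
    constructor
    · intro h i hi
      exact congrFun h ⟨i, hi⟩
    · intro h
      funext i
      exact h i.1 i.2
  have h2 := LinearMap.finrank_range_add_finrank_ker L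
  have h3 : Module.finrank F (LinearMap.range L) ≤ s.card := by
    have h4 := Submodule.finrank_le (LinearMap.range L)
    rw [Module.finrank_fintype_fun_eq_card, Fintype.card_coe] at h4
    exact h4
  rw [h1] at h2
  omega

theorem finrank_cut_orb {F V G X : Type*} [Field F] [AddCommGroup V] [Module F V]
    [Module.Finite F V] [Group G] [MulAction G X] (H : Subgroup G) (S : Set X)
    (hS : ((fun x => (MulAction.orbit H x : Set X)) '' S).Finite) (ℓ : X → V →ₗ[F] F)
    (hℓ : ∀ g ∈ H, ∀ x ∈ S, ℓ (g • x) = ℓ x) (W : Submodule F V)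
    (hW : ∀ v, (∀ x ∈ S, ℓ x v = 0) → v ∈ W) :
    Module.finrank F V ≤ Module.finrank F W + nOrb H S := by
  classical
  let ℓ' : Set X → V →ₗ[F] F := fun O =>
    if h : ∃ x ∈ S, (MulAction.orbit H x : Set X) = O then ℓ h.choose else 0
  have h1 := finrank_cut hS.toFinset ℓ'
  have h2 : (⨅ O ∈ hS.toFinset, LinearMap.ker (ℓ' O) : Submodule F V) ≤ W := by
    intro v hv
    apply hW
    intro x hx
    rw [Submodule.mem_iInf] at hv
    have h3 := hv (MulAction.orbit H x)
    rw [Submodule.mem_iInf] at h3
    have h4 := h3 (hS.mem_toFinset.2 ⟨x, hx, rfl⟩)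
    have h5 : ∃ y ∈ S, (MulAction.orbit H y : Set X) = MulAction.orbit H x := ⟨x, hx, rfl⟩
    have h6 : ℓ' (MulAction.orbit H x) = ℓ h5.choose := dif_pos h5
    rw [h6] at h4
    have h7 : x ∈ (MulAction.orbit H h5.choose : Set X) := by
      rw [h5.choose_spec.2]
      exact MulAction.mem_orbit_self x
    obtain ⟨g, hg⟩ := h7
    have h8 : ℓ x = ℓ h5.choose := by
      rw [← hℓ g.1 g.2 _ h5.choose_spec.1]
      exact congrArg ℓ hg.symm
    rw [h8]
    exact h4
  have h3 := Submodule.finrank_mono h2
  have h4 : hS.toFinset.card = nOrb H S := by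
    unfold nOrb
    rw [Set.ncard_eq_toFinset_card _ hS]
  omega

end Pool.Agent.ChL
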