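import Pool.Agent.ChL.TriSet
import Pool.Agent.ChL.LinCount
import Pool.Agent.ChL.QInvDim

/-!
# A loop in a component of the complement of the bad edges

Let `W` be the space of the `z ∈ QInv p H` with `z u = z v` for all bad edges `(u, v)`.  By `qInv_finrank` and
`finrank_cut_orb` (`ℓ (u, v) z = z v - z u`; badness is invariant under `H`), `finrank W > card orbits`.
`u ~ v` (joined by a path of good edges) is an equivalence relation, respected by `H`; its classes are
called components.

Suppose that `z (g v) = z v` for all `z ∈ W`, `v`, and `g ∈ H` with `g v ~ v`.  Choose representatives of the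
`H`-orbits of components, and for every `H`-orbit `O` of vertices a vertex `v_O ∈ O` in a chosen component.
The map `W → (orbits → ZMod p)`, `z ↦ (z v_O)_O`, is injective, a contradiction: let `z v_O = 0` for all `O`.
Let `v` be in a chosen component `C`, and `O` its orbit.  `v = g v_O` with `g ∈ H`.  `v_O` is in a chosen
component in the `H`-orbit of `C`, so in `C`, so `g v_O ~ v_O` and `z v = z (g v_O) = z v_O = 0`.  Thus `z = 0` on the
chosen components, and `z (h v) = z v + χ h = χ h` for `v` in a chosen component: `z` is constant on all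
components.  So `z u = z v` for all edges, good or bad; `z` is constant (`Connected`) and vanishes
somewhere, so `z = 0`.
-/

namespace Pool.Agent.ChL

open Matrix Pool.Agent.ChP Pool.Agent.ChS
open scoped Pointwise

variable {n : ℕ} {K : AffineTriangulation n}

private theorem Comp_perm {u v w : K.V}
    (h : ({u, v, w} : Finset K.V) ∈ K.faces) : ({v, u, w} : Finset K.V) ∈ K.faces := by
  have h1 : ({v, u, w} : Finset K.V) = {u, v, w} := by
    ext x
    simp only [Finset.mem_insert, Finset.mem_singleton]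
    tauto
  rw [h1]
  exact h

theorem bad_symm {p : ℕ} {f : K.V → ZMod p} {u v : K.V} (h : Bad f u v) : Bad f v u := by
  obtain ⟨w, hw, hw'⟩ := h
  refine ⟨w, Comp_perm hw, ?_⟩
  rintro ⟨h1, h2⟩
  exact hw' ⟨h1.symm, h1.trans h2⟩

theorem good_symm {p : ℕ} {f : K.V → ZMod p} {u v : K.V} (h : Good f u v) : Good f v u := by
  refine ⟨?_, fun h1 => h.2 (bad_symm h1)⟩
  rw [Finset.pair_comm]
  exact h.1

private theorem Comp_bad_smul {p : ℕ} {H : Subgroup K.Γ} {f : K.V → ZMod p}
    (hf : f ∈ QInv (K := K) p H) (g : K.Γ) (hg : g ∈ H) (u v : K.V) (h : Bad f u v) :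
    Bad f (g • u) (g • v) := by
  obtain ⟨χ, hχ⟩ := hf
  obtain ⟨w, hw, hw'⟩ := h
  refine ⟨g • w, ?_, ?_⟩
  · have h1 := tr_inv g (u, v, w) hw
    exact h1
  · rw [hχ g hg, hχ g hg, hχ g hg]
    rintro ⟨h1, h2⟩
    exact hw' ⟨add_right_cancel h1, add_right_cancel h2⟩

theorem bad_smul {p : ℕ} {H : Subgroup K.Γ} {f : K.V → ZMod p} (hf : f ∈ QInv (K := K) p H)
    (g : K.Γ) (hg : g ∈ H) (u v : K.V) : Bad f (g • u) (g • v) ↔ Bad f u v := by
  constructor
  · intro h
    have h1 := Comp_bad_smul hf g⁻¹ (H.inv_mem hg) _ _ h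
    rwa [inv_smul_smul, inv_smul_smul] at h1
  · exact Comp_bad_smul hf g hg u v

private theorem Comp_ed_iff (g : K.Γ) (u v : K.V) :
    ({g • u, g • v} : Finset K.V) ∈ K.faces ↔ ({u, v} : Finset K.V) ∈ K.faces := by
  constructor
  · intro h
    have h1 : ({g⁻¹ • (g • u), g⁻¹ • (g • v)} : Finset K.V) ∈ K.faces :=
      ed_inv g⁻¹ (g • u, g • v) h
    rwa [inv_smul_smul, inv_smul_smul] at h1
  · intro h
    exact ed_inv g (u, v) h

theorem good_smul {p : ℕ} {H : Subgroup K.Γ} {f : K.V → ZMod p} (hf : f ∈ QInv (K := K) p H)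
    (g : K.Γ) (hg : g ∈ H) (u v : K.V) : Good f (g • u) (g • v) ↔ Good f u v := by
  unfold Good
  rw [bad_smul hf g hg, Comp_ed_iff]

private theorem Comp_path_symm {p : ℕ} {f : K.V → ZMod p} {u v : K.V}
    (h : Relation.ReflTransGen (Good f) u v) : Relation.ReflTransGen (Good f) v u := by
  induction h with
  | refl => exact Relation.ReflTransGen.refl
  | tail _ h2 ih => exact Relation.ReflTransGen.head (good_symm h2) ih

private theorem Comp_path_smul {p : ℕ} {H : Subgroup K.Γ} {f : K.V → ZMod p}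
    (hf : f ∈ QInv (K := K) p H) (g : K.Γ) (hg : g ∈ H) {u v : K.V}
    (h : Relation.ReflTransGen (Good f) u v) :
    Relation.ReflTransGen (Good f) (g • u) (g • v) := by
  induction h with
  | refl => exact Relation.ReflTransGen.refl
  | tail _ h2 ih => exact ih.tail ((good_smul hf g hg _ _).2 h2)

/-- The relation: some translates by `H` are in the same component. -/
private def Comp_setoid {p : ℕ} {H : Subgroup K.Γ} {f : K.V → ZMod p}
    (hf : f ∈ QInv (K := K) p H) : Setoid K.V where
  r u v := ∃ g ∈ H, Relation.ReflTransGen (Good f) u (g • v)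
  iseqv := by
    refine ⟨fun u => ⟨1, H.one_mem, ?_⟩, ?_, ?_⟩
    · rw [one_smul]
    · rintro u v ⟨g, hg, h⟩
      refine ⟨g⁻¹, H.inv_mem hg, ?_⟩
      have h1 := Comp_path_smul hf g⁻¹ (H.inv_mem hg) h
      rw [inv_smul_smul] at h1
      exact Comp_path_symm h1
    · rintro u v w ⟨g, hg, h⟩ ⟨g', hg', h'⟩
      refine ⟨g * g', H.mul_mem hg hg', ?_⟩
      rw [mul_smul]
      exact h.trans (Comp_path_smul hf g hg h')

private theorem Comp_inj (hc : Connected K) (p : ℕ) (H : Subgroup K.Γ)
    (f : K.V → ZMod p) (hf : f ∈ QInv (K := K) p H) :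
    ∃ c : MulAction.orbitRel.Quotient H K.V → K.V,
      ∀ z ∈ QInv (K := K) p H, (∀ u v : K.V, Bad f u v → z u = z v) →
        (∀ (v₀ : K.V) (g : K.Γ), g ∈ H → Relation.ReflTransGen (Good f) v₀ (g • v₀) →
          z (g • v₀) = z v₀) → (∀ O, z (c O) = 0) → z = 0 := by
  classical
  obtain ⟨r, hr⟩ : ∃ r : K.V → K.V, ∀ v, r v =
      Quotient.out (Quotient.mk (Comp_setoid hf) v) := ⟨_, fun v => rfl⟩
  have hr1 : ∀ v, ∃ g ∈ H, Relation.ReflTransGen (Good f) (r v) (g • v) := by
    intro v
    have h1 : Quotient.mk (Comp_setoid hf) (r v) = Quotient.mk (Comp_setoid hf) v := by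
      rw [hr v]
      exact Quotient.out_eq _
    exact Quotient.exact h1
  have hr2 : ∀ u v, (∃ g ∈ H, Relation.ReflTransGen (Good f) u (g • v)) → r u = r v := by
    intro u v h
    rw [hr u, hr v]
    congr 1
    exact Quotient.sound h
  choose G hG hG' using hr1
  refine ⟨fun O => G (Quotient.out O) • Quotient.out O, ?_⟩
  intro z hz hzb hzl hz0
  have hz' := hz
  obtain ⟨χ, hχ⟩ := hz'
  -- vertices in chosen components
  have h1 : ∀ v, Relation.ReflTransGen (Good f) (r v) v → z v = 0 := by
    intro v hv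
    set O : MulAction.orbitRel.Quotient H K.V := Quotient.mk _ v with hO
    have h2 : (Quotient.mk _ (Quotient.out O) : MulAction.orbitRel.Quotient H K.V) =
        Quotient.mk _ v := Quotient.out_eq O
    obtain ⟨g, hg⟩ := Quotient.exact h2
    have hg1 : (g : K.Γ) • v = Quotient.out O := hg
    have h3 : r (Quotient.out O) = r v := by
      apply hr2
      exact ⟨g.1, g.2, by rw [hg1]⟩
    have h4 : G (Quotient.out O) • Quotient.out O = (G (Quotient.out O) * g.1) • v := by
      rw [mul_smul, hg1]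
    have h5 := hG' (Quotient.out O)
    rw [h3, h4] at h5
    have h6 : Relation.ReflTransGen (Good f) v ((G (Quotient.out O) * g.1) • v) :=
      (Comp_path_symm hv).trans h5
    have h7 := hzl v _ (H.mul_mem (hG (Quotient.out O)) g.2) h6
    rw [← h7, ← h4]
    exact hz0 O
  -- constant on components
  have h2 : ∀ u v, Relation.ReflTransGen (Good f) u v → z u = z v := by
    intro u v huv
    have h3 : r (G v • v) = r v := by
      apply hr2
      exact ⟨G v, hG v, Relation.ReflTransGen.refl⟩
    have h4 : z (G v • v) = 0 := by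
      apply h1
      rw [h3]
      exact hG' v
    have h5 : r (G v • u) = r v := by
      apply hr2
      exact ⟨G v, hG v, Comp_path_smul hf _ (hG v) huv⟩
    have h6 : z (G v • u) = 0 := by
      apply h1
      rw [h5]
      exact (hG' v).trans (Comp_path_smul hf _ (hG v) (Comp_path_symm huv))
    rw [hχ _ (hG v)] at h4 h6
    exact add_right_cancel (h6.trans h4.symm)
  have h3 : ∀ u v : K.V, ({u, v} : Finset K.V) ∈ K.faces → z u = z v := by
    intro u v huv
    by_cases hb : Bad f u v
    · exact hzb u v hb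
    · exact h2 u v (Relation.ReflTransGen.single ⟨huv, hb⟩)
  have h4 : ∀ u v : K.V, z u = z v := by
    intro u v
    have h5 := hc.2 u v
    induction h5 with
    | refl => rfl
    | tail _ h6 ih => exact ih.trans (h3 _ _ h6)
  obtain ⟨v₀⟩ := hc.1
  have h5 : z (G v₀ • v₀) = 0 := by
    apply h1
    have h6 : r (G v₀ • v₀) = r v₀ := by
      apply hr2
      exact ⟨G v₀, hG v₀, Relation.ReflTransGen.refl⟩
    rw [h6]
    exact hG' v₀
  funext v
  rw [h4 v (G v₀ • v₀), h5]
  rfl

theorem exists_loop (hc : Connected K) (p : ℕ) [Fact p.Prime] (H : Subgroup K.Γ)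
    (hH : H.FiniteIndex) (f : K.V → ZMod p) (hf : f ∈ QInv (K := K) p H)
    (hbad : nOrb H {e : K.V × K.V | Bad f e.1 e.2} <
      Module.finrank (ZMod p) (HomR (ZMod p) H)) :
    ∃ z ∈ QInv (K := K) p H, (∀ u v : K.V, Bad f u v → z u = z v) ∧
      ∃ (v₀ : K.V) (g : K.Γ), g ∈ H ∧ Relation.ReflTransGen (Good f) v₀ (g • v₀) ∧
        z (g • v₀) ≠ z v₀ := by
  classical
  by_contra hcon
  have hcon' : ∀ z ∈ QInv (K := K) p H, (∀ u v : K.V, Bad f u v → z u = z v) →
      ∀ (v₀ : K.V) (g : K.Γ), g ∈ H → Relation.ReflTransGen (Good f) v₀ (g • v₀) →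
        z (g • v₀) = z v₀ := by
    intro z hz hzb v₀ g hg hp
    by_contra hne
    exact hcon ⟨z, hz, hzb, v₀, g, hg, hp, hne⟩
  obtain ⟨hQf, hQr⟩ := qInv_finrank hc p H hH
  have := hQf
  have hOf := finite_orbits (K := K) H hH
  have : Fintype (MulAction.orbitRel.Quotient H K.V) := Fintype.ofFinite _
  obtain ⟨W, hW⟩ : ∃ W : Submodule (ZMod p) (QInv (K := K) p H),
      ∀ z, z ∈ W ↔ ∀ u v : K.V, Bad f u v → z.1 u = z.1 v := by
    refine ⟨{ carrier := {z | ∀ u v : K.V, Bad f u v → z.1 u = z.1 v}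
              add_mem' := ?_
              zero_mem' := ?_
              smul_mem' := ?_ }, fun z => Iff.rfl⟩
    · intro a b ha hb u v huv
      change a.1 u + b.1 u = a.1 v + b.1 v
      rw [ha u v huv, hb u v huv]
    · intro u v _
      rfl
    · intro c a ha u v huv
      change c * a.1 u = c * a.1 v
      rw [ha u v huv]
  obtain ⟨ℓ, hℓ⟩ : ∃ ℓ : K.V × K.V → QInv (K := K) p H →ₗ[ZMod p] ZMod p,
      ∀ e z, ℓ e z = z.1 e.2 - z.1 e.1 := by
    refine ⟨fun e =>
      { toFun := fun z => z.1 e.2 - z.1 e.1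
        map_add' := ?_
        map_smul' := ?_ }, fun e z => rfl⟩
    · intro a b
      change (a.1 e.2 + b.1 e.2) - (a.1 e.1 + b.1 e.1) = _
      ring
    · intro c a
      change c * a.1 e.2 - c * a.1 e.1 = c * (a.1 e.2 - a.1 e.1)
      ring
  have hSfin : ((fun x => (MulAction.orbit H x : Set (K.V × K.V))) ''
      {e : K.V × K.V | Bad f e.1 e.2}).Finite := by
    refine (ed_finite H hH).subset (Set.image_mono ?_)
    rintro ⟨u, v⟩ ⟨w, hw, -⟩
    refine K.down_closed _ hw _ ?_ ⟨u, by simp⟩
    intro x hx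
    simp only [Finset.mem_insert, Finset.mem_singleton] at hx ⊢
    tauto
  have hcut := finrank_cut_orb (F := ZMod p) H {e : K.V × K.V | Bad f e.1 e.2} hSfin ℓ
    (by
      intro g hg e _
      ext z
      rw [hℓ, hℓ]
      obtain ⟨χ, hχ⟩ := z.2
      change z.1 (g • e.2) - z.1 (g • e.1) = _
      rw [hχ g hg, hχ g hg]
      ring) W
    (by
      intro z hz
      rw [hW]
      intro u v huv
      have h1 := hz (u, v) huv
      rw [hℓ] at h1
      exact (sub_eq_zero.1 h1).symm)
  rw [hQr, Nat.card_eq_fintype_card] at hcut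
  obtain ⟨c, hcinj⟩ := Comp_inj hc p H f hf
  obtain ⟨L, hL⟩ : ∃ L : W →ₗ[ZMod p] (MulAction.orbitRel.Quotient H K.V → ZMod p),
      ∀ z O, L z O = z.1.1 (c O) :=
    ⟨{ toFun := fun z O => z.1.1 (c O)
       map_add' := fun a b => rfl
       map_smul' := fun c a => rfl }, fun z O => rfl⟩
  have hLinj : Function.Injective L := by
    rw [injective_iff_map_eq_zero]
    intro z hz
    have hzW := (hW z.1).1 z.2
    have h1 : z.1.1 = 0 := hcinj z.1.1 z.1.2 hzW (hcon' z.1.1 z.1.2 hzW)
      (fun O => by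
        rw [← hL, hz]
        rfl)
    apply Subtype.ext
    apply Subtype.ext
    exact h1
  have h2 := LinearMap.finrank_le_finrank_of_injective hLinj
  rw [Module.finrank_fintype_fun_eq_card] at h2
  omega

end Pool.Agent.ChL
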