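import Pool.Agent.ChS.Defs

/-!
# Closed affine 4-manifolds and large groups: definitions
-/

namespace Pool.Agent.ChL

open Matrix Pool.Agent.ChP Pool.Agent.ChS
open scoped Pointwise

/-- A group is large if a subgroup of finite index maps onto the free group of rank 2. -/
def Large (G : Type*) [Group G] : Prop :=
  ∃ H : Subgroup G, H.FiniteIndex ∧ ∃ ψ : H →* FreeGroup (Fin 2), Function.Surjective ψ

/-- `|K|` is simply connected (for connected `K`): every function on oriented edges with values in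
a group which is multiplicative on triangles is a coboundary. -/
def SimplyConn {n : ℕ} (K : AffineTriangulation n) : Prop :=
  ∀ (G : Type) [Group G] (c : K.V → K.V → G),
    (∀ u v w : K.V, ({u, v, w} : Finset K.V) ∈ K.faces → c u v * c v w = c u w) →
    ∃ f : K.V → G, ∀ u v : K.V, ({u, v} : Finset K.V) ∈ K.faces → c u v = (f u)⁻¹ * f v

/-! ### Crossed homomorphisms over arbitrary rings -/

/-- The crossed homomorphisms of `H` with values in the alternating `4 × 4`-matrices over `R`, for the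
action `X ↦ κ g • (θ g⁻¹)ᵀ X (θ g⁻¹)`. -/
def Z1R (R : Type*) [CommRing R] {H : Type*} [Group H] (κ : H → R)
    (θ : H → Matrix (Fin 4) (Fin 4) R) : Submodule R (H → Matrix (Fin 4) (Fin 4) R) where
  carrier := {z | (∀ g, (z g)ᵀ = -z g) ∧
    ∀ g h, z (g * h) = z g + κ g • ((θ g⁻¹)ᵀ * z h * θ g⁻¹)}
  add_mem' := by
    rintro a b ⟨ha, ha'⟩ ⟨hb, hb'⟩
    refine ⟨fun g => ?_, fun g h => ?_⟩
    · rw [Pi.add_apply, Matrix.transpose_add, ha, hb, neg_add]
    · simp only [Pi.add_apply]
      rw [ha', hb', Matrix.mul_add, Matrix.add_mul, smul_add]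
      abel
  zero_mem' := by
    refine ⟨fun g => ?_, fun g h => ?_⟩
    · simp
    · simp
  smul_mem' := by
    rintro c a ⟨ha, ha'⟩
    refine ⟨fun g => ?_, fun g h => ?_⟩
    · rw [Pi.smul_apply, Matrix.transpose_smul, ha, smul_neg]
    · simp only [Pi.smul_apply]
      rw [ha', smul_add, Matrix.mul_smul, Matrix.smul_mul, smul_comm]

/-- The homomorphisms of `H` into `F` (written additively), as a vector space. -/
def HomR (F : Type*) [CommRing F] (H : Type*) [Group H] : Submodule F (H → F) where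
  carrier := {f | ∀ g h, f (g * h) = f g + f h}
  add_mem' := by
    intro a b ha hb g h
    simp only [Pi.add_apply]
    rw [ha, hb]
    abel
  zero_mem' := by
    intro g h
    simp
  smul_mem' := by
    intro c a ha g h
    simp only [Pi.smul_apply]
    rw [ha, smul_add]

/-! ### Orbits -/

/-- The number of orbits of the subgroup `H` on the set `S`. -/
noncomputable def nOrb {G X : Type*} [Group G] [MulAction G X] (H : Subgroup G) (S : Set X) : ℕ :=
  ((fun x => (MulAction.orbit H x : Set X)) '' S).ncard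

/-- The common kernel of the homomorphisms of `H` to `ZMod p`. -/
def Fr (p : ℕ) {G : Type*} [Group G] (H : Subgroup G) : Subgroup G where
  carrier := {g | ∃ hg : g ∈ H, ∀ χ ∈ HomR (ZMod p) H, χ ⟨g, hg⟩ = 0}
  mul_mem' := by
    rintro a b ⟨ha, ha'⟩ ⟨hb, hb'⟩
    refine ⟨H.mul_mem ha hb, fun χ hχ => ?_⟩
    have h1 := hχ ⟨a, ha⟩ ⟨b, hb⟩
    rw [ha' χ hχ, hb' χ hχ, add_zero] at h1
    exact h1
  one_mem' := by
    refine ⟨H.one_mem, fun χ hχ => ?_⟩
    have h1 := hχ 1 1
    rw [mul_one] at h1
    have h2 : χ 1 = 0 := by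
      have h3 : χ 1 + χ 1 = χ 1 + 0 := by rw [← h1, add_zero]
      exact add_left_cancel h3
    exact h2
  inv_mem' := by
    rintro a ⟨ha, ha'⟩
    refine ⟨H.inv_mem ha, fun χ hχ => ?_⟩
    have h1 := hχ 1 1
    rw [mul_one] at h1
    have h2 : χ 1 = 0 := by
      have h3 : χ 1 + χ 1 = χ 1 + 0 := by rw [← h1, add_zero]
      exact add_left_cancel h3
    have h4 := hχ ⟨a, ha⟩ ⟨a, ha⟩⁻¹
    rw [mul_inv_cancel, h2, ha' χ hχ, zero_add] at h4
    exact h4.symm

section Tri

variable {n : ℕ} (K : AffineTriangulation n)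

/-- The ordered edges (possibly degenerate). -/
def Ed : Set (K.V × K.V) := {e | ({e.1, e.2} : Finset K.V) ∈ K.faces}

/-- The ordered triangles (possibly degenerate). -/
def Tr : Set (K.V × K.V × K.V) := {e | ({e.1, e.2.1, e.2.2} : Finset K.V) ∈ K.faces}

variable {K}

/-- The functions with values in `ZMod p` which are invariant under `H` up to constants. -/
def QInv (p : ℕ) (H : Subgroup K.Γ) : Submodule (ZMod p) (K.V → ZMod p) where
  carrier := {f | ∃ χ : K.Γ → ZMod p, ∀ g ∈ H, ∀ v : K.V, f (g • v) = f v + χ g}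
  add_mem' := by
    rintro a b ⟨χ, hχ⟩ ⟨χ', hχ'⟩
    refine ⟨fun g => χ g + χ' g, fun g hg v => ?_⟩
    simp only [Pi.add_apply]
    rw [hχ g hg, hχ' g hg]
    ring
  zero_mem' := ⟨fun _ => 0, fun g _ v => by simp⟩
  smul_mem' := by
    rintro c a ⟨χ, hχ⟩
    refine ⟨fun g => c * χ g, fun g hg v => ?_⟩
    simp only [Pi.smul_apply, smul_eq_mul]
    rw [hχ g hg]
    ring

/-- The functions with values in `ZMod p` which are invariant under `H`. -/
def Inv (p : ℕ) (H : Subgroup K.Γ) : Submodule (ZMod p) (K.V → ZMod p) where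
  carrier := {f | ∀ g ∈ H, ∀ v : K.V, f (g • v) = f v}
  add_mem' := by
    rintro a b ha hb g hg v
    simp only [Pi.add_apply]
    rw [ha g hg, hb g hg]
  zero_mem' := fun g _ v => rfl
  smul_mem' := by
    rintro c a ha g hg v
    simp only [Pi.smul_apply]
    rw [ha g hg]

/-- The ordered edges on which some function of the family is not constant. -/
def Supp {p m : ℕ} (f : Fin m → K.V → ZMod p) : Set (K.V × K.V) :=
  {e | e ∈ Ed K ∧ ∃ l, f l e.1 ≠ f l e.2}

/-- No non-trivial linear combination of the functions is invariant under `H`. -/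
def Indep (p : ℕ) (H : Subgroup K.Γ) {m : ℕ} (f : Fin m → K.V → ZMod p) : Prop :=
  ∀ a : Fin m → ZMod p,
    (∀ g ∈ H, ∀ v : K.V, ∑ l, a l * f l (g • v) = ∑ l, a l * f l v) → a = 0

/-- The edges of the triangles on which `f` is not constant. -/
def Bad {p : ℕ} (f : K.V → ZMod p) (u v : K.V) : Prop :=
  ∃ w : K.V, ({u, v, w} : Finset K.V) ∈ K.faces ∧ ¬ (f u = f v ∧ f v = f w)

/-- The other edges. -/
def Good {p : ℕ} (f : K.V → ZMod p) (u v : K.V) : Prop :=
  ({u, v} : Finset K.V) ∈ K.faces ∧ ¬ Bad f u v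

/-- The coefficient functions `θ` for which `∑ θ_l df_l` is closed. -/
def SolQ (p : ℕ) (H : Subgroup K.Γ) {m : ℕ} (f : Fin m → K.V → ZMod p) :
    Submodule (ZMod p) (Fin m → QInv (K := K) p H) where
  carrier := {θ | ∀ u v w : K.V, ({u, v, w} : Finset K.V) ∈ K.faces →
    ∑ l, ((θ l).1 v - (θ l).1 u) * (f l w - f l v) = 0}
  add_mem' := by
    intro a b ha hb u v w h
    have h1 := ha u v w h
    have h2 := hb u v w h
    have h3 : ∑ l, (((a + b) l).1 v - ((a + b) l).1 u) * (f l w - f l v) =
        ∑ l, ((a l).1 v - (a l).1 u) * (f l w - f l v) +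
        ∑ l, ((b l).1 v - (b l).1 u) * (f l w - f l v) := by
      rw [← Finset.sum_add_distrib]
      refine Finset.sum_congr rfl fun l _ => ?_
      simp only [Pi.add_apply, Submodule.coe_add]
      ring
    rw [h3, h1, h2, add_zero]
  zero_mem' := by
    intro u v w h
    simp
  smul_mem' := by
    intro c a ha u v w h
    have h1 := ha u v w h
    have h3 : ∑ l, (((c • a) l).1 v - ((c • a) l).1 u) * (f l w - f l v) =
        c * ∑ l, ((a l).1 v - (a l).1 u) * (f l w - f l v) := by
      rw [Finset.mul_sum]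
      refine Finset.sum_congr rfl fun l _ => ?_
      simp only [Pi.smul_apply, SetLike.val_smul, smul_eq_mul]
      ring
    rw [h3, h1, mul_zero]

end Tri

end Pool.Agent.ChL
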