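import Mathlib

/-!
# Finite residue fields of finitely generated subrings of `ℝ`

Let `A` be the subring generated by `T` and `1/2`: a finitely generated `ℤ`-algebra, not the zero ring.
Let `m` be a maximal ideal; `k = A / m` is a field of finite type over `ℤ`, so (`ℤ` is a Jacobson ring:
`finite_of_finite_type_of_isJacobsonRing`) a finitely generated `ℤ`-module, hence finite: its
characteristic `p` is positive (`ℚ` is not a finitely generated abelian group) and it is a
finitely generated module over `ZMod p`.  `2` is invertible in `A`.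
-/

namespace Pool.Agent.ChL

private theorem FinField_jac : IsJacobsonRing ℤ := by
  rw [isJacobsonRing_iff_prime_eq]
  intro P hP
  by_cases h0 : P = ⊥
  · subst h0
    refine le_antisymm ?_ bot_le
    intro x hx
    rw [Ideal.mem_bot]
    have h1 := (Ideal.mem_jacobson_bot.1 hx) 3
    rcases Int.isUnit_iff.1 h1 with h | h <;> omega
  · have hmax : P.IsMaximal := hP.isMaximal h0
    exact Ideal.jacobson_eq_self_of_isMaximal

private theorem FinField_finite (k : Type) [Field k] [Module.Finite ℤ k] : Finite k := by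
  have hint : Algebra.IsIntegral ℤ k := Algebra.IsIntegral.of_finite ℤ k
  obtain ⟨p, hp⟩ := CharP.exists k
  have hp0 : p ≠ 0 := by
    rintro rfl
    have : CharZero k := CharP.charP_to_charZero k
    have hinj : Function.Injective (algebraMap ℤ k) := by
      intro a b h
      simpa using h
    exact Int.not_isField (isField_of_isIntegral_of_isField hinj (Field.toIsField k))
  obtain ⟨s, hs⟩ := (Module.Finite.fg_top : (⊤ : Submodule ℤ k).FG)
  -- every element is a combination with coefficients in `0, …, p - 1`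
  have hcast : ∀ (z : ℤ) (x : k), z • x = ((z % p).toNat : ℕ) • x := by
    intro z x
    have hp' : (p : ℤ) ≠ 0 := by exact_mod_cast hp0
    have h1 : (((z % p).toNat : ℕ) : ℤ) = z % p := Int.toNat_of_nonneg (Int.emod_nonneg _ hp')
    rw [zsmul_eq_mul, nsmul_eq_mul]
    congr 1
    have h2 : ((z % p : ℤ) : k) = (((z % p).toNat : ℕ) : k) := by
      have h4 := congrArg (fun y : ℤ => (y : k)) h1
      simp only [Int.cast_natCast] at h4
      exact h4.symm
    rw [← h2]
    have h3 : z = z % p + p * (z / p) := (Int.emod_add_mul_ediv z p).symm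
    nth_rewrite 1 [h3]
    push_cast
    rw [CharP.cast_eq_zero k p, zero_mul, add_zero]
  have hsurj : Function.Surjective (fun f : s → Fin p => ∑ i : s, ((f i : ℕ) : k) * (i : k)) := by
    intro x
    have hx : x ∈ Submodule.span ℤ (s : Set k) := by rw [hs]; trivial
    rw [Submodule.mem_span_finset] at hx
    obtain ⟨c, -, hc⟩ := hx
    refine ⟨fun i => ⟨(c i % p).toNat, ?_⟩, ?_⟩
    · have hp' : (0 : ℤ) < p := by exact_mod_cast Nat.pos_of_ne_zero hp0
      have := Int.emod_lt_of_pos (c i) hp'
      have h2 := Int.emod_nonneg (c i) hp'.ne'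
      omega
    · simp only
      rw [← hc, ← Finset.sum_coe_sort s]
      refine Finset.sum_congr rfl fun i _ => ?_
      rw [hcast (c i) i, nsmul_eq_mul]
  have : Finite (s → Fin p) := inferInstance
  exact Finite.of_surjective _ hsurj

theorem exists_finite_residue (T : Finset ℝ) :
    ∃ (A : Subring ℝ) (k : Type) (_ : Field k) (_ : Finite k) (_ : A →+* k),
      (∀ x ∈ T, x ∈ A) ∧ (2 : k) ≠ 0 := by
  classical
  obtain ⟨B, hB⟩ : ∃ B : Subalgebra ℤ ℝ, B = Algebra.adjoin ℤ ((insert (1 / 2 : ℝ) T : Finset ℝ) : Set ℝ) :=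
    ⟨_, rfl⟩
  have hsub : ((insert (1 / 2 : ℝ) T : Finset ℝ) : Set ℝ) ⊆ B := by
    rw [hB]
    exact Algebra.subset_adjoin
  have hfg : B.FG := ⟨_, hB.symm⟩
  have hft : Algebra.FiniteType ℤ B := B.fg_iff_finiteType.1 hfg
  obtain ⟨m, hm⟩ := Ideal.exists_maximal B
  let _ := Ideal.Quotient.field m
  have _ := FinField_jac
  have hft2 : Algebra.FiniteType ℤ (B ⧸ m) :=
    hft.of_surjective (Ideal.Quotient.mkₐ ℤ m) (Ideal.Quotient.mkₐ_surjective ℤ m)
  have hfin : Module.Finite ℤ (B ⧸ m) := finite_of_finite_type_of_isJacobsonRing ℤ (B ⧸ m)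
  refine ⟨B.toSubring, B ⧸ m, inferInstance, FinField_finite _, Ideal.Quotient.mk m, ?_, ?_⟩
  · intro x hx
    exact hsub (Finset.mem_coe.2 (Finset.mem_insert_of_mem hx))
  · intro h2
    have hhalf : (1 / 2 : ℝ) ∈ B := hsub (Finset.mem_coe.2 (Finset.mem_insert_self _ _))
    have h3 : (⟨1 / 2, hhalf⟩ : B) * 2 = 1 := by
      apply Subtype.ext
      show (1 / 2 : ℝ) * 2 = 1
      norm_num
    have h4 := congrArg (Ideal.Quotient.mk m) h3
    rw [map_mul, map_one, map_ofNat, h2, mul_zero] at h4
    exact zero_ne_one h4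

end Pool.Agent.ChL
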