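import Pool.Agent.ChL.Comp

/-!
# The homomorphism

Write `u ~ v` if `u` and `v` are joined by a path of good edges, let `C = {v | v₀ ~ v}` and let `HC` be the set of
all `h v`, `h ∈ H`, `v ∈ C`.  If `(u, v)` is good then `u ∈ HC ↔ v ∈ HC` (`good_smul`).  Let
`c₁ u v = z v - z u` if `u ∈ HC` and `(u, v)` is good, and `0` otherwise, and
`c u v = x (c₁ u v) * y (f v - f u)` (with `Multiplicative.ofAdd`).

`c u v * c v w = c u w` for `{u, v, w} ∈ K.faces`: if `f` is not constant on the triangle then all its edges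
are bad (`Bad f u v`, by definition, and permutations) and `c₁ = 0` on them.  If `f` is constant, then we need
`c₁ u v + c₁ v w = c₁ u w`.  If at least two of the edges are good then `u ~ v ~ w` and `c₁ = dz` on all three edges (on
bad edges `z v - z u = 0`), or `c₁ = 0` on all of them.  If two edges are bad then `z u = z v = z w` and `c₁ = 0`.
So `SimplyConn` gives `F` with `c u v = (F u)⁻¹ * F v` on edges; we may assume `F v₀ = 1` (replace `F` by
`(F v₀)⁻¹ * F`).  `c (g u) (g v) = c u v` for `g ∈ H`; so `ψ g = F (g v) * (F v)⁻¹` does not depend on `v`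
(`Connected`) and `ψ` is a homomorphism.

For `v ∈ C` one has `F v = x (z v - z v₀)` (`f` is constant along good edges).  So
`ψ g = F (g v₀) = x (z (g v₀) - z v₀)` for the given `g`, and all `x a` are in the range `R` of `ψ` (`p` prime).
For `v = h v'`, `v' ∈ C`: `F v = ψ h * F v' ∈ R`.

For all `v`: `F v = a * y (f v - f v₀)` for some `a ∈ R`, by induction along a path from `v₀` to `v`.  Let it be
true for `u` and let `{u, v} ∈ K.faces`.  If `c₁ u v = 0` then `F v = F u * y (f v - f u)`.  Otherwise `(u, v)` is good and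
`u, v ∈ HC`, `F u, F v ∈ R` and `f u = f v`, so `y (f u - f v₀) = a⁻¹ * F u ∈ R` and
`F v = (F v * (y (f v - f v₀))⁻¹) * y (f v - f v₀)`.

For `g' ∈ H` with `f (g' v₁) ≠ f v₁`: `s = f (g' v₀) - f v₀ = f (g' v₁) - f v₁ ≠ 0`.  `F (g' v₀) = ψ g' ∈ R`, so `y s ∈ R`
and all `y a` are in `R`.
-/

namespace Pool.Agent.ChL

open Matrix Pool.Agent.ChP Pool.Agent.ChS
open scoped Pointwise

variable {n : ℕ} {K : AffineTriangulation n}

private theorem HomXY_range_all {p : ℕ} [Fact p.Prime] {G : Type} [Group G]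
    (x : Multiplicative (ZMod p) →* G) (R : Subgroup G) (s : ZMod p) (hs : s ≠ 0)
    (h : x (Multiplicative.ofAdd s) ∈ R) : ∀ a, x a ∈ R := by
  intro a
  have h1 : a = (Multiplicative.ofAdd s) ^ (Multiplicative.toAdd a * s⁻¹).val := by
    rw [← ofAdd_nsmul, nsmul_eq_mul, ZMod.natCast_zmod_val, mul_assoc, inv_mul_cancel₀ hs,
      mul_one, ofAdd_toAdd]
  rw [h1, map_pow]
  exact R.pow_mem h _

/-- The translates by `H` of the component of `v₀`. -/
private def HomXY_HC {p : ℕ} (H : Subgroup K.Γ) (f : K.V → ZMod p) (v₀ : K.V) : Set K.V :=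
  {v | ∃ h ∈ H, ∃ u, Relation.ReflTransGen (Good f) v₀ u ∧ v = h • u}

private theorem HomXY_mem_smul {p : ℕ} {H : Subgroup K.Γ} {f : K.V → ZMod p} {v₀ : K.V}
    (g : K.Γ) (hg : g ∈ H) (v : K.V) :
    g • v ∈ HomXY_HC H f v₀ ↔ v ∈ HomXY_HC H f v₀ := by
  constructor
  · rintro ⟨h, hh, u, hu, huv⟩
    refine ⟨g⁻¹ * h, H.mul_mem (H.inv_mem hg) hh, u, hu, ?_⟩
    rw [mul_smul, ← huv, inv_smul_smul]
  · rintro ⟨h, hh, u, hu, huv⟩
    refine ⟨g * h, H.mul_mem hg hh, u, hu, ?_⟩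
    rw [mul_smul, ← huv]

private theorem HomXY_mem_good' {p : ℕ} {H : Subgroup K.Γ} {f : K.V → ZMod p}
    (hf : f ∈ QInv (K := K) p H) {v₀ u v : K.V} (h : Good f u v)
    (hu : u ∈ HomXY_HC H f v₀) : v ∈ HomXY_HC H f v₀ := by
  obtain ⟨g, hg, w, hw, rfl⟩ := hu
  refine ⟨g, hg, g⁻¹ • v, ?_, (smul_inv_smul g v).symm⟩
  refine hw.tail ?_
  rw [← good_smul hf g hg, smul_inv_smul]
  exact h

private theorem HomXY_mem_good {p : ℕ} {H : Subgroup K.Γ} {f : K.V → ZMod p}
    (hf : f ∈ QInv (K := K) p H) {v₀ u v : K.V} (h : Good f u v) :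
    u ∈ HomXY_HC H f v₀ ↔ v ∈ HomXY_HC H f v₀ :=
  ⟨HomXY_mem_good' hf h, HomXY_mem_good' hf (good_symm h)⟩

private theorem HomXY_good_eq {p : ℕ} {f : K.V → ZMod p} {u v : K.V} (h : Good f u v) :
    f u = f v := by
  by_contra hne
  refine h.2 ⟨v, ?_, fun h1 => hne h1.1⟩
  have h1 : ({u, v, v} : Finset K.V) = {u, v} := by
    ext x
    simp only [Finset.mem_insert, Finset.mem_singleton]
    tauto
  rw [h1]
  exact h.1

open Classical in
/-- The additive part of the cocycle. -/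
private noncomputable def HomXY_c1 {p : ℕ} (S : Set K.V) (z : K.V → ZMod p) (u v : K.V) : ZMod p :=
  if u ∈ S then z v - z u else 0

private theorem HomXY_tri_edges {u v w : K.V} (h : ({u, v, w} : Finset K.V) ∈ K.faces) :
    ({u, v} : Finset K.V) ∈ K.faces ∧ ({v, w} : Finset K.V) ∈ K.faces ∧
      ({u, w} : Finset K.V) ∈ K.faces := by
  refine ⟨?_, ?_, ?_⟩
  · refine K.down_closed _ h _ ?_ ⟨u, by simp⟩
    intro x hx
    simp only [Finset.mem_insert, Finset.mem_singleton] at hx ⊢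
    tauto
  · refine K.down_closed _ h _ ?_ ⟨v, by simp⟩
    intro x hx
    simp only [Finset.mem_insert, Finset.mem_singleton] at hx ⊢
    tauto
  · refine K.down_closed _ h _ ?_ ⟨u, by simp⟩
    intro x hx
    simp only [Finset.mem_insert, Finset.mem_singleton] at hx ⊢
    tauto

private theorem HomXY_c1_add {p : ℕ} {H : Subgroup K.Γ} {f : K.V → ZMod p}
    (hf : f ∈ QInv (K := K) p H) (v₀ : K.V) (z : K.V → ZMod p)
    (hzb : ∀ u v : K.V, Bad f u v → z u = z v) {u v w : K.V}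
    (h : ({u, v, w} : Finset K.V) ∈ K.faces) :
    HomXY_c1 (HomXY_HC H f v₀) z u v + HomXY_c1 (HomXY_HC H f v₀) z v w =
      HomXY_c1 (HomXY_HC H f v₀) z u w := by
  classical
  obtain ⟨huv, hvw, huw⟩ := HomXY_tri_edges h
  have key : ∀ {a b : K.V}, ({a, b} : Finset K.V) ∈ K.faces →
      z a = z b ∨ (a ∈ HomXY_HC H f v₀ ↔ b ∈ HomXY_HC H f v₀) := by
    intro a b hab
    by_cases hb : Bad f a b
    · exact Or.inl (hzb a b hb)
    · exact Or.inr (HomXY_mem_good hf ⟨hab, hb⟩)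
  have k1 := key huv
  have k2 := key hvw
  have k3 := key huw
  unfold HomXY_c1
  by_cases h1 : u ∈ HomXY_HC H f v₀
  · by_cases h2 : v ∈ HomXY_HC H f v₀
    · rw [if_pos h1, if_pos h2, if_pos h1]
      ring
    · rw [if_pos h1, if_neg h2, if_pos h1]
      have e1 : z u = z v := by
        rcases k1 with k1 | k1
        · exact k1
        · exact absurd (k1.1 h1) h2
      have e2 : z u = z w := by
        rcases k3 with k3 | k3
        · exact k3
        · rcases k2 with k2 | k2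
          · exact e1.trans k2
          · exact absurd (k2.2 (k3.1 h1)) h2
      rw [← e1, ← e2]
      ring
  · by_cases h2 : v ∈ HomXY_HC H f v₀
    · rw [if_neg h1, if_pos h2, if_neg h1]
      have e1 : z u = z v := by
        rcases k1 with k1 | k1
        · exact k1
        · exact absurd (k1.2 h2) h1
      have e2 : z v = z w := by
        rcases k2 with k2 | k2
        · exact k2
        · rcases k3 with k3 | k3
          · exact e1.symm.trans k3
          · exact absurd (k3.2 (k2.1 h2)) h1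
      rw [← e2]
      ring
    · rw [if_neg h1, if_neg h2, if_neg h1]
      ring

private theorem HomXY_bad_tri {p : ℕ} {f : K.V → ZMod p} {u v w : K.V}
    (h : ({u, v, w} : Finset K.V) ∈ K.faces) (hne : ¬ (f u = f v ∧ f v = f w)) :
    Bad f u v ∧ Bad f v w ∧ Bad f u w := by
  refine ⟨⟨w, h, hne⟩, ⟨u, ?_, ?_⟩, ⟨v, ?_, ?_⟩⟩
  · have h1 : ({v, w, u} : Finset K.V) = {u, v, w} := by
      ext x
      simp only [Finset.mem_insert, Finset.mem_singleton]
      tauto
    rw [h1]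
    exact h
  · rintro ⟨h1, h2⟩
    exact hne ⟨(h1.trans h2).symm, h1⟩
  · have h1 : ({u, w, v} : Finset K.V) = {u, v, w} := by
      ext x
      simp only [Finset.mem_insert, Finset.mem_singleton]
      tauto
    rw [h1]
    exact h
  · rintro ⟨h1, h2⟩
    exact hne ⟨h1.trans h2, h2.symm⟩

theorem exists_hom_xy (hc : Connected K) (hs : SimplyConn K) (p : ℕ) [Fact p.Prime]
    (H : Subgroup K.Γ) (f : K.V → ZMod p) (hf : f ∈ QInv (K := K) p H)
    (v₁ : K.V) (g' : K.Γ) (hg' : g' ∈ H) (hne' : f (g' • v₁) ≠ f v₁)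
    (z : K.V → ZMod p) (hz : z ∈ QInv (K := K) p H) (hzb : ∀ u v : K.V, Bad f u v → z u = z v)
    (v₀ : K.V) (g : K.Γ) (hg : g ∈ H) (hj : Relation.ReflTransGen (Good f) v₀ (g • v₀))
    (hne : z (g • v₀) ≠ z v₀)
    (G : Type) [Group G] (x y : Multiplicative (ZMod p) →* G) :
    ∃ ψ : H →* G, (∀ a, x a ∈ ψ.range) ∧ ∀ a, y a ∈ ψ.range := by
  classical
  obtain ⟨χf, hχf⟩ := hf
  obtain ⟨χz, hχz⟩ := hz
  have hf : f ∈ QInv (K := K) p H := ⟨χf, hχf⟩
  -- the cocycle
  obtain ⟨c1, hc1⟩ : ∃ c1 : K.V → K.V → ZMod p, ∀ u v, c1 u v = HomXY_c1 (HomXY_HC H f v₀) z u v :=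
    ⟨_, fun _ _ => rfl⟩
  have hc1_pos : ∀ u v, u ∈ HomXY_HC H f v₀ → c1 u v = z v - z u := by
    intro u v hu
    rw [hc1, HomXY_c1, if_pos hu]
  have hc1_neg : ∀ u v, u ∉ HomXY_HC H f v₀ → c1 u v = 0 := by
    intro u v hu
    rw [hc1, HomXY_c1, if_neg hu]
  have hc1_bad : ∀ u v, Bad f u v → c1 u v = 0 := by
    intro u v hb
    by_cases hu : u ∈ HomXY_HC H f v₀
    · rw [hc1_pos u v hu, hzb u v hb, sub_self]
    · exact hc1_neg u v hu
  have hc1_add : ∀ u v w : K.V, ({u, v, w} : Finset K.V) ∈ K.faces →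
      c1 u v + c1 v w = c1 u w := by
    intro u v w h
    rw [hc1, hc1, hc1]
    exact HomXY_c1_add hf v₀ z hzb h
  have hc1_smul : ∀ g ∈ H, ∀ u v : K.V, c1 (g • u) (g • v) = c1 u v := by
    intro g hg u v
    by_cases hu : u ∈ HomXY_HC H f v₀
    · rw [hc1_pos _ _ ((HomXY_mem_smul g hg u).2 hu), hc1_pos _ _ hu, hχz g hg, hχz g hg]
      ring
    · rw [hc1_neg _ _ (fun h => hu ((HomXY_mem_smul g hg u).1 h)), hc1_neg _ _ hu]
  obtain ⟨c, hcdef⟩ : ∃ c : K.V → K.V → G, ∀ u v, c u v =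
      x (Multiplicative.ofAdd (c1 u v)) * y (Multiplicative.ofAdd (f v - f u)) :=
    ⟨_, fun _ _ => rfl⟩
  have hcoc : ∀ u v w : K.V, ({u, v, w} : Finset K.V) ∈ K.faces → c u v * c v w = c u w := by
    intro u v w h
    rw [hcdef, hcdef, hcdef]
    by_cases hcst : f u = f v ∧ f v = f w
    · obtain ⟨e1, e2⟩ := hcst
      rw [← hc1_add u v w h, ← e2, ← e1, sub_self, ofAdd_zero, map_one, mul_one, mul_one, mul_one,
        ofAdd_add, map_mul]
    · obtain ⟨b1, b2, b3⟩ := HomXY_bad_tri h hcst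
      rw [hc1_bad _ _ b1, hc1_bad _ _ b2, hc1_bad _ _ b3, ofAdd_zero, map_one, one_mul, one_mul,
        one_mul, ← map_mul, ← ofAdd_add]
      congr 2
      ring
  obtain ⟨F', hF'⟩ := hs G c hcoc
  obtain ⟨F, hFdef⟩ : ∃ F : K.V → G, ∀ v, F v = (F' v₀)⁻¹ * F' v := ⟨_, fun _ => rfl⟩
  have hF0 : F v₀ = 1 := by rw [hFdef, inv_mul_cancel]
  have hF : ∀ u v : K.V, ({u, v} : Finset K.V) ∈ K.faces → F v = F u * c u v := by
    intro u v h
    rw [hFdef, hFdef, hF' u v h]
    group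
  have hcs : ∀ g ∈ H, ∀ u v : K.V, c (g • u) (g • v) = c u v := by
    intro g hg u v
    rw [hcdef, hcdef, hc1_smul g hg, hχf g hg, hχf g hg]
    congr 3
    ring
  have hFs : ∀ g ∈ H, ∀ v : K.V, F (g • v) = F (g • v₀) * F v := by
    intro g hg v
    have h1 := hc.2 v₀ v
    induction h1 with
    | refl => rw [hF0, mul_one]
    | tail hpp h2 ih =>
      rename_i u w
      have h3 : ({g • u, g • w} : Finset K.V) ∈ K.faces := ed_inv g (u, w) h2
      rw [hF _ _ h3, hcs g hg, ih, mul_assoc, ← hF _ _ h2]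
  obtain ⟨ψ, hψ⟩ : ∃ ψ : H →* G, ∀ h : H, ψ h = F ((h : K.Γ) • v₀) := by
    refine ⟨MonoidHom.mk' (fun h : H => F ((h : K.Γ) • v₀)) ?_, fun _ => rfl⟩
    intro a b
    change F (((a * b : H) : K.Γ) • v₀) = _
    rw [Subgroup.coe_mul, mul_smul, hFs _ a.2]
  have hψR : ∀ h ∈ H, F (h • v₀) ∈ ψ.range := by
    intro h hh
    exact ⟨⟨h, hh⟩, hψ _⟩
  -- values on the component
  have hC : ∀ v, Relation.ReflTransGen (Good f) v₀ v →
      F v = x (Multiplicative.ofAdd (z v - z v₀)) := by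
    intro v hv
    induction hv with
    | refl => rw [hF0, sub_self, ofAdd_zero, map_one]
    | tail h1 h2 ih =>
      rename_i u w
      have h3 : u ∈ HomXY_HC H f v₀ := ⟨1, H.one_mem, u, h1, (one_smul _ u).symm⟩
      rw [hF _ _ h2.1, ih, hcdef, hc1_pos _ _ h3, HomXY_good_eq h2, sub_self, ofAdd_zero, map_one,
        mul_one, ← map_mul, ← ofAdd_add]
      congr 2
      ring
  have hxR : ∀ a, x a ∈ ψ.range := by
    refine HomXY_range_all x ψ.range (z (g • v₀) - z v₀) (sub_ne_zero.2 hne) ?_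
    rw [← hC _ hj]
    exact hψR g hg
  have hHC : ∀ v ∈ HomXY_HC H f v₀, F v ∈ ψ.range := by
    rintro v ⟨h, hh, u, hu, rfl⟩
    rw [hFs h hh, hC u hu]
    exact ψ.range.mul_mem (hψR h hh) (hxR _)
  have hall : ∀ v, ∃ a ∈ ψ.range, F v = a * y (Multiplicative.ofAdd (f v - f v₀)) := by
    intro v
    have h1 := hc.2 v₀ v
    induction h1 with
    | refl => exact ⟨1, ψ.range.one_mem, by rw [hF0, sub_self, ofAdd_zero, map_one, one_mul]⟩
    | tail hpp h2 ih =>
      rename_i u w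
      obtain ⟨a, ha, hau⟩ := ih
      by_cases hz0 : c1 u w = 0
      · refine ⟨a, ha, ?_⟩
        rw [hF _ _ h2, hcdef, hz0, ofAdd_zero, map_one, one_mul, hau, mul_assoc, ← map_mul,
          ← ofAdd_add]
        congr 3
        ring
      · have hu : u ∈ HomXY_HC H f v₀ := by
          by_contra hu
          exact hz0 (hc1_neg _ _ hu)
        have hg2 : Good f u w := ⟨h2, fun hb => hz0 (hc1_bad _ _ hb)⟩
        have hw := (HomXY_mem_good hf hg2).1 hu
        have hy : y (Multiplicative.ofAdd (f w - f v₀)) ∈ ψ.range := by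
          rw [← HomXY_good_eq hg2]
          have h3 : y (Multiplicative.ofAdd (f u - f v₀)) = a⁻¹ * F u := by
            rw [hau]
            group
          rw [h3]
          exact ψ.range.mul_mem (ψ.range.inv_mem ha) (hHC u hu)
        refine ⟨F w * (y (Multiplicative.ofAdd (f w - f v₀)))⁻¹,
          ψ.range.mul_mem (hHC w hw) (ψ.range.inv_mem hy), ?_⟩
        group
  refine ⟨ψ, hxR, ?_⟩
  have hs0 : χf g' ≠ 0 := by
    intro h0
    apply hne'
    rw [hχf g' hg', h0, add_zero]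
  refine HomXY_range_all y ψ.range (χf g') hs0 ?_
  obtain ⟨a, ha, hau⟩ := hall (g' • v₀)
  rw [hχf g' hg', add_sub_cancel_left] at hau
  have h3 : y (Multiplicative.ofAdd (χf g')) = a⁻¹ * F (g' • v₀) := by
    rw [hau]
    group
  rw [h3]
  exact ψ.range.mul_mem (ψ.range.inv_mem ha) (hψR g' hg')

end Pool.Agent.ChL
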