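import Pool.Agent.ChL.Defs

/-!
# Large groups

Let `G = FreeGroup (ZMod p) ⋊ Multiplicative (ZMod p)`, where `a` acts by the automorphism
`of i ↦ of (a + i)` (`FreeGroup.freeGroupCongr` of the translation), `x = inr` and let `y` be the conjugate of `x` by
`inl (of 0)`: `y a = inl (of 0) * inr a * (inl (of 0))⁻¹`.  The range of `ψ` contains
`y a * (x a)⁻¹ = inl (of 0 * (of a)⁻¹)`.  Let `H'` be the preimage of the range of `inl` (the kernel of `rightHom`)
under `ψ`, a subgroup of finite index of `H`.  We get a homomorphism `H' → FreeGroup (ZMod p)` whose range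
contains all `of 0 * (of a)⁻¹`.  Compose with `FreeGroup (ZMod p) → FreeGroup (Fin 2)`, `of 0 ↦ 1`,
`of 1 ↦ of 0`, `of 2 ↦ of 1`, the other generators to `1` (`0, 1, 2` are different in `ZMod p` because
`p ≥ 3`): it is surjective.  `H'` (mapped to `Δ`) has finite index in `Δ`.
-/

namespace Pool.Agent.ChL

/-- The translation action on the free group. -/
private def largeGrp_act (p : ℕ) :
    Multiplicative (ZMod p) →* MulAut (FreeGroup (ZMod p)) where
  toFun a := FreeGroup.freeGroupCongr (Equiv.addLeft (Multiplicative.toAdd a))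
  map_one' := by
    apply MulEquiv.toMonoidHom_injective
    apply FreeGroup.ext_hom
    intro i
    simp
  map_mul' := by
    intro a b
    apply MulEquiv.toMonoidHom_injective
    apply FreeGroup.ext_hom
    intro i
    simp [add_assoc]

private theorem largeGrp_act_of (p : ℕ) (a : Multiplicative (ZMod p)) (i : ZMod p) :
    largeGrp_act p a (FreeGroup.of i) = FreeGroup.of (Multiplicative.toAdd a + i) := by
  simp [largeGrp_act]

/-- The map to the free group of rank 2. -/
private def largeGrp_f (p : ℕ) : FreeGroup (ZMod p) →* FreeGroup (Fin 2) :=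
  FreeGroup.lift fun i => if i = 1 then FreeGroup.of 0 else if i = 2 then FreeGroup.of 1 else 1

theorem large_of_homs (p : ℕ) [Fact p.Prime] (hp : p ≠ 2) (Δ : Type) [Group Δ]
    (H : Subgroup Δ) (hH : H.FiniteIndex)
    (h : ∀ (G : Type) [Group G] (x y : Multiplicative (ZMod p) →* G),
      ∃ ψ : H →* G, (∀ a, x a ∈ ψ.range) ∧ ∀ a, y a ∈ ψ.range) : Large Δ := by
  classical
  have hpp : p.Prime := Fact.out
  have hp3 : 3 ≤ p := by
    have := hpp.two_le
    omega
  let N := FreeGroup (ZMod p)
  let φ := largeGrp_act p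
  let G := N ⋊[φ] Multiplicative (ZMod p)
  let x : Multiplicative (ZMod p) →* G := SemidirectProduct.inr
  let c : G := SemidirectProduct.inl (FreeGroup.of 0)
  let y : Multiplicative (ZMod p) →* G := (MulAut.conj c).toMonoidHom.comp x
  obtain ⟨ψ, hx, hy⟩ := h G x y
  let r : H →* Multiplicative (ZMod p) := SemidirectProduct.rightHom.comp ψ
  let K : Subgroup H := r.ker
  have hKr : ∀ k : K, (ψ (k : H)).right = 1 := by
    intro k
    have h1 := k.2
    exact MonoidHom.mem_ker.1 h1
  let L : K →* N :=
    { toFun := fun k => (ψ (k : H)).left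
      map_one' := by simp
      map_mul' := by
        intro a b
        have h1 : (ψ ((a * b : K) : H)).left =
            (ψ (a : H)).left * φ (ψ (a : H)).right (ψ (b : H)).left := by
          rw [Subgroup.coe_mul, map_mul]
          rfl
        rw [h1, hKr a, map_one]
        rfl }
  have hL : ∀ a : ZMod p, ∃ k : K, L k = FreeGroup.of 0 * (FreeGroup.of a)⁻¹ := by
    intro a
    have h1 := ψ.range.mul_mem (hy (Multiplicative.ofAdd a)) (ψ.range.inv_mem (hx (Multiplicative.ofAdd a)))
    obtain ⟨g, hg⟩ := h1
    have h2 : y (Multiplicative.ofAdd a) * (x (Multiplicative.ofAdd a))⁻¹ =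
        SemidirectProduct.inl (FreeGroup.of 0 * (FreeGroup.of a)⁻¹) := by
      have h3 : y (Multiplicative.ofAdd a) = c * x (Multiplicative.ofAdd a) * c⁻¹ := rfl
      have h4 : x (Multiplicative.ofAdd a) * c⁻¹ * (x (Multiplicative.ofAdd a))⁻¹ =
          SemidirectProduct.inl ((FreeGroup.of a)⁻¹) := by
        have h5 := SemidirectProduct.inl_aut (φ := φ) (Multiplicative.ofAdd a) ((FreeGroup.of (0 : ZMod p))⁻¹)
        rw [map_inv, largeGrp_act_of] at h5
        simp only [toAdd_ofAdd, add_zero] at h5
        rw [h5]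
        simp [x, c]
      rw [h3, map_mul, ← h4]
      group
      rfl
    have h6 : g ∈ K := by
      change g ∈ r.ker
      rw [MonoidHom.mem_ker]
      change SemidirectProduct.rightHom (ψ g) = 1
      rw [hg, h2]
      simp
    refine ⟨⟨g, h6⟩, ?_⟩
    change (ψ g).left = _
    rw [hg, h2]
    simp
  let F : K →* FreeGroup (Fin 2) := (largeGrp_f p).comp L
  have h01 : (1 : ZMod p) ≠ 0 := one_ne_zero
  have h02 : (2 : ZMod p) ≠ 0 := by
    intro h3
    have h4 : ((2 : ℕ) : ZMod p) = 0 := by exact_mod_cast h3
    rw [ZMod.natCast_eq_zero_iff] at h4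
    have := Nat.le_of_dvd (by norm_num) h4
    omega
  have h12 : (2 : ZMod p) ≠ 1 := by
    intro h3
    apply h01
    have h4 : (2 : ZMod p) - 1 = 1 := by ring
    rw [← h4, h3, sub_self]
  have hF : Function.Surjective F := by
    rw [← MonoidHom.range_eq_top, eq_top_iff]
    have hgen : Subgroup.closure (Set.range (FreeGroup.of : Fin 2 → FreeGroup (Fin 2))) = ⊤ :=
      FreeGroup.closure_range_of _
    rw [← hgen, Subgroup.closure_le]
    rintro _ ⟨i, rfl⟩
    have key : ∀ a : ZMod p, (largeGrp_f p (FreeGroup.of a)) ∈ F.range := by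
      intro a
      obtain ⟨k, hk⟩ := hL a
      have h7 : F k = (largeGrp_f p (FreeGroup.of a))⁻¹ := by
        change largeGrp_f p (L k) = _
        rw [hk, map_mul, map_inv]
        have h8 : largeGrp_f p (FreeGroup.of 0) = 1 := by
          simp [largeGrp_f, h01.symm, h02.symm]
        rw [h8, one_mul]
      have h9 : (largeGrp_f p (FreeGroup.of a))⁻¹ ∈ F.range := ⟨k, h7⟩
      exact inv_mem_iff.1 h9
    fin_cases i
    · have := key 1
      simpa [largeGrp_f] using this
    · have := key 2
      simpa [largeGrp_f, h12] using this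
  let H' : Subgroup Δ := K.map H.subtype
  have hfin : H'.FiniteIndex := by
    have : NeZero p := ⟨hpp.ne_zero⟩
    have : Finite (Multiplicative (ZMod p)) := inferInstance
    have : K.FiniteIndex := Subgroup.finiteIndex_ker r
    refine ⟨?_⟩
    change (K.map H.subtype).index ≠ 0
    rw [Subgroup.index_map_subtype]
    exact mul_ne_zero (Subgroup.FiniteIndex.index_ne_zero) hH.index_ne_zero
  let e : K ≃* H' := Subgroup.equivMapOfInjective K H.subtype H.subtype_injective
  exact ⟨H', hfin, F.comp e.symm.toMonoidHom, hF.comp e.symm.surjective⟩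

end Pool.Agent.ChL
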