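import Pool.Agent.ChL.PGrad
import Pool.Agent.ChL.Iter
import Pool.Agent.ChL.HomXY
import Pool.Agent.ChL.LargeGrp

/-!
# Closed affine 4-manifolds with non-zero Euler characteristic have large fundamental groups
-/

namespace Pool.Agent.ChL

open Matrix Pool.Agent.ChP Pool.Agent.ChS
open scoped Pointwise

theorem h1Zero_of_simplyConn {n : ℕ} {K : AffineTriangulation n} (hs : SimplyConn K) :
    H1Zero K := by
  intro c hc
  obtain ⟨f, hf⟩ := hs (Multiplicative ℝ) (fun u v => Multiplicative.ofAdd (c u v))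
    (fun u v w h => by rw [← ofAdd_add, hc u v w h])
  refine ⟨fun v => Multiplicative.toAdd (f v), fun u v h => ?_⟩
  have h1 := congrArg Multiplicative.toAdd (hf u v h)
  rw [toAdd_mul, toAdd_inv, toAdd_ofAdd] at h1
  rw [h1]
  ring

/-- Linear growth of the first cohomology with coefficients in `ZMod p` implies largeness. -/
theorem large_of_gradient {n : ℕ} {K : AffineTriangulation n} (hc : Connected K)
    (hs : SimplyConn K) (p : ℕ) [Fact p.Prime] (hp : p ≠ 2) (Γ₀ : Subgroup K.Γ)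
    (hΓ₀ : Γ₀.FiniteIndex)
    (hgr : ∀ H : Subgroup K.Γ, H ≤ Γ₀ → H.FiniteIndex →
      5 * H.index + 6 ≤ 6 * Module.finrank (ZMod p) (HomR (ZMod p) H)) : Large K.Γ := by
  obtain ⟨H, f, hH, hf, ⟨g', hg', v₁, hne'⟩, hbad⟩ := exists_small hc hs p Γ₀ hΓ₀ hgr
  obtain ⟨z, hz, hzb, v₀, g, hg, hj, hne⟩ := exists_loop hc p H hH f hf hbad
  exact large_of_homs p hp K.Γ H hH fun G _ x y =>
    exists_hom_xy hc hs p H f hf v₁ g' hg' hne' z hz hzb v₀ g hg hj hne G x y

/-- A closed affine 4-manifold with non-zero Euler characteristic has a large fundamental group. -/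
theorem final_large (K : AffineTriangulation 4) (hc : Connected K) (hs : SimplyConn K)
    (hχ : K.eulerChar ≠ 0) : Large K.Γ := by
  obtain ⟨p, hp, Γ₀, hp2, hΓ₀, hgr⟩ := exists_p_gradient K hc (h1Zero_of_simplyConn hs) hχ
  exact large_of_gradient hc hs p hp2 Γ₀ hΓ₀ hgr

end Pool.Agent.ChL
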