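import Pool.Agent.ChL.Defs
import Pool.Agent.ChS.FGGam

/-!
# The common kernel of the homomorphisms to `ZMod p`

`H` is finitely generated (`gamma_fg`, Schreier), so there are finitely many homomorphisms `H → ZMod p`, and
`Fr p H` is the intersection of their kernels, which have index at most `p` in `H`.  It is not equal to `H`
if there is a non-zero homomorphism.
-/

namespace Pool.Agent.ChL

open Matrix Pool.Agent.ChP Pool.Agent.ChS
open scoped Pointwise

private theorem Frat_one {F : Type*} [CommRing F] {H : Type*} [Group H] {f : H → F}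
    (hf : f ∈ HomR F H) : f 1 = 0 := by
  have h1 := hf 1 1
  rw [mul_one] at h1
  have h3 : f 1 + f 1 = f 1 + 0 := by rw [← h1, add_zero]
  exact add_left_cancel h3

private theorem Frat_inv {F : Type*} [CommRing F] {H : Type*} [Group H] {f : H → F}
    (hf : f ∈ HomR F H) (a : H) : f a⁻¹ = - f a := by
  have h4 := hf a a⁻¹
  rw [mul_inv_cancel, Frat_one hf] at h4
  exact (neg_eq_of_add_eq_zero_right h4.symm).symm

theorem fr_le (p : ℕ) {G : Type*} [Group G] (H : Subgroup G) : Fr p H ≤ H := by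
  rintro g ⟨hg, _⟩
  exact hg

theorem fr_comm (p : ℕ) {G : Type*} [Group G] (H : Subgroup G) (g h : G) (hg : g ∈ H)
    (hh : h ∈ H) : g * h * (h * g)⁻¹ ∈ Fr p H := by
  refine ⟨H.mul_mem (H.mul_mem hg hh) (H.inv_mem (H.mul_mem hh hg)), fun χ hχ => ?_⟩
  have h1 : (⟨g * h * (h * g)⁻¹, H.mul_mem (H.mul_mem hg hh) (H.inv_mem (H.mul_mem hh hg))⟩ : H) =
      (⟨g, hg⟩ * ⟨h, hh⟩) * (⟨h, hh⟩ * ⟨g, hg⟩)⁻¹ := rfl
  rw [h1, hχ, Frat_inv hχ, hχ, hχ]
  ring

theorem fr_conj (p : ℕ) {G : Type*} [Group G] (H : Subgroup G) (g h : G) (hg : g ∈ H)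
    (hh : h ∈ Fr p H) : g * h * g⁻¹ ∈ Fr p H := by
  obtain ⟨hH, hh'⟩ := hh
  refine ⟨H.mul_mem (H.mul_mem hg hH) (H.inv_mem hg), fun χ hχ => ?_⟩
  have h1 : (⟨g * h * g⁻¹, H.mul_mem (H.mul_mem hg hH) (H.inv_mem hg)⟩ : H) =
      (⟨g, hg⟩ * ⟨h, hH⟩) * (⟨g, hg⟩)⁻¹ := rfl
  rw [h1, hχ, Frat_inv hχ, hχ, hh' χ hχ]
  ring

private theorem Frat_finite (p : ℕ) [Fact p.Prime] {H : Type*} [Group H] (hH : Group.FG H) :
    Finite (HomR (ZMod p) H) := by
  obtain ⟨S, hS⟩ := hH.out
  have hinj : Function.Injective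
      (fun (χ : HomR (ZMod p) H) (s : (S : Set H)) => χ.1 s.1) := by
    intro χ ψ h
    apply Subtype.ext
    funext x
    have hx : x ∈ Subgroup.closure (S : Set H) := by
      rw [hS]
      trivial
    induction hx using Subgroup.closure_induction with
    | mem x hx => exact congrFun h ⟨x, hx⟩
    | one => rw [Frat_one χ.2, Frat_one ψ.2]
    | mul x y _ _ h1 h2 => rw [χ.2, ψ.2, h1, h2]
    | inv x _ h1 => rw [Frat_inv χ.2, Frat_inv ψ.2, h1]
  exact Finite.of_injective _ hinj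

private theorem Frat_rel (p : ℕ) [Fact p.Prime] {G : Type*} [Group G] (hG : Group.FG G)
    (H : Subgroup G) (hH : H.FiniteIndex) : (Fr p H).relIndex H ≠ 0 := by
  have hHfg : Group.FG H := Subgroup.fg_of_index_ne_zero H
  haveI hfin : Finite (HomR (ZMod p) H) := Frat_finite p hHfg
  let Φ : H →* Multiplicative (HomR (ZMod p) H → ZMod p) :=
    { toFun := fun g => Multiplicative.ofAdd (fun χ => χ.1 g)
      map_one' := by
        rw [ofAdd_eq_one]
        funext χ
        exact Frat_one χ.2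
      map_mul' := by
        intro x y
        rw [← ofAdd_add]
        congr 1
        funext χ
        exact χ.2 x y }
  haveI : Finite (Multiplicative (HomR (ZMod p) H → ZMod p)) :=
    inferInstanceAs (Finite (HomR (ZMod p) H → ZMod p))
  have h1 : (Fr p H).subgroupOf H = Φ.ker := by
    ext x
    rw [Subgroup.mem_subgroupOf, MonoidHom.mem_ker]
    constructor
    · rintro ⟨hx, hx'⟩
      change Multiplicative.ofAdd (fun χ : HomR (ZMod p) H => χ.1 x) = 1
      rw [ofAdd_eq_one]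
      funext χ
      exact hx' χ.1 χ.2
    · intro hx
      change Multiplicative.ofAdd (fun χ : HomR (ZMod p) H => χ.1 x) = 1 at hx
      rw [ofAdd_eq_one] at hx
      refine ⟨x.2, fun χ hχ => ?_⟩
      exact congrFun hx ⟨χ, hχ⟩
  have h2 : Φ.ker.FiniteIndex := inferInstance
  rw [Subgroup.relIndex, h1]
  exact h2.index_ne_zero

theorem fr_finiteIndex (p : ℕ) [Fact p.Prime] {G : Type*} [Group G] (hG : Group.FG G)
    (H : Subgroup G) (hH : H.FiniteIndex) : (Fr p H).FiniteIndex := by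
  refine ⟨?_⟩
  rw [← Subgroup.relIndex_mul_index (fr_le p H)]
  exact mul_ne_zero (Frat_rel p hG H hH) hH.index_ne_zero

theorem fr_index (p : ℕ) [Fact p.Prime] {G : Type*} [Group G] (hG : Group.FG G)
    (H : Subgroup G) (hH : H.FiniteIndex)
    (h : 0 < Module.finrank (ZMod p) (HomR (ZMod p) H)) : 2 * H.index ≤ (Fr p H).index := by
  rw [← Subgroup.relIndex_mul_index (fr_le p H)]
  refine Nat.mul_le_mul_right _ ?_
  have h1 : (Fr p H).relIndex H ≠ 1 := by
    intro h1
    rw [Subgroup.relIndex_eq_one] at h1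
    haveI : Nontrivial (HomR (ZMod p) H) := Module.nontrivial_of_finrank_pos h
    obtain ⟨χ, hχ⟩ := exists_ne (0 : HomR (ZMod p) H)
    apply hχ
    apply Subtype.ext
    funext x
    obtain ⟨_, hx⟩ := h1 x.2
    exact hx χ.1 χ.2
  have h2 := Frat_rel p hG H hH
  omega

variable {n : ℕ} {K : AffineTriangulation n}

theorem qInv_fr (hV : Nonempty K.V) (p : ℕ) (H : Subgroup K.Γ) (f : K.V → ZMod p)
    (hf : f ∈ QInv (K := K) p H) : f ∈ Inv (K := K) p (Fr p H) := by
  obtain ⟨χ, hχ⟩ := hf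
  obtain ⟨v₀⟩ := hV
  rintro g ⟨hg, hg'⟩ v
  have h1 : (fun x : H => χ x.1) ∈ HomR (ZMod p) H := by
    intro x y
    have h2 := hχ (x.1 * y.1) (H.mul_mem x.2 y.2) v₀
    rw [mul_smul, hχ x.1 x.2, hχ y.1 y.2] at h2
    have h3 : f v₀ + χ (x.1 * y.1) = f v₀ + (χ x.1 + χ y.1) := by
      rw [← h2]
      ring
    exact add_left_cancel h3
  have h4 := hg' _ h1
  have h5 : χ g = 0 := h4
  rw [hχ g hg, h5, add_zero]

end Pool.Agent.ChL
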