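import Pool.Agent.ChL.Defs

/-!
# Crossed homomorphisms for trivial actions over finite fields

With the trivial action, `Z1R k` is the space of homomorphisms of `H` into the additive group of
alternating matrices, of dimension `6 * finrank_k (HomR k H)` (`2 ≠ 0`).  Let `H` be finitely generated
and `p` the characteristic of `k`, `e = [k : ZMod p]`.  As an additive group `k = (ZMod p)^e`, so
`card (HomR k H) = card (HomR (ZMod p) H) ^ e`, and `card (HomR k H) = (p^e)^(finrank_k)`,
`card (HomR (ZMod p) H) = p^(finrank)`: the two dimensions coincide.  (Or: `HomR k H` is the base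
change of `HomR (ZMod p) H`.)
-/

namespace Pool.Agent.ChL

open Matrix

private theorem homFin_one {R : Type*} [CommRing R] {H : Type*} [Group H] {f : H → R}
    (hf : f ∈ HomR R H) : f 1 = 0 := by
  have h1 : f (1 * 1) = f 1 + f 1 := hf 1 1
  rw [mul_one] at h1
  have h3 : f 1 + f 1 = f 1 + 0 := by rw [← h1, add_zero]
  exact add_left_cancel h3

private theorem homFin_inv {R : Type*} [CommRing R] {H : Type*} [Group H] {f : H → R}
    (hf : f ∈ HomR R H) (g : H) : f g⁻¹ = - f g := by
  have h1 : f (g * g⁻¹) = f g + f g⁻¹ := hf g g⁻¹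
  rw [mul_inv_cancel, homFin_one hf] at h1
  exact (neg_eq_of_add_eq_zero_right h1.symm).symm

/-- Restriction to a finite generating set. -/
private def homFinRes (R : Type*) [CommRing R] {H : Type*} [Group H] (S : Finset H) :
    HomR R H →ₗ[R] (S → R) where
  toFun f s := (f : H → R) s
  map_add' _ _ := rfl
  map_smul' _ _ := rfl

private theorem homFinRes_injective (R : Type*) [CommRing R] {H : Type*} [Group H]
    (S : Finset H) (hS : Subgroup.closure (S : Set H) = ⊤) :
    Function.Injective (homFinRes R S) := by
  rw [injective_iff_map_eq_zero]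
  intro f hf
  apply Subtype.ext
  funext g
  have hg : g ∈ Subgroup.closure (S : Set H) := by rw [hS]; exact Subgroup.mem_top g
  have hfm : (f : H → R) ∈ HomR R H := f.2
  show (f : H → R) g = 0
  induction hg using Subgroup.closure_induction with
  | mem x hx => exact congrFun hf ⟨x, hx⟩
  | one => exact homFin_one hfm
  | mul x y _ _ hx hy => rw [show (f : H → R) (x * y) = (f : H → R) x + (f : H → R) y from hfm x y, hx, hy, add_zero]
  | inv x _ hx => rw [homFin_inv hfm, hx, neg_zero]

private theorem homFin_finite (k : Type*) [Field k] {H : Type*} [Group H] (hH : Group.FG H) :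
    Module.Finite k (HomR k H) := by
  obtain ⟨S, hS⟩ := Group.fg_def.mp hH
  exact Module.Finite.of_injective (homFinRes k S) (homFinRes_injective k S hS)

/-- The alternating matrix with given entries above the diagonal. -/
private def homFinMat {R : Type*} [CommRing R] (x : Fin 6 → R) : Matrix (Fin 4) (Fin 4) R :=
  !![0, x 0, x 1, x 2; -x 0, 0, x 3, x 4; -x 1, -x 3, 0, x 5; -x 2, -x 4, -x 5, 0]

private theorem homFinMat_transpose {R : Type*} [CommRing R] (x : Fin 6 → R) :
    (homFinMat x)ᵀ = - homFinMat x := by
  ext i j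
  fin_cases i <;> fin_cases j <;> simp [homFinMat]

private theorem homFinMat_add {R : Type*} [CommRing R] (x y : Fin 6 → R) :
    homFinMat (x + y) = homFinMat x + homFinMat y := by
  ext i j
  fin_cases i <;> fin_cases j <;> simp [homFinMat] <;> ring

private theorem homFinMat_eq {k : Type*} [Field k] (h2 : (2 : k) ≠ 0)
    {M : Matrix (Fin 4) (Fin 4) k} (hM : Mᵀ = -M) :
    homFinMat ![M 0 1, M 0 2, M 0 3, M 1 2, M 1 3, M 2 3] = M := by
  have hij : ∀ i j, M j i = - M i j := by
    intro i j
    have := congrFun (congrFun hM i) j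
    rwa [Matrix.transpose_apply, Matrix.neg_apply] at this
  have hd : ∀ i, M i i = 0 := by
    intro i
    have h1 := hij i i
    have h3 : (2 : k) * M i i = 0 := by
      rw [two_mul]
      nth_rewrite 1 [h1]
      exact neg_add_cancel _
    exact (mul_eq_zero.mp h3).resolve_left h2
  ext i j
  fin_cases i <;> fin_cases j <;> simp [homFinMat, hd]
  · exact (hij 0 1).symm
  · exact (hij 0 2).symm
  · exact (hij 1 2).symm
  · exact (hij 0 3).symm
  · exact (hij 1 3).symm
  · exact (hij 2 3).symm

/-- The six entries. -/
private def homFinEquiv (k : Type*) [Field k] (h2 : (2 : k) ≠ 0) {H : Type*} [Group H] :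
    Z1R k (fun _ : H => (1 : k)) (fun _ => 1) ≃ₗ[k] (Fin 6 → HomR k H) where
  toFun z := fun i =>
    ⟨fun g => (![(z : H → Matrix (Fin 4) (Fin 4) k) g 0 1, (z : H → Matrix (Fin 4) (Fin 4) k) g 0 2,
      (z : H → Matrix (Fin 4) (Fin 4) k) g 0 3, (z : H → Matrix (Fin 4) (Fin 4) k) g 1 2,
      (z : H → Matrix (Fin 4) (Fin 4) k) g 1 3, (z : H → Matrix (Fin 4) (Fin 4) k) g 2 3] :
      Fin 6 → k) i, by
      intro g h
      have h1 := z.2.2 g h
      simp only [Matrix.transpose_one, Matrix.one_mul, Matrix.mul_one, one_smul] at h1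
      simp only [h1, Matrix.add_apply]
      fin_cases i <;> rfl⟩
  map_add' a b := by
    funext i
    apply Subtype.ext
    funext g
    fin_cases i <;> rfl
  map_smul' c a := by
    funext i
    apply Subtype.ext
    funext g
    fin_cases i <;> rfl
  invFun f := ⟨fun g => homFinMat (fun i => (f i : H → k) g), by
    refine ⟨fun g => homFinMat_transpose _, fun g h => ?_⟩
    simp only [Matrix.transpose_one, Matrix.one_mul, Matrix.mul_one, one_smul]
    rw [← homFinMat_add]
    congr 1
    funext i
    exact (f i).2 g h⟩
  left_inv z := by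
    apply Subtype.ext
    funext g
    exact homFinMat_eq h2 (z.2.1 g)
  right_inv f := by
    funext i
    apply Subtype.ext
    funext g
    fin_cases i <;> rfl

theorem z1R_trivial_finrank (k : Type) [Field k] [Finite k] (h2 : (2 : k) ≠ 0) {H : Type*}
    [Group H] (hH : Group.FG H) :
    Module.finrank k (Z1R k (fun _ : H => (1 : k)) (fun _ => 1)) =
      6 * Module.finrank k (HomR k H) := by
  haveI := homFin_finite k hH
  rw [LinearEquiv.finrank_eq (homFinEquiv k h2), Module.finrank_pi_fintype]
  simp

/-- Coordinates of homomorphisms into `k`. -/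
private noncomputable def homFinCoord (k : Type) [Field k] (p : ℕ) [Fact p.Prime]
    [Algebra (ZMod p) k] {n : ℕ} (e : k ≃ₗ[ZMod p] (Fin n → ZMod p)) {H : Type*} [Group H] :
    HomR k H ≃ (Fin n → HomR (ZMod p) H) where
  toFun f := fun i => ⟨fun g => e ((f : H → k) g) i, by
    intro g h
    have h1 : (f : H → k) (g * h) = (f : H → k) g + (f : H → k) h := f.2 g h
    show e ((f : H → k) (g * h)) i = e ((f : H → k) g) i + e ((f : H → k) h) i
    rw [h1, map_add, Pi.add_apply]⟩
  invFun f := ⟨fun g => e.symm (fun i => (f i : H → ZMod p) g), by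
    intro g h
    show e.symm (fun i => (f i : H → ZMod p) (g * h)) =
      e.symm (fun i => (f i : H → ZMod p) g) + e.symm (fun i => (f i : H → ZMod p) h)
    rw [← map_add]
    congr 1
    funext i
    exact (f i).2 g h⟩
  left_inv f := by
    apply Subtype.ext
    funext g
    exact e.symm_apply_apply _
  right_inv f := by
    funext i
    apply Subtype.ext
    funext g
    show e (e.symm (fun i => (f i : H → ZMod p) g)) i = (f i : H → ZMod p) g
    rw [e.apply_symm_apply]

theorem homR_finrank_eq (k : Type) [Field k] [Finite k] (p : ℕ) [Fact p.Prime] [CharP k p]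
    {H : Type*} [Group H] (hH : Group.FG H) :
    Module.finrank k (HomR k H) = Module.finrank (ZMod p) (HomR (ZMod p) H) := by
  letI : Algebra (ZMod p) k := ZMod.algebra k p
  haveI : Module.Finite k (HomR k H) := homFin_finite k hH
  haveI : Module.Finite (ZMod p) (HomR (ZMod p) H) := homFin_finite (ZMod p) hH
  haveI : Module.Finite (ZMod p) k := Module.Finite.of_finite
  have he := Nat.card_congr (homFinCoord k p (Module.finBasis (ZMod p) k).equivFun (H := H))
  have h1 : Nat.card (HomR k H) = Nat.card k ^ Module.finrank k (HomR k H) :=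
    Module.natCard_eq_pow_finrank
  have h2 : Nat.card (HomR (ZMod p) H) = Nat.card (ZMod p) ^ Module.finrank (ZMod p)
      (HomR (ZMod p) H) := Module.natCard_eq_pow_finrank
  have h3 : Nat.card k = Nat.card (ZMod p) ^ Module.finrank (ZMod p) k :=
    Module.natCard_eq_pow_finrank
  rw [Nat.card_fun, h1, h2, h3, Nat.card_fin, ← pow_mul, ← pow_mul, Nat.card_zmod] at he
  have hp : 2 ≤ p := (Fact.out : p.Prime).two_le
  have h4 := Nat.pow_right_injective hp he
  have hpos : 0 < Module.finrank (ZMod p) k := Module.finrank_pos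
  have h5 : Module.finrank (ZMod p) k * Module.finrank k (HomR k H) =
      Module.finrank (ZMod p) k * Module.finrank (ZMod p) (HomR (ZMod p) H) := by
    rw [h4, mul_comm]
  exact Nat.eq_of_mul_eq_mul_left hpos h5

end Pool.Agent.ChL
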