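import Pool.Agent.ChL.Defs

/-!
# Counting orbits

`nOrb H S` is the number of `H`-orbits of elements of `S`.

`orb_finite`: every `H`-orbit is a union of at most `L.relIndex H` orbits of `L`.

`nOrb_index`: if the action is free on `S` then every `H`-orbit of an element of `S` is the union of exactly
`L.relIndex H` orbits of `L`: `x` and `g x`, `g ∈ H`; `g x` and `g' x` are in the same `L`-orbit iff
`L g = L g'`.

`nOrb_le_mul`: choose representatives `y` of the orbits in `R`; every orbit in `S` has a representative in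
the fibre over one of them.

`nOrb_image_le`: the orbit of `π x` is the image under `π` of the orbit of `x`.

`exists_avg`: `∑_b P * nOrb L (Sb b) = ∑_O P * #{b | O ⊆ Sb b} = ∑_O (P - 1) * |B| = (P - 1) * |B| * nOrb L S`
(sum over the orbits `O` in `S`).
-/

namespace Pool.Agent.ChL

section

variable {G X Y : Type*} [Group G] [MulAction G X] [MulAction G Y]

private theorem Orb_mem_iff (H : Subgroup G) (x y : X) :
    y ∈ MulAction.orbit H x ↔ ∃ g ∈ H, g • x = y := by
  constructor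
  · rintro ⟨⟨g, hg⟩, rfl⟩
    exact ⟨g, hg, rfl⟩
  · rintro ⟨g, hg, rfl⟩
    exact ⟨⟨g, hg⟩, rfl⟩

private theorem Orb_eq_iff (H : Subgroup G) (x y : X) :
    (MulAction.orbit H x : Set X) = MulAction.orbit H y ↔ ∃ g ∈ H, g • y = x := by
  rw [MulAction.orbit_eq_iff, Orb_mem_iff]

theorem orb_finite (L H : Subgroup G) (hLH : L ≤ H) (hr : L.relIndex H ≠ 0) (S : Set X)
    (hS : ((fun x => (MulAction.orbit H x : Set X)) '' S).Finite) :
    ((fun x => (MulAction.orbit L x : Set X)) '' S).Finite := by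
  classical
  have hfin : Finite (H ⧸ L.subgroupOf H) := by
    rw [Subgroup.relIndex, Subgroup.index_ne_zero_iff_finite] at hr
    exact hr
  have hA : Finite ↥((fun x => (MulAction.orbit H x : Set X)) '' S) := hS
  have hrep : ∀ O : ↥((fun x => (MulAction.orbit H x : Set X)) '' S),
      ∃ x : X, (MulAction.orbit H x : Set X) = O.1 := by
    rintro ⟨O, x, hx, hO⟩
    exact ⟨x, hO⟩
  choose r hr' using hrep
  have hfr : (Set.range (fun t : (H ⧸ L.subgroupOf H) ×
      ↥((fun x => (MulAction.orbit H x : Set X)) '' S) =>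
        (MulAction.orbit L ((t.1.out : H).1⁻¹ • r t.2) : Set X))).Finite := Set.finite_range _
  refine hfr.subset ?_
  rintro _ ⟨y, hy, rfl⟩
  have hO := hr' ⟨MulAction.orbit H y, y, hy, rfl⟩
  obtain ⟨h, hh, hhy⟩ := (Orb_eq_iff H _ _).1 hO.symm
  refine ⟨((QuotientGroup.mk (⟨h⁻¹, H.inv_mem hh⟩ : H) : H ⧸ L.subgroupOf H),
    ⟨MulAction.orbit H y, y, hy, rfl⟩), ?_⟩
  obtain ⟨l, hl⟩ := QuotientGroup.mk_out_eq_mul (L.subgroupOf H) (⟨h⁻¹, H.inv_mem hh⟩ : H)
  simp only
  rw [Orb_eq_iff, hl]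
  refine ⟨(l.1.1)⁻¹, L.inv_mem l.2, ?_⟩
  refine (congrArg (fun z => (l.1.1 : G)⁻¹ • z) hhy.symm).trans ?_
  simp only [Subgroup.coe_mul, mul_inv_rev, inv_inv, smul_smul]

theorem nOrb_index (L H : Subgroup G) (hLH : L ≤ H) (hr : L.relIndex H ≠ 0) (S : Set X)
    (hS : ((fun x => (MulAction.orbit H x : Set X)) '' S).Finite)
    (hinv : ∀ g ∈ H, ∀ x ∈ S, g • x ∈ S) (hfree : ∀ g ∈ H, ∀ x ∈ S, g • x = x → g = 1) :
    nOrb L S = L.relIndex H * nOrb H S := by
  classical
  have hrep : ∀ O : ↥((fun x => (MulAction.orbit H x : Set X)) '' S),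
      ∃ x ∈ S, (MulAction.orbit H x : Set X) = O.1 := by
    rintro ⟨O, x, hx, hO⟩
    exact ⟨x, hx, hO⟩
  choose r hrS hr' using hrep
  have hmem : ∀ t : (H ⧸ L.subgroupOf H) ×
      ↥((fun x => (MulAction.orbit H x : Set X)) '' S),
      (MulAction.orbit L ((t.1.out : H).1⁻¹ • r t.2) : Set X) ∈
        (fun x => (MulAction.orbit L x : Set X)) '' S := by
    intro t
    exact ⟨_, hinv _ (H.inv_mem (t.1.out : H).2) _ (hrS t.2), rfl⟩
  have hbij : Function.Bijective (fun t : (H ⧸ L.subgroupOf H) ×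
      ↥((fun x => (MulAction.orbit H x : Set X)) '' S) =>
        (⟨(MulAction.orbit L ((t.1.out : H).1⁻¹ • r t.2) : Set X), hmem t⟩ :
          ↥((fun x => (MulAction.orbit L x : Set X)) '' S))) := by
    constructor
    · rintro ⟨q, O⟩ ⟨q', O'⟩ h
      have h1 := congrArg Subtype.val h
      simp only at h1
      obtain ⟨l, hl, hl'⟩ := (Orb_eq_iff L _ _).1 h1
      have h2 : O = O' := by
        apply Subtype.ext
        rw [← hr' O, ← hr' O', Orb_eq_iff]
        refine ⟨(q.out : H).1 * (l * (q'.out : H).1⁻¹),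
          H.mul_mem (q.out : H).2 (H.mul_mem (hLH hl) (H.inv_mem (q'.out : H).2)), ?_⟩
        rw [mul_smul, mul_smul, hl', smul_inv_smul]
      subst h2
      have h3 : (q.out : H).1 * (l * (q'.out : H).1⁻¹) = 1 := by
        apply hfree _ (H.mul_mem (q.out : H).2 (H.mul_mem (hLH hl) (H.inv_mem (q'.out : H).2))) _
          (hrS O)
        rw [mul_smul, mul_smul, hl', smul_inv_smul]
      have h4 : q = q' := by
        rw [← q.out_eq', ← q'.out_eq']
        have h5 : (q.out : H)⁻¹ * (q'.out : H) ∈ L.subgroupOf H := by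
          rw [Subgroup.mem_subgroupOf]
          have h6 : ((q.out : H)⁻¹ * (q'.out : H) : H).1 = l := by
            have h7 : (q.out : H).1 * l = (q'.out : H).1 := by
              rw [← mul_assoc] at h3
              exact mul_inv_eq_one.1 h3
            rw [Subgroup.coe_mul, Subgroup.coe_inv, ← h7, inv_mul_cancel_left]
          rw [h6]
          exact hl
        exact (QuotientGroup.eq).2 h5
      rw [h4]
    · rintro ⟨_, y, hy, rfl⟩
      have hO := hr' ⟨MulAction.orbit H y, y, hy, rfl⟩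
      obtain ⟨h, hh, hhy⟩ := (Orb_eq_iff H _ _).1 hO.symm
      refine ⟨((QuotientGroup.mk (⟨h⁻¹, H.inv_mem hh⟩ : H) : H ⧸ L.subgroupOf H),
        ⟨MulAction.orbit H y, y, hy, rfl⟩), ?_⟩
      obtain ⟨l, hl⟩ := QuotientGroup.mk_out_eq_mul (L.subgroupOf H) (⟨h⁻¹, H.inv_mem hh⟩ : H)
      apply Subtype.ext
      simp only
      rw [Orb_eq_iff, hl]
      refine ⟨(l.1.1)⁻¹, L.inv_mem l.2, ?_⟩
      refine (congrArg (fun z => (l.1.1 : G)⁻¹ • z) hhy.symm).trans ?_
      simp only [Subgroup.coe_mul, mul_inv_rev, inv_inv, smul_smul]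
  have hcard := Nat.card_congr (Equiv.ofBijective _ hbij)
  rw [Nat.card_prod] at hcard
  rw [nOrb, nOrb, ← Nat.card_coe_set_eq, ← Nat.card_coe_set_eq, ← hcard]
  rfl

theorem nOrb_mono (H : Subgroup G) (S S' : Set X) (h : S ⊆ S')
    (hS' : ((fun x => (MulAction.orbit H x : Set X)) '' S').Finite) : nOrb H S ≤ nOrb H S' :=
  Set.ncard_le_ncard (Set.image_mono h) hS'

theorem nOrb_union_le (H : Subgroup G) (S S' : Set X) :
    nOrb H (S ∪ S') ≤ nOrb H S + nOrb H S' := by
  rw [nOrb, nOrb, nOrb, Set.image_union]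
  exact Set.ncard_union_le _ _

theorem nOrb_le_mul (H : Subgroup G) (π : X → Y) (hπ : ∀ (g : G) (x : X), π (g • x) = g • π x)
    (S : Set X) (hinv : ∀ g ∈ H, ∀ x ∈ S, g • x ∈ S) (R : Set Y) (hSR : ∀ x ∈ S, π x ∈ R)
    (hR : ((fun y => (MulAction.orbit H y : Set Y)) '' R).Finite) (N : ℕ)
    (hN : ∀ y ∈ R, {x | x ∈ S ∧ π x = y}.Finite ∧ {x | x ∈ S ∧ π x = y}.ncard ≤ N) :
    nOrb H S ≤ N * nOrb H R := by
  classical
  have hrep : ∀ O : ↥((fun y => (MulAction.orbit H y : Set Y)) '' R),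
      ∃ y ∈ R, (MulAction.orbit H y : Set Y) = O.1 := by
    rintro ⟨O, x, hx, hO⟩
    exact ⟨x, hx, hO⟩
  choose r hrS hr' using hrep
  have hA : Finite ↥((fun y => (MulAction.orbit H y : Set Y)) '' R) := hR
  have := Fintype.ofFinite ↥((fun y => (MulAction.orbit H y : Set Y)) '' R)
  let F : ↥((fun y => (MulAction.orbit H y : Set Y)) '' R) → Finset (Set X) := fun O =>
    ((hN (r O) (hrS O)).1.image (fun x => (MulAction.orbit H x : Set X))).toFinset
  have hF : ∀ O ∈ (Finset.univ : Finset ↥((fun y => (MulAction.orbit H y : Set Y)) '' R)),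
      (F O).card ≤ N := by
    intro O _
    have h1 : (F O).card = ((fun x => (MulAction.orbit H x : Set X)) '' {x | x ∈ S ∧ π x = r O}).ncard := by
      rw [Set.ncard_eq_toFinset_card _ ((hN (r O) (hrS O)).1.image _)]
    rw [h1]
    exact (Set.ncard_image_le (hN (r O) (hrS O)).1).trans (hN (r O) (hrS O)).2
  have hsub : (fun x => (MulAction.orbit H x : Set X)) '' S ⊆
      ((Finset.univ.biUnion F : Finset (Set X)) : Set (Set X)) := by
    rintro _ ⟨x, hx, rfl⟩
    have hO := hr' ⟨MulAction.orbit H (π x), π x, hSR x hx, rfl⟩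
    obtain ⟨h, hh, hhy⟩ := (Orb_eq_iff H _ _).1 hO
    simp only [Finset.coe_biUnion, Set.mem_iUnion]
    refine ⟨⟨MulAction.orbit H (π x), π x, hSR x hx, rfl⟩, Finset.mem_coe.2 (Finset.mem_univ _), ?_⟩
    simp only [F, Set.Finite.coe_toFinset]
    refine ⟨h • x, ⟨hinv h hh x hx, ?_⟩, ?_⟩
    · rw [hπ, hhy]
    · exact (Orb_eq_iff H _ _).2 ⟨h, hh, rfl⟩
  calc nOrb H S ≤ ((Finset.univ.biUnion F : Finset (Set X)) : Set (Set X)).ncard :=
        Set.ncard_le_ncard hsub (Finset.finite_toSet _)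
    _ = (Finset.univ.biUnion F).card := Set.ncard_coe_finset _
    _ ≤ (Finset.univ : Finset ↥((fun y => (MulAction.orbit H y : Set Y)) '' R)).card * N :=
        Finset.card_biUnion_le_card_mul _ _ _ hF
    _ = N * nOrb H R := by
        rw [mul_comm, nOrb, ← Nat.card_coe_set_eq, Nat.card_eq_fintype_card, Finset.card_univ]

theorem nOrb_image_le (H : Subgroup G) (π : X → Y)
    (hπ : ∀ (g : G) (x : X), π (g • x) = g • π x) (S : Set X)
    (hS : ((fun x => (MulAction.orbit H x : Set X)) '' S).Finite) (R : Set Y)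
    (hR : ∀ y ∈ R, ∃ x ∈ S, π x = y) : nOrb H R ≤ nOrb H S := by
  have hsub : (fun y => (MulAction.orbit H y : Set Y)) '' R ⊆
      (fun O : Set X => π '' O) '' ((fun x => (MulAction.orbit H x : Set X)) '' S) := by
    rintro _ ⟨y, hy, rfl⟩
    obtain ⟨x, hx, rfl⟩ := hR y hy
    refine ⟨_, ⟨x, hx, rfl⟩, ?_⟩
    ext z
    simp only [Set.mem_image]
    constructor
    · rintro ⟨w, hw, rfl⟩
      obtain ⟨g, hg, rfl⟩ := (Orb_mem_iff H _ _).1 hw
      exact (Orb_mem_iff H _ _).2 ⟨g, hg, (hπ g x).symm⟩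
    · intro hz
      obtain ⟨g, hg, rfl⟩ := (Orb_mem_iff H _ _).1 hz
      exact ⟨g • x, (Orb_mem_iff H _ _).2 ⟨g, hg, rfl⟩, hπ g x⟩
  exact (Set.ncard_le_ncard hsub (hS.image _)).trans (Set.ncard_image_le hS)

theorem exists_avg {B : Type*} [Fintype B] [Nonempty B] (L : Subgroup G) (S : Set X)
    (hS : ((fun x => (MulAction.orbit L x : Set X)) '' S).Finite)
    (hSinv : ∀ g ∈ L, ∀ x ∈ S, g • x ∈ S) (Sb : B → Set X)
    (hsub : ∀ b, Sb b ⊆ S) (hinv : ∀ b, ∀ g ∈ L, ∀ x ∈ Sb b, g • x ∈ Sb b) (P : ℕ)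
    (hP : ∀ x ∈ S, P * Nat.card {b : B // x ∉ Sb b} = Fintype.card B) :
    ∃ b, P * nOrb L (Sb b) ≤ (P - 1) * nOrb L S := by
  classical
  by_contra hcon
  push Not at hcon
  have hO : ∀ b, nOrb L (Sb b) = ∑ O ∈ hS.toFinset,
      if O ∈ (fun x => (MulAction.orbit L x : Set X)) '' Sb b then 1 else 0 := by
    intro b
    rw [Finset.sum_boole, Nat.cast_id, nOrb,
      Set.ncard_eq_toFinset_card _ (hS.subset (Set.image_mono (hsub b)))]
    congr 1
    ext O
    simp only [Set.Finite.mem_toFinset, Finset.mem_filter]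
    exact ⟨fun h => ⟨Set.image_mono (hsub b) h, h⟩, fun h => h.2⟩
  have hcount : ∀ O ∈ hS.toFinset,
      P * ∑ b : B, (if O ∈ (fun x => (MulAction.orbit L x : Set X)) '' Sb b then 1 else 0) =
        (P - 1) * Fintype.card B := by
    intro O hO'
    obtain ⟨x, hx, rfl⟩ := (Set.Finite.mem_toFinset hS).1 hO'
    have h1 : ∀ b, (MulAction.orbit L x : Set X) ∈
        (fun x => (MulAction.orbit L x : Set X)) '' Sb b ↔ x ∈ Sb b := by
      intro b
      constructor
      · rintro ⟨y, hy, hxy⟩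
        obtain ⟨g, hg, hgx⟩ := (Orb_eq_iff L _ _).1 hxy.symm
        rw [← hgx]
        exact hinv b g hg y hy
      · intro h
        exact ⟨x, h, rfl⟩
    simp only [h1]
    rw [Finset.sum_boole, Nat.cast_id]
    have h2 := hP x hx
    rw [Nat.card_eq_fintype_card, Fintype.card_subtype] at h2
    have h3 := Finset.card_filter_add_card_filter_not (s := (Finset.univ : Finset B))
      (p := fun b => x ∈ Sb b)
    rw [Finset.card_univ] at h3
    have h4 : P * (Finset.univ.filter (fun b => x ∈ Sb b)).card + Fintype.card B =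
        P * Fintype.card B := by
      conv_lhs => rw [← h2]
      rw [← Nat.mul_add, h3]
    rw [Nat.sub_mul, one_mul]
    omega
  have hsum : P * ∑ b : B, nOrb L (Sb b) = (P - 1) * Fintype.card B * nOrb L S := by
    simp only [hO]
    rw [Finset.sum_comm, Finset.mul_sum, Finset.sum_congr rfl hcount, Finset.sum_const,
      smul_eq_mul, nOrb, Set.ncard_eq_toFinset_card _ hS]
    ring
  have hlt : ∑ b : B, (P - 1) * nOrb L S < ∑ b : B, P * nOrb L (Sb b) :=
    Finset.sum_lt_sum_of_nonempty Finset.univ_nonempty (fun b _ => hcon b)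
  rw [← Finset.mul_sum, ← Finset.mul_sum, hsum, Finset.sum_const, smul_eq_mul,
    Finset.card_univ, mul_assoc] at hlt
  exact lt_irrefl _ hlt

end

end Pool.Agent.ChL
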