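import Pool.Agent.ChL.Z1Semi
import Pool.Agent.ChL.HomFin
import Pool.Agent.ChL.FinField
import Pool.Agent.ChS.FinalSd

/-!
# Linear growth of the first cohomology with coefficients in `ZMod p`

`Γ` is finitely generated (`gamma_fg`), say by `S`.  Let `T` be the finite set of the entries of
`lin γ` and of `kap γ` for `γ ∈ S ∪ S⁻¹` and `A, k, π` as in `exists_finite_residue`.  The entries of
`lin γ` and `kap γ` lie in `A` for all `γ ∈ Γ` (closure induction), so `kap` and `lin` are given by
monoid homomorphisms `κ : Γ →* A`, `θ : Γ →* Matrix (Fin 4) (Fin 4) A`.  Let `Γ₀` be the set of all `γ` with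
`π (κ γ) = 1`, `(θ γ).map π = 1`, a subgroup of finite index because `k × Matrix (Fin 4) (Fin 4) k` is
finite.  Let `H ≤ Γ₀` have finite index; `H` is finitely generated.  `Z1 (lin.comp H.subtype)` is equal
to `Z1R ℝ` for the restrictions of `κ, θ` (`act`; `(lin g)⁻¹ = lin g⁻¹`).  By `z1R_finrank_le`,
`z1R_trivial_finrank` and `homR_finrank_eq` (`p` the characteristic of `k`; `p ≠ 2` because `(2 : k) ≠ 0`),
`finrank Z1 ≤ 6 * finrank (HomR (ZMod p) H)`.  By `final_main` and `|χ| ≥ 1`, `5 * index + 6 ≤ finrank Z1`.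
-/

namespace Pool.Agent.ChL

open Matrix Pool.Agent.ChP Pool.Agent.ChS
open scoped Pointwise

private theorem PGrad_kap_mul (K : AffineTriangulation 4) (g h : K.Γ) :
    kap K (g * h) = kap K g * kap K h := by
  unfold kap
  rw [map_mul, Matrix.det_mul, abs_mul, Real.sqrt_mul (abs_nonneg _)]

private theorem PGrad_kap_one (K : AffineTriangulation 4) : kap K 1 = 1 := by
  unfold kap
  simp

private theorem PGrad_lin_inv (K : AffineTriangulation 4) (g : K.Γ) :
    K.lin g⁻¹ = (K.lin g)⁻¹ := by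
  symm
  apply Matrix.inv_eq_right_inv
  rw [← map_mul, mul_inv_cancel, map_one]

/-- the values of `kap` and `lin` at `g` are defined over `A` -/
private def PGradIn (K : AffineTriangulation 4) (A : Subring ℝ) (g : K.Γ) : Prop :=
  kap K g ∈ A ∧ ∀ i j, K.lin g i j ∈ A

private theorem PGradIn_mul {K : AffineTriangulation 4} {A : Subring ℝ} {g h : K.Γ}
    (hg : PGradIn K A g) (hh : PGradIn K A h) : PGradIn K A (g * h) := by
  refine ⟨?_, fun i j => ?_⟩
  · rw [PGrad_kap_mul]
    exact A.mul_mem hg.1 hh.1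
  · rw [map_mul, Matrix.mul_apply]
    exact A.sum_mem fun l _ => A.mul_mem (hg.2 i l) (hh.2 l j)

private theorem PGradIn_one {K : AffineTriangulation 4} {A : Subring ℝ} :
    PGradIn K A 1 := by
  refine ⟨?_, fun i j => ?_⟩
  · rw [PGrad_kap_one]
    exact A.one_mem
  · rw [map_one, Matrix.one_apply]
    split_ifs
    · exact A.one_mem
    · exact A.zero_mem

private theorem PGradIn_all {K : AffineTriangulation 4} {A : Subring ℝ} (S : Set K.Γ)
    (hS : Subgroup.closure S = ⊤) (h : ∀ g ∈ S, PGradIn K A g ∧ PGradIn K A g⁻¹) (g : K.Γ) :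
    PGradIn K A g := by
  have hg : g ∈ Subgroup.closure S := by rw [hS]; exact Subgroup.mem_top g
  have key : PGradIn K A g ∧ PGradIn K A g⁻¹ := by
    induction hg using Subgroup.closure_induction with
    | mem x hx => exact h x hx
    | one => exact ⟨PGradIn_one, by rw [inv_one]; exact PGradIn_one⟩
    | mul x y _ _ hx hy =>
      refine ⟨PGradIn_mul hx.1 hy.1, ?_⟩
      rw [_root_.mul_inv_rev]
      exact PGradIn_mul hy.2 hx.2
    | inv x _ hx => exact ⟨hx.2, by rw [inv_inv]; exact hx.1⟩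
  exact key.1

/-- the twisting factor as a homomorphism into `A` -/
private noncomputable def PGradKap {K : AffineTriangulation 4} {A : Subring ℝ}
    (h : ∀ g, PGradIn K A g) : K.Γ →* A where
  toFun g := ⟨kap K g, (h g).1⟩
  map_one' := Subtype.ext (PGrad_kap_one K)
  map_mul' a b := Subtype.ext (PGrad_kap_mul K a b)

/-- the linear part as a homomorphism into the matrices over `A` -/
private noncomputable def PGradLin {K : AffineTriangulation 4} {A : Subring ℝ}
    (h : ∀ g, PGradIn K A g) : K.Γ →* Matrix (Fin 4) (Fin 4) A where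
  toFun g := Matrix.of fun i j => ⟨K.lin g i j, (h g).2 i j⟩
  map_one' := by
    ext i j
    rw [Matrix.of_apply]
    show K.lin 1 i j = _
    rw [map_one, Matrix.one_apply, Matrix.one_apply]
    split_ifs <;> rfl
  map_mul' a b := by
    ext i j
    rw [Matrix.of_apply]
    show K.lin (a * b) i j = _
    rw [map_mul, Matrix.mul_apply, Matrix.mul_apply]
    push_cast
    rfl

private theorem PGrad_Z1_eq {K : AffineTriangulation 4} {A : Subring ℝ}
    (h : ∀ g, PGradIn K A g) (H : Subgroup K.Γ) :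
    Z1 (K.lin.comp H.subtype) = Z1R ℝ (fun g : H => A.subtype (((PGradKap h).comp H.subtype) g))
      (fun g : H => (((PGradLin h).comp H.subtype) g).map A.subtype) := by
  have h1 : ∀ g : H, (((PGradLin h).comp H.subtype) g).map A.subtype = K.lin (g : K.Γ) := by
    intro g
    ext i j
    rfl
  have h2 : ∀ g : H, A.subtype (((PGradKap h).comp H.subtype) g) = kap K (g : K.Γ) :=
    fun g => rfl
  have h3 : ∀ (g : H) (X : Matrix (Fin 4) (Fin 4) ℝ), act ((K.lin.comp H.subtype) g) X =
      A.subtype (((PGradKap h).comp H.subtype) g) •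
        (((((PGradLin h).comp H.subtype) g⁻¹).map A.subtype)ᵀ * X *
          (((PGradLin h).comp H.subtype) g⁻¹).map A.subtype) := by
    intro g X
    rw [h1, h2, Subgroup.coe_inv, PGrad_lin_inv]
    rfl
  ext z
  constructor
  · rintro ⟨ha, hb⟩
    refine ⟨ha, fun g g' => ?_⟩
    rw [hb g g', h3]
  · rintro ⟨ha, hb⟩
    refine ⟨ha, fun g g' => ?_⟩
    rw [hb g g', h3]

theorem exists_p_gradient (K : AffineTriangulation 4) (hc : Connected K) (h1 : H1Zero K)
    (hχ : K.eulerChar ≠ 0) :
    ∃ (p : ℕ) (_ : Fact p.Prime) (Γ₀ : Subgroup K.Γ), p ≠ 2 ∧ Γ₀.FiniteIndex ∧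
      ∀ H : Subgroup K.Γ, H ≤ Γ₀ → H.FiniteIndex →
        5 * H.index + 6 ≤ 6 * Module.finrank (ZMod p) (HomR (ZMod p) H) := by
  classical
  have hFG : Group.FG K.Γ := gamma_fg K hc
  obtain ⟨S, hS⟩ := Group.fg_def.mp hFG
  obtain ⟨ent, hent⟩ : ∃ ent : K.Γ → Finset ℝ, ∀ g, ent g =
    insert (kap K g) (Finset.univ.image fun ij : Fin 4 × Fin 4 => K.lin g ij.1 ij.2) :=
    ⟨_, fun _ => rfl⟩
  obtain ⟨A, k, _, _, π, hT, h2⟩ := exists_finite_residue
    (S.biUnion fun g => ent g ∪ ent g⁻¹)
  have hin : ∀ g : K.Γ, (∀ x ∈ ent g, x ∈ A) → PGradIn K A g := by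
    intro g hg
    refine ⟨hg _ ?_, fun i j => hg _ ?_⟩
    · rw [hent]
      exact Finset.mem_insert_self _ _
    · rw [hent]
      exact Finset.mem_insert_of_mem (Finset.mem_image.2 ⟨(i, j), Finset.mem_univ _, rfl⟩)
  have hall : ∀ g, PGradIn K A g := by
    refine PGradIn_all (S : Set K.Γ) hS fun g hg => ⟨hin g fun x hx => hT x ?_,
      hin g⁻¹ fun x hx => hT x ?_⟩
    · exact Finset.mem_biUnion.2 ⟨g, hg, Finset.mem_union_left _ hx⟩
    · exact Finset.mem_biUnion.2 ⟨g, hg, Finset.mem_union_right _ hx⟩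
  obtain ⟨p, hp⟩ := CharP.exists k
  have hprime : Fact p.Prime := ⟨CharP.char_is_prime k p⟩
  have hp2 : p ≠ 2 := by
    rintro rfl
    exact h2 (by exact_mod_cast CharP.cast_eq_zero k 2)
  obtain ⟨φ, hφ⟩ : ∃ φ : K.Γ →* k × Matrix (Fin 4) (Fin 4) k,
      ∀ g, φ g = (π (PGradKap hall g), (PGradLin hall g).map π) :=
    ⟨(π.toMonoidHom.comp (PGradKap hall)).prod
      (π.mapMatrix.toMonoidHom.comp (PGradLin hall)), fun g => rfl⟩
  have hfin : Finite (k × Matrix (Fin 4) (Fin 4) k) := by
    have : Finite (Matrix (Fin 4) (Fin 4) k) := by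
      unfold Matrix
      infer_instance
    infer_instance
  have hfinU : Finite (k × Matrix (Fin 4) (Fin 4) k)ˣ := inferInstance
  have hker : φ.toHomUnits.ker.FiniteIndex := inferInstance
  refine ⟨p, hprime, φ.toHomUnits.ker, hp2, hker, ?_⟩
  intro H hH hHfin
  have hval : ∀ g ∈ H, π (PGradKap hall g) = 1 ∧ (PGradLin hall g).map π = 1 := by
    intro g hg
    have h3 := hH hg
    rw [MonoidHom.mem_ker] at h3
    have h4 : φ g = 1 := by
      have := congrArg Units.val h3
      rwa [MonoidHom.coe_toHomUnits, Units.val_one] at this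
    rw [hφ] at h4
    exact Prod.mk.injEq _ _ _ _ ▸ h4
  have hHFG : Group.FG H := Subgroup.fg_of_index_ne_zero H
  obtain ⟨SH, hSH⟩ := Group.fg_def.mp hHFG
  have hS' : Subgroup.closure ((SH.image (Subtype.val : H → K.Γ) : Finset K.Γ) : Set K.Γ) = H := by
    rw [Finset.coe_image]
    have := congrArg (Subgroup.map H.subtype) hSH
    rw [MonoidHom.map_closure] at this
    rw [← MonoidHom.range_eq_map, Subgroup.range_subtype] at this
    exact this
  obtain ⟨hmain, -, -⟩ := final_main K hc h1 H hHfin _ hS'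
  have hle := z1R_finrank_le SH hSH ((PGradKap hall).comp H.subtype)
    ((PGradLin hall).comp H.subtype) ℝ k A.subtype Subtype.val_injective π
  rw [← PGrad_Z1_eq hall H] at hle
  have hk1 : (fun g : H => π (((PGradKap hall).comp H.subtype) g)) = fun _ => 1 := by
    funext g
    exact (hval g g.2).1
  have hk2 : (fun g : H => (((PGradLin hall).comp H.subtype) g).map π) = fun _ => 1 := by
    funext g
    exact (hval g g.2).2
  rw [hk1, hk2, z1R_trivial_finrank k h2 hHFG, homR_finrank_eq k p hHFG] at hle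
  have h3 : (1 : ℤ) ≤ |K.eulerChar| := Int.one_le_abs hχ
  have h4 : K.eulerChar ≤ |K.eulerChar| := le_abs_self _
  have h5 : (0 : ℤ) ≤ H.index := Int.natCast_nonneg _
  have h6 : (H.index : ℤ) * K.eulerChar ≤ H.index * |K.eulerChar| :=
    mul_le_mul_of_nonneg_left h4 h5
  have h7 : (H.index : ℤ) * 1 ≤ H.index * |K.eulerChar| :=
    mul_le_mul_of_nonneg_left h3 h5
  have h8 : (Module.finrank ℝ (Z1 (K.lin.comp H.subtype)) : ℤ) ≤
      6 * (Module.finrank (ZMod p) (HomR (ZMod p) H) : ℤ) := by exact_mod_cast hle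
  have h9 : (5 * (H.index : ℤ) + 6) ≤
      6 * (Module.finrank (ZMod p) (HomR (ZMod p) H) : ℤ) := by omega
  exact_mod_cast h9

end Pool.Agent.ChL
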