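import Pool.Agent.ChL.Frat

/-!
# Primitives

`exists_prim`: `SimplyConn` for the group `Multiplicative (ZMod p)`.

`solQ_prim`: for `C u v = ∑ θ_l(u) (f_l(v) - f_l(u))` one has
`C u v + C v w - C u w = ∑ (θ_l(v) - θ_l(u)) (f_l(w) - f_l(v))`.

`prim_qInv`: `θ_l` is invariant under `Fr p H` (`qInv_fr`), so for `g ∈ Fr p H`
`F (g v) - F (g u) = F v - F u` for all edges; so `F (g v) - F v` does not depend on `v` (`Connected`).

`prim_rel`: for `g ∈ H` one has
`F (g v) - F (g u) = F v - F u + ∑ α_l(g) (f_l(v) - f_l(u))` for edges, so (`Connected`)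
`F (g v) = F v + ∑ α_l(g) f_l(v) + κ(g)` for all `v`.  Then
`F (g h v) = F v + ∑ (α_l(g) + α_l(h)) f_l(v) + ∑ α_l(g) χ_l(h) + κ(g) + κ(h)`.  Since `g h (h g)⁻¹ ∈ Fr p H`
(`fr_comm`) and `F` is invariant under `Fr p H`, `F (g h v) = F (h g v)`.
-/

namespace Pool.Agent.ChL

open Matrix Pool.Agent.ChP Pool.Agent.ChS
open scoped Pointwise

variable {n : ℕ} {K : AffineTriangulation n}

private theorem Prim_smul (g : K.Γ) {u v : K.V} (h : ({u, v} : Finset K.V) ∈ K.faces) :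
    ({g • u, g • v} : Finset K.V) ∈ K.faces := by
  have h1 := K.smul_mem g _ h
  rw [Finset.smul_finset_insert, Finset.smul_finset_singleton] at h1
  exact h1

private theorem Prim_const (hc : Connected K) {R : Type*} (D : K.V → R)
    (h : ∀ u v : K.V, ({u, v} : Finset K.V) ∈ K.faces → D u = D v) (u v : K.V) : D u = D v := by
  have h1 := hc.2 u v
  induction h1 with
  | refl => rfl
  | tail _ h2 ih => exact ih.trans (h _ _ h2)

theorem exists_prim (hs : SimplyConn K) (p : ℕ) (C : K.V → K.V → ZMod p)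
    (hC : ∀ u v w : K.V, ({u, v, w} : Finset K.V) ∈ K.faces → C u v + C v w = C u w) :
    ∃ F : K.V → ZMod p, ∀ u v : K.V, ({u, v} : Finset K.V) ∈ K.faces → F v - F u = C u v := by
  obtain ⟨f, hf⟩ := hs (Multiplicative (ZMod p)) (fun u v => Multiplicative.ofAdd (C u v))
    (fun u v w h => by
      change Multiplicative.ofAdd (C u v) * Multiplicative.ofAdd (C v w) =
        Multiplicative.ofAdd (C u w)
      rw [← ofAdd_add, hC u v w h])
  refine ⟨fun v => (f v).toAdd, fun u v h => ?_⟩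
  have h1 := congrArg Multiplicative.toAdd (hf u v h)
  rw [toAdd_mul, toAdd_inv, toAdd_ofAdd] at h1
  rw [h1]
  ring

theorem solQ_prim (hs : SimplyConn K) (p : ℕ) (H : Subgroup K.Γ) {m : ℕ}
    (f : Fin m → K.V → ZMod p) (θ : Fin m → QInv (K := K) p H) (hθ : θ ∈ SolQ p H f) :
    ∃ F : K.V → ZMod p, ∀ u v : K.V, ({u, v} : Finset K.V) ∈ K.faces →
      F v - F u = ∑ l, (θ l).1 u * (f l v - f l u) := by
  refine exists_prim hs p (fun u v => ∑ l, (θ l).1 u * (f l v - f l u)) fun u v w h => ?_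
  have h1 := hθ u v w h
  have h2 : ∑ l, (θ l).1 u * (f l v - f l u) + ∑ l, (θ l).1 v * (f l w - f l v) =
      ∑ l, (θ l).1 u * (f l w - f l u) + ∑ l, ((θ l).1 v - (θ l).1 u) * (f l w - f l v) := by
    rw [← Finset.sum_add_distrib, ← Finset.sum_add_distrib]
    refine Finset.sum_congr rfl fun l _ => ?_
    ring
  rw [h2, h1, add_zero]

theorem prim_qInv (hc : Connected K) (p : ℕ) (H : Subgroup K.Γ) {m : ℕ}
    (f : Fin m → K.V → ZMod p) (hf : ∀ l, f l ∈ QInv (K := K) p H)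
    (θ : Fin m → QInv (K := K) p H) (F : K.V → ZMod p)
    (hF : ∀ u v : K.V, ({u, v} : Finset K.V) ∈ K.faces →
      F v - F u = ∑ l, (θ l).1 u * (f l v - f l u)) : F ∈ QInv (K := K) p (Fr p H) := by
  obtain ⟨v₀⟩ := hc.1
  refine ⟨fun g => F (g • v₀) - F v₀, fun g hg v => ?_⟩
  have h1 : F (g • v) - F v = F (g • v₀) - F v₀ := by
    refine Prim_const hc (fun v => F (g • v) - F v) (fun u w h => ?_) v v₀
    have h2 := hF _ _ (Prim_smul g h)
    have h3 := hF _ _ h
    have h4 : ∑ l, (θ l).1 (g • u) * (f l (g • w) - f l (g • u)) =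
        ∑ l, (θ l).1 u * (f l w - f l u) := by
      refine Finset.sum_congr rfl fun l _ => ?_
      rw [qInv_fr hc.1 p H _ (θ l).2 g hg u, qInv_fr hc.1 p H _ (hf l) g hg u,
        qInv_fr hc.1 p H _ (hf l) g hg w]
    rw [h4, ← h3] at h2
    change F (g • u) - F u = F (g • w) - F w
    linear_combination -h2
  change F (g • v) = F v + (F (g • v₀) - F v₀)
  rw [← h1]
  ring

theorem prim_rel (hc : Connected K) (p : ℕ) (H : Subgroup K.Γ) {m : ℕ}
    (f : Fin m → K.V → ZMod p) (χ : Fin m → H → ZMod p)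
    (hχ : ∀ (l : Fin m) (g : H) (v : K.V), f l ((g : K.Γ) • v) = f l v + χ l g)
    (θ : Fin m → K.V → ZMod p) (α : Fin m → H → ZMod p)
    (hα : ∀ (l : Fin m) (g : H) (v : K.V), θ l ((g : K.Γ) • v) = θ l v + α l g)
    (F : K.V → ZMod p)
    (hF : ∀ u v : K.V, ({u, v} : Finset K.V) ∈ K.faces →
      F v - F u = ∑ l, θ l u * (f l v - f l u))
    (hinv : F ∈ Inv (K := K) p (Fr p H)) (g h : H) :
    ∑ l, α l g * χ l h = ∑ l, α l h * χ l g := by
  obtain ⟨v₀⟩ := hc.1
  have key : ∀ (g : H), ∃ κ : ZMod p, ∀ v : K.V,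
      F ((g : K.Γ) • v) = F v + ∑ l, α l g * f l v + κ := by
    intro g
    refine ⟨F ((g : K.Γ) • v₀) - F v₀ - ∑ l, α l g * f l v₀, fun v => ?_⟩
    have h1 : F ((g : K.Γ) • v) - F v - ∑ l, α l g * f l v =
        F ((g : K.Γ) • v₀) - F v₀ - ∑ l, α l g * f l v₀ := by
      refine Prim_const hc (fun v => F ((g : K.Γ) • v) - F v - ∑ l, α l g * f l v)
        (fun u w hu => ?_) v v₀
      have h2 := hF _ _ (Prim_smul (g : K.Γ) hu)
      have h3 := hF _ _ hu
      have h4 : ∑ l, θ l ((g : K.Γ) • u) * (f l ((g : K.Γ) • w) - f l ((g : K.Γ) • u)) =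
          ∑ l, θ l u * (f l w - f l u) + (∑ l, α l g * f l w - ∑ l, α l g * f l u) := by
        rw [← Finset.sum_sub_distrib, ← Finset.sum_add_distrib]
        refine Finset.sum_congr rfl fun l _ => ?_
        rw [hχ, hχ, hα]
        ring
      rw [h4, ← h3] at h2
      change F ((g : K.Γ) • u) - F u - ∑ l, α l g * f l u =
        F ((g : K.Γ) • w) - F w - ∑ l, α l g * f l w
      linear_combination -h2
    rw [← h1]
    ring
  have key2 : ∀ (g h : H), ∃ κ : ZMod p, ∃ μ : ZMod p,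
      F ((g : K.Γ) • (h : K.Γ) • v₀) = F v₀ + ∑ l, α l h * f l v₀ + ∑ l, α l g * f l v₀ +
        ∑ l, α l g * χ l h + κ + μ ∧
      F ((h : K.Γ) • (g : K.Γ) • v₀) = F v₀ + ∑ l, α l h * f l v₀ + ∑ l, α l g * f l v₀ +
        ∑ l, α l h * χ l g + κ + μ := by
    intro g h
    obtain ⟨κ, hκ⟩ := key g
    obtain ⟨μ, hμ⟩ := key h
    refine ⟨κ, μ, ?_, ?_⟩
    · have h4 : ∑ l, α l g * f l ((h : K.Γ) • v₀) =
          ∑ l, α l g * f l v₀ + ∑ l, α l g * χ l h := by
        rw [← Finset.sum_add_distrib]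
        refine Finset.sum_congr rfl fun l _ => ?_
        rw [hχ]
        ring
      rw [hκ, hμ, h4]
      ring
    · have h4 : ∑ l, α l h * f l ((g : K.Γ) • v₀) =
          ∑ l, α l h * f l v₀ + ∑ l, α l h * χ l g := by
        rw [← Finset.sum_add_distrib]
        refine Finset.sum_congr rfl fun l _ => ?_
        rw [hχ]
        ring
      rw [hμ, hκ, h4]
      ring
  obtain ⟨κ, μ, h1, h2⟩ := key2 g h
  have h3 : F ((g : K.Γ) • (h : K.Γ) • v₀) = F ((h : K.Γ) • (g : K.Γ) • v₀) := by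
    have h4 := hinv _ (fr_comm p H (g : K.Γ) (h : K.Γ) g.2 h.2) ((h : K.Γ) • (g : K.Γ) • v₀)
    rw [← h4]
    congr 1
    rw [smul_smul, smul_smul, smul_smul]
    congr 1
    group
  rw [h1, h2] at h3
  linear_combination h3

end Pool.Agent.ChL
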