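import Pool.Agent.ChL.Defs

/-!
# Families of homomorphisms with a symmetry property

`exists_dual`: the image of `g ↦ (χ_l g)_l` is a subgroup, so a subspace, of `Fin m → ZMod p`.  If it was not
everything then there would be `a ≠ 0` with `∑ a_l χ_l = 0`.

`finrank_sym_le`: the linear map `M → (Fin m → Fin m → ZMod p)`, `α ↦ (α_l (h_k))`, is injective: if all
`α_l (h_k) = 0` then `α_k g = ∑_l α_l g * χ_l (h_k) = ∑_l α_l (h_k) * χ_l g = 0`.
-/

namespace Pool.Agent.ChL

private theorem SymDim_hom_mul {p : ℕ} {G : Type*} [Group G] {f : G → ZMod p}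
    (hf : f ∈ HomR (ZMod p) G) (g h : G) : f (g * h) = f g + f h := hf g h

private theorem SymDim_hom_one {p : ℕ} {G : Type*} [Group G] {f : G → ZMod p}
    (hf : f ∈ HomR (ZMod p) G) : f 1 = 0 := by
  have h1 := SymDim_hom_mul hf 1 1
  rw [mul_one] at h1
  exact left_eq_add.mp h1

private theorem SymDim_hom_pow {p : ℕ} {G : Type*} [Group G] {f : G → ZMod p}
    (hf : f ∈ HomR (ZMod p) G) (g : G) (n : ℕ) : f (g ^ n) = n * f g := by
  induction n with
  | zero => simp [SymDim_hom_one hf]
  | succ n ih =>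
    rw [pow_succ, SymDim_hom_mul hf, ih]
    push_cast
    ring

theorem exists_dual (p : ℕ) [Fact p.Prime] {G : Type*} [Group G] {m : ℕ}
    (χ : Fin m → G → ZMod p) (hχ : ∀ l, χ l ∈ HomR (ZMod p) G)
    (hi : ∀ a : Fin m → ZMod p, (∀ g : G, ∑ l, a l * χ l g = 0) → a = 0) :
    ∃ h : Fin m → G, ∀ l k, χ l (h k) = if l = k then 1 else 0 := by
  classical
  let S : Submodule (ZMod p) (Fin m → ZMod p) :=
    { carrier := {v | ∃ g : G, ∀ l, χ l g = v l}
      add_mem' := by
        rintro a b ⟨g, hg⟩ ⟨h, hh⟩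
        refine ⟨g * h, fun l => ?_⟩
        rw [SymDim_hom_mul (hχ l), hg, hh, Pi.add_apply]
      zero_mem' := ⟨1, fun l => SymDim_hom_one (hχ l)⟩
      smul_mem' := by
        rintro c a ⟨g, hg⟩
        refine ⟨g ^ (c.val), fun l => ?_⟩
        rw [SymDim_hom_pow (hχ l), hg, Pi.smul_apply, smul_eq_mul, ZMod.natCast_zmod_val] }
  have hS : S = ⊤ := by
    by_contra hne
    obtain ⟨f, hf0, hf⟩ := Submodule.exists_le_ker_of_lt_top S (lt_top_iff_ne_top.mpr hne)
    apply hf0
    have ha : (fun l => f (Pi.single l 1)) = 0 := by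
      apply hi
      intro g
      have h1 : (fun l => χ l g) ∈ S := ⟨g, fun l => rfl⟩
      have h2 : f (fun l => χ l g) = 0 := hf h1
      have h3 : (fun l => χ l g) = ∑ l, χ l g • (Pi.single l 1 : Fin m → ZMod p) := by
        funext k
        simp [Finset.sum_apply, Pi.single_apply]
      rw [h3, map_sum] at h2
      rw [← h2]
      refine Finset.sum_congr rfl fun l _ => ?_
      rw [map_smul, smul_eq_mul, mul_comm]
    refine LinearMap.pi_ext' fun l => ?_
    refine LinearMap.ext_ring ?_
    simpa using congrFun ha l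
  have hk : ∀ k : Fin m, ∃ g : G, ∀ l, χ l g = (Pi.single k 1 : Fin m → ZMod p) l := by
    intro k
    have h1 : (Pi.single k 1 : Fin m → ZMod p) ∈ S := by
      rw [hS]
      trivial
    exact h1
  choose h hh using hk
  refine ⟨h, fun l k => ?_⟩
  rw [hh k l, Pi.single_apply]

theorem finrank_sym_le (p : ℕ) [Fact p.Prime] {G : Type*} [Group G] {m : ℕ}
    (χ : Fin m → G → ZMod p) (hχ : ∀ l, χ l ∈ HomR (ZMod p) G)
    (hi : ∀ a : Fin m → ZMod p, (∀ g : G, ∑ l, a l * χ l g = 0) → a = 0)
    (M : Submodule (ZMod p) (Fin m → HomR (ZMod p) G))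
    (hM : ∀ α ∈ M, ∀ g h : G, ∑ l, (α l).1 g * χ l h = ∑ l, (α l).1 h * χ l g) :
    Module.finrank (ZMod p) M ≤ m * m := by
  classical
  obtain ⟨h, hh⟩ := exists_dual p χ hχ hi
  let Φ : M →ₗ[ZMod p] (Fin m → Fin m → ZMod p) :=
    { toFun := fun α l k => (α.1 l).1 (h k)
      map_add' := by
        intro a b
        funext l k
        simp
      map_smul' := by
        intro c a
        funext l k
        simp }
  have hinj : Function.Injective Φ := by
    rw [injective_iff_map_eq_zero]
    intro α hα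
    have h0 : ∀ l k, (α.1 l).1 (h k) = 0 := fun l k => congrFun (congrFun hα l) k
    apply Subtype.ext
    funext k
    apply Subtype.ext
    funext g
    have h1 := hM α.1 α.2 g (h k)
    have h2 : ∑ l, (α.1 l).1 g * χ l (h k) = (α.1 k).1 g := by
      rw [Finset.sum_eq_single k]
      · rw [hh, if_pos rfl, mul_one]
      · intro l _ hlk
        rw [hh, if_neg hlk, mul_zero]
      · intro hk
        exact absurd (Finset.mem_univ k) hk
    have h3 : ∑ l, (α.1 l).1 (h k) * χ l g = 0 :=
      Finset.sum_eq_zero fun l _ => by rw [h0, zero_mul]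
    rw [h2, h3] at h1
    exact h1
  have h4 := LinearMap.finrank_le_finrank_of_injective hinj
  have h5 : Module.finrank (ZMod p) (Fin m → Fin m → ZMod p) = m * m := by
    rw [Module.finrank_pi_fintype]
    simp
  omega

end Pool.Agent.ChL
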