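import Mathlib

/-!
# Semicontinuity of the dimension of the space of solutions

The space of solutions over a field `F` has dimension `N - r`, where `r` is the dimension of the span
of the rows `i ∘ m`, `m ∈ M`.  If `r` rows are linearly independent over `k` then some `r × r`-minor of
them is non-zero in `k`, so the corresponding minor in `A` is non-zero, so it is non-zero in `F` and
the rows are linearly independent over `F`.
-/

namespace Pool.Agent.ChL

/-- the solutions over `F` of the homogeneous linear equations with coefficient vectors in `M` -/
def Sol {A : Type*} [CommRing A] {N : Type*} [Fintype N] (M : Set (N → A)) (F : Type*) [Field F]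
    (i : A →+* F) : Submodule F (N → F) where
  carrier := {x | ∀ m ∈ M, ∑ j, i (m j) * x j = 0}
  add_mem' := by
    intro x y hx hy m hm
    simp only [Pi.add_apply, mul_add, Finset.sum_add_distrib]
    rw [hx m hm, hy m hm, add_zero]
  zero_mem' := by
    intro m _
    simp
  smul_mem' := by
    intro c x hx m hm
    simp only [Pi.smul_apply, smul_eq_mul]
    have h1 : ∀ j, i (m j) * (c * x j) = c * (i (m j) * x j) := fun j => by ring
    simp_rw [h1]
    rw [← Finset.mul_sum, hx m hm, mul_zero]

/-- a matrix whose rows are independent modulo `π` has independent rows after an injective `i` -/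
private theorem solRank_rows {A : Type*} [CommRing A] {N κ : Type*} [Fintype N] [Fintype κ]
    [DecidableEq κ] (F k : Type*) [Field F] [Field k] (i : A →+* F) (hi : Function.Injective i)
    (π : A →+* k) (B : Matrix κ N A) (h : LinearIndependent k (B.map π).row) :
    LinearIndependent F (B.map i).row := by
  classical
  have hrk : (B.map π).rank = Fintype.card κ := h.rank_matrix
  obtain ⟨μ, c, hcinj, hcsp, hcli⟩ := exists_linearIndependent' k (fun j : N => (B.map π).col j)
  haveI : Finite μ := Finite.of_injective c hcinj
  haveI : Fintype μ := Fintype.ofFinite μ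
  have hcard : Fintype.card μ = Fintype.card κ := by
    have h1 := finrank_span_eq_card hcli
    have h2 : Module.finrank k (Submodule.span k (Set.range (B.map π).col)) = Fintype.card κ := by
      rw [← Matrix.rank_eq_finrank_span_cols, hrk]
    have h3 : Submodule.span k (Set.range ((fun j : N => (B.map π).col j) ∘ c))
        = Submodule.span k (Set.range (B.map π).col) := hcsp
    rw [h3, h2] at h1
    exact h1.symm
  obtain ⟨e⟩ : Nonempty (κ ≃ μ) := ⟨Fintype.equivOfCardEq hcard.symm⟩
  let D : Matrix κ κ A := B.submatrix id (c ∘ e)
  have hDk : IsUnit (D.map π) := by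
    rw [← Matrix.linearIndependent_cols_iff_isUnit]
    exact hcli.comp e e.injective
  have hdet : π D.det ≠ 0 := by
    have h1 := (Matrix.isUnit_iff_isUnit_det _).1 hDk
    have h2 : (D.map π).det = π D.det := (π.map_det D).symm
    rw [h2] at h1
    exact h1.ne_zero
  have hdF : i D.det ≠ 0 := by
    intro h1
    have h2 : D.det = 0 := hi (by rw [h1, map_zero])
    exact hdet (by rw [h2, map_zero])
  have hDF : IsUnit (D.map i) := by
    rw [Matrix.isUnit_iff_isUnit_det]
    have h2 : (D.map i).det = i D.det := (i.map_det D).symm
    rw [h2]
    exact isUnit_iff_ne_zero.2 hdF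
  have hDrow : LinearIndependent F (D.map i).row := Matrix.linearIndependent_rows_iff_isUnit.2 hDF
  exact LinearIndependent.of_comp (LinearMap.funLeft F F (c ∘ e)) hDrow

theorem sol_finrank_le {A : Type*} [CommRing A] {N : Type*} [Fintype N] (M : Set (N → A))
    (F k : Type*) [Field F] [Field k] (i : A →+* F) (hi : Function.Injective i) (π : A →+* k) :
    Module.finrank F (Sol M F i) ≤ Module.finrank k (Sol M k π) := by
  classical
  obtain ⟨κ, a, -, hsp, hli⟩ :=
    exists_linearIndependent' k (fun m : M => (fun j => π (m.1 j) : N → k))
  haveI : Finite κ := hli.finite_of_isNoetherian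
  haveI : Fintype κ := Fintype.ofFinite κ
  let B : Matrix κ N A := fun x j => (a x).1 j
  have hBk : LinearIndependent k (B.map π).row := hli
  have hBF : LinearIndependent F (B.map i).row := solRank_rows F k i hi π B hBk
  have hle : Sol M F i ≤ LinearMap.ker (B.map i).mulVecLin := by
    intro x hx
    rw [LinearMap.mem_ker]
    funext y
    exact hx (a y).1 (a y).2
  have hge : LinearMap.ker (B.map π).mulVecLin ≤ Sol M k π := by
    intro x hx m hm
    rw [LinearMap.mem_ker] at hx
    have h1 : (fun j => π (m j) : N → k) ∈ Submodule.span k (Set.range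
        ((fun m : M => (fun j => π (m.1 j) : N → k)) ∘ a)) := by
      rw [hsp]
      exact Submodule.subset_span ⟨⟨m, hm⟩, rfl⟩
    have h2 : ∀ v ∈ Submodule.span k (Set.range
        ((fun m : M => (fun j => π (m.1 j) : N → k)) ∘ a)), ∑ j, v j * x j = 0 := by
      intro v hv
      induction hv using Submodule.span_induction with
      | mem v hv =>
        obtain ⟨y, rfl⟩ := hv
        exact congrFun hx y
      | zero => simp
      | add v w _ _ hv hw =>
        simp only [Pi.add_apply, add_mul, Finset.sum_add_distrib]
        rw [hv, hw, add_zero]
      | smul c v _ hv =>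
        simp only [Pi.smul_apply, smul_eq_mul, mul_assoc]
        rw [← Finset.mul_sum, hv, mul_zero]
    exact h2 _ h1
  have h1 := LinearMap.finrank_range_add_finrank_ker (B.map i).mulVecLin
  have h2 := LinearMap.finrank_range_add_finrank_ker (B.map π).mulVecLin
  have h3 : Module.finrank F (LinearMap.range (B.map i).mulVecLin) = Fintype.card κ :=
    hBF.rank_matrix
  have h4 : Module.finrank k (LinearMap.range (B.map π).mulVecLin) = Fintype.card κ :=
    hBk.rank_matrix
  rw [h3, Module.finrank_fintype_fun_eq_card] at h1
  rw [h4, Module.finrank_fintype_fun_eq_card] at h2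
  have h5 : Module.finrank F (Sol M F i) ≤ Module.finrank F (LinearMap.ker (B.map i).mulVecLin) :=
    Submodule.finrank_mono hle
  have h6 : Module.finrank k (LinearMap.ker (B.map π).mulVecLin) ≤ Module.finrank k (Sol M k π) :=
    Submodule.finrank_mono hge
  omega

end Pool.Agent.ChL
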