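import Pool.Agent.ChL.Quad

/-!
# Small functions

`step`: let `θ, F` be as in `exists_quads`, `L = Fr p H`, and for `b : Fin m → Fin m → ZMod p` let
`f_b t = F t + ∑_l b t l * f l`.  Since `f l` is in `QInv p H` it is invariant under `L` (`qInv_fr`), so `f_b t` is in
`QInv p L` and `Indep p L f_b` follows from `Indep p L F`.  On an edge `(u, v)`:
`f_b t v - f_b t u = ∑_l (θ_tl(u) + b_tl) w_l`, `w_l = f_l(v) - f_l(u)`.  So `Supp f_b ⊆ Supp f`, and if
`(u, v) ∈ Supp f`, i.e. `w ≠ 0`, then there are `p^(m-1)` vectors `b_t` with `∑_l (θ_tl(u) + b_tl) w_l = 0` for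
each `t`, so `p^(m*(m-1))` of the `p^(m*m)` matrices `b` satisfy `(u, v) ∉ Supp f_b`.  Apply `exists_avg` with
`P = p^m`, `S = Supp f`, and `nOrb_index` for `nOrb L (Supp f) = L.relIndex H * nOrb H (Supp f)`.

`exists_start`: choose `m` linearly independent elements of `HomR (ZMod p) H` and `exists_qInv_of_hom`.
-/

namespace Pool.Agent.ChL

open Matrix Pool.Agent.ChP Pool.Agent.ChS
open scoped Pointwise

variable {n : ℕ} {K : AffineTriangulation n}

theorem exists_start (hV : Nonempty K.V) (p : ℕ) [Fact p.Prime] (H : Subgroup K.Γ) (m : ℕ)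
    (hm : m ≤ Module.finrank (ZMod p) (HomR (ZMod p) H)) :
    ∃ f : Fin m → K.V → ZMod p, (∀ l, f l ∈ QInv (K := K) p H) ∧ Indep p H f := by
  obtain ⟨v₀⟩ := hV
  obtain ⟨e, he⟩ := exists_linearIndependent_of_le_finrank hm
  choose f hf hf' using fun l => exists_qInv_of_hom (K := K) p H (e l).1 (e l).2
  refine ⟨f, hf, ?_⟩
  intro a ha
  have h1 : ∑ l, a l • e l = 0 := by
    apply Subtype.ext
    funext g
    rw [Submodule.coe_sum, Finset.sum_apply]
    have h2 := ha g.1 g.2 v₀
    have h3 : ∑ l, a l * f l (g.1 • v₀) = ∑ l, a l * f l v₀ + ∑ l, a l * (e l).1 g := by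
      rw [← Finset.sum_add_distrib]
      refine Finset.sum_congr rfl fun l _ => ?_
      rw [hf' l g v₀]
      ring
    rw [h3] at h2
    have h4 := left_eq_add.1 h2.symm
    exact h4
  have h2 := Fintype.linearIndependent_iff.1 he a h1
  funext l
  exact h2 l

private theorem Step_fib {A B : Type*} [AddCommGroup A] [AddCommGroup B] [Fintype A]
    [Fintype B] (φ : A → B) (hφ : ∀ a b, φ (a + b) = φ a + φ b)
    (hs : ∀ b, ∃ a, φ a = b) (c : B) :
    Fintype.card B * Nat.card {a : A // φ a = c} = Fintype.card A := by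
  have hsub : ∀ a b, φ (a - b) = φ a - φ b := by
    intro a b
    have h1 := hφ (a - b) b
    rw [sub_add_cancel] at h1
    rw [h1, add_sub_cancel_right]
  choose s hs using fun b => hs (b - c)
  let E : A ≃ B × {a : A // φ a = c} :=
    { toFun := fun a => (φ a, ⟨a - s (φ a), by rw [hsub, hs]; abel⟩)
      invFun := fun x => x.2.1 + s x.1
      left_inv := fun a => by simp
      right_inv := by
        rintro ⟨b, a, ha⟩
        have h1 : φ (a + s b) = b := by
          rw [hφ, ha, hs]
          abel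
        refine Prod.ext h1 (Subtype.ext ?_)
        show a + s b - s (φ (a + s b)) = a
        rw [h1, add_sub_cancel_right] }
  have h1 := Nat.card_congr E
  rw [Nat.card_prod, Nat.card_eq_fintype_card, Nat.card_eq_fintype_card] at h1
  exact h1.symm

private theorem Step_count (p : ℕ) [Fact p.Prime] {m : ℕ} (w : Fin m → ZMod p) (hw : w ≠ 0)
    (c : Fin m → ZMod p) :
    p ^ m * Nat.card {b : Fin m → Fin m → ZMod p // ∀ t, ∑ l, b t l * w l = c t} =
      Fintype.card (Fin m → Fin m → ZMod p) := by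
  classical
  have h1 := Step_fib (A := Fin m → Fin m → ZMod p) (B := Fin m → ZMod p)
    (fun b t => ∑ l, b t l * w l) (by
      intro a b
      funext t
      simp only [Pi.add_apply]
      rw [← Finset.sum_add_distrib]
      refine Finset.sum_congr rfl fun l _ => ?_
      ring) (by
      intro b
      obtain ⟨l, hl⟩ : ∃ l, w l ≠ 0 := by
        by_contra hcon
        push Not at hcon
        exact hw (funext hcon)
      refine ⟨fun t l' => if l' = l then b t * (w l)⁻¹ else 0, ?_⟩
      funext t
      simp only [ite_mul, zero_mul, Finset.sum_ite_eq', Finset.mem_univ, if_true]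
      rw [mul_assoc, inv_mul_cancel₀ hl, mul_one]) c
  have h2 : Fintype.card (Fin m → ZMod p) = p ^ m := by
    rw [Fintype.card_fun, ZMod.card, Fintype.card_fin]
  rw [h2] at h1
  rw [← h1]
  congr 1
  refine Nat.card_congr (Equiv.subtypeEquivRight fun b => ?_)
  exact funext_iff.symm

theorem step (hc : Connected K) (hs : SimplyConn K) (p : ℕ) [Fact p.Prime]
    (H : Subgroup K.Γ) (hH : H.FiniteIndex) {m : ℕ} (f : Fin m → K.V → ZMod p)
    (hf : ∀ l, f l ∈ QInv (K := K) p H) (hi : Indep p H f)
    (hk : nOrb H (Tr K) + m * m + m ≤ m * Module.finrank (ZMod p) (HomR (ZMod p) H)) :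
    ∃ f' : Fin m → K.V → ZMod p, (∀ l, f' l ∈ QInv (K := K) p (Fr p H)) ∧
      Indep p (Fr p H) f' ∧
      p ^ m * nOrb (Fr p H) (Supp f') ≤
        (p ^ m - 1) * ((Fr p H).relIndex H * nOrb H (Supp f)) := by
  classical
  obtain ⟨θ, F, hθ, hF, hFq, hFi⟩ := exists_quads hc hs p H hH f hf hi hk
  have hfin := fr_finiteIndex p (gamma_fg K hc) H hH
  have hinvf : ∀ l, ∀ g ∈ Fr p H, ∀ v : K.V, f l (g • v) = f l v :=
    fun l => qInv_fr hc.1 p H (f l) (hf l)
  have hr : (Fr p H).relIndex H ≠ 0 := by
    have h1 := Subgroup.relIndex_mul_index (fr_le p H)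
    intro h2
    rw [h2, zero_mul] at h1
    exact hfin.index_ne_zero h1.symm
  -- the translates
  let fb : (Fin m → Fin m → ZMod p) → Fin m → K.V → ZMod p :=
    fun b t v => F t v + ∑ l, b t l * f l v
  have hfb : ∀ b t, ∀ g ∈ Fr p H, ∀ v : K.V, fb b t (g • v) - fb b t v = F t (g • v) - F t v := by
    intro b t g hg v
    show F t (g • v) + ∑ l, b t l * f l (g • v) - (F t v + ∑ l, b t l * f l v) = _
    simp only [hinvf _ g hg]
    ring
  have hfbq : ∀ b t, fb b t ∈ QInv (K := K) p (Fr p H) := by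
    intro b t
    obtain ⟨χ, hχ⟩ := hFq t
    refine ⟨χ, fun g hg v => ?_⟩
    have h1 := hfb b t g hg v
    rw [hχ g hg v, add_sub_cancel_left] at h1
    rw [← h1]
    ring
  have hfbi : ∀ b, Indep p (Fr p H) (fb b) := by
    intro b a ha
    apply hFi a
    intro g hg v
    have h1 := ha g hg v
    rw [← sub_eq_zero, ← Finset.sum_sub_distrib] at h1 ⊢
    rw [← h1]
    refine Finset.sum_congr rfl fun t _ => ?_
    rw [← mul_sub, ← mul_sub, hfb b t g hg v]
  have hedge : ∀ b t, ∀ u v : K.V, ({u, v} : Finset K.V) ∈ K.faces →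
      fb b t v - fb b t u = ∑ l, (θ t l u + b t l) * (f l v - f l u) := by
    intro b t u v huv
    show F t v + ∑ l, b t l * f l v - (F t u + ∑ l, b t l * f l u) = _
    have h1 := hF t u v huv
    have h2 : ∑ l, (θ t l u + b t l) * (f l v - f l u) =
        ∑ l, θ t l u * (f l v - f l u) + (∑ l, b t l * f l v - ∑ l, b t l * f l u) := by
      rw [← Finset.sum_sub_distrib, ← Finset.sum_add_distrib]
      refine Finset.sum_congr rfl fun l _ => ?_
      ring
    rw [h2, ← h1]
    ring
  -- invariance of the supports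
  have hsinv : ∀ (L : Subgroup K.Γ) (f' : Fin m → K.V → ZMod p),
      (∀ l, f' l ∈ QInv (K := K) p L) → ∀ g ∈ L, ∀ x ∈ Supp f', g • x ∈ Supp f' := by
    rintro L f' hf' g hg x ⟨hx, l, hl⟩
    refine ⟨ed_inv g x hx, l, ?_⟩
    obtain ⟨χ, hχ⟩ := hf' l
    show f' l (g • x.1) ≠ f' l (g • x.2)
    rw [hχ g hg, hχ g hg]
    intro h
    exact hl (add_right_cancel h)
  have hSH : ((fun x => (MulAction.orbit H x : Set (K.V × K.V))) '' (Supp f)).Finite :=
    (ed_finite H hH).subset (Set.image_mono fun e he => he.1)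
  have hSL : ((fun x => (MulAction.orbit (Fr p H) x : Set (K.V × K.V))) '' (Supp f)).Finite :=
    (ed_finite (Fr p H) hfin).subset (Set.image_mono fun e he => he.1)
  obtain ⟨b, hb⟩ := exists_avg (B := Fin m → Fin m → ZMod p) (Fr p H) (Supp f) hSL
    (fun g hg => hsinv H f hf g (fr_le p H hg)) (fun b => Supp (fb b)) (by
      rintro b ⟨u, v⟩ ⟨hx, t, ht⟩
      refine ⟨hx, ?_⟩
      by_contra hcon
      push Not at hcon
      apply ht
      have h1 := hedge b t u v hx
      have h2 : ∑ l, (θ t l u + b t l) * (f l v - f l u) = 0 := by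
        refine Finset.sum_eq_zero fun l _ => ?_
        have h3 : f l u = f l v := hcon l
        rw [h3]
        ring
      rw [h2, sub_eq_zero] at h1
      exact h1.symm) (fun b => hsinv (Fr p H) (fb b) (hfbq b)) (p ^ m) (by
      rintro ⟨u, v⟩ ⟨hx, l₀, hl₀⟩
      have hx' : ({u, v} : Finset K.V) ∈ K.faces := hx
      have h1 := Step_count p (fun l => f l v - f l u) (by
        intro h
        have h2 : f l₀ v - f l₀ u = 0 := congrFun h l₀
        exact hl₀ (sub_eq_zero.1 h2).symm)
        (fun t => -∑ l, θ t l u * (f l v - f l u))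
      rw [← h1]
      congr 1
      refine Nat.card_congr (Equiv.subtypeEquivRight fun b => ?_)
      have h3 : ((u, v) : K.V × K.V) ∉ Supp (fb b) ↔ ∀ t, fb b t v - fb b t u = 0 := by
        constructor
        · intro h t
          by_contra hcon
          apply h
          refine ⟨hx, t, fun h4 => hcon ?_⟩
          have h5 : fb b t u = fb b t v := h4
          rw [h5, sub_self]
        · rintro h ⟨_, t, ht⟩
          exact ht (sub_eq_zero.1 (h t)).symm
      rw [h3]
      refine forall_congr' fun t => ?_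
      rw [hedge b t u v hx']
      have h4 : ∑ l, (θ t l u + b t l) * (f l v - f l u) =
          ∑ l, b t l * (f l v - f l u) + ∑ l, θ t l u * (f l v - f l u) := by
        rw [← Finset.sum_add_distrib]
        refine Finset.sum_congr rfl fun l _ => ?_
        ring
      rw [h4, eq_neg_iff_add_eq_zero])
  refine ⟨fb b, hfbq b, hfbi b, ?_⟩
  rw [← nOrb_index (Fr p H) H (fr_le p H) hr (Supp f) hSH (hsinv H f hf)
    (fun g _ e _ h => v_free g e.1 (congrArg Prod.fst h))]
  exact hb

end Pool.Agent.ChL
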