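import Pool.Agent.ChL.Defs
import Pool.Agent.ChL.SolRank

/-!
# Semicontinuity of the dimension of the space of crossed homomorphisms

Let `S` generate `H`.  A crossed homomorphism `z` (over `F`) is determined by `x = (z s)_{s ∈ S}`, a
family of `4 × 4`-matrices, i.e. a point of `F^N`, `N = S × Fin 4 × Fin 4`.  Every family `x` defines a
crossed homomorphism `z_x` of the free group on `S` (via `FreeGroup S → H`), and `z_x w` is given by
`A`-linear forms in `x` (coefficients in `A`, the same for all `F`; induction on words, Fox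
derivatives).  `z_x` factors through `H` iff `z_x w = 0` for all `w` in the kernel of
`FreeGroup S → H`, and it is alternating iff the `x_s` are.  So `Z1R F` is isomorphic to the space of
solutions of a set of linear equations with coefficients in `A` which does not depend on `F`; apply
`sol_finrank_le`.
-/

namespace Pool.Agent.ChL

open Matrix

section Z1Semi

variable {R : Type*} [CommRing R] {H : Type*} [Group H]

/-- the action on matrices -/
private def z1Semi_act (κ : H →* R) (θ : H →* Matrix (Fin 4) (Fin 4) R) (g : H) :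
    Matrix (Fin 4) (Fin 4) R →ₗ[R] Matrix (Fin 4) (Fin 4) R where
  toFun X := κ g • ((θ g⁻¹)ᵀ * X * θ g⁻¹)
  map_add' := by
    intro X Y
    rw [Matrix.mul_add, Matrix.add_mul, smul_add]
  map_smul' := by
    intro c X
    rw [Matrix.mul_smul, Matrix.smul_mul, smul_comm, RingHom.id_apply]

private theorem z1Semi_act_apply (κ : H →* R) (θ : H →* Matrix (Fin 4) (Fin 4) R) (g : H)
    (X : Matrix (Fin 4) (Fin 4) R) :
    z1Semi_act κ θ g X = κ g • ((θ g⁻¹)ᵀ * X * θ g⁻¹) := rfl

private theorem z1Semi_act_one (κ : H →* R) (θ : H →* Matrix (Fin 4) (Fin 4) R)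
    (X : Matrix (Fin 4) (Fin 4) R) : z1Semi_act κ θ 1 X = X := by
  simp [z1Semi_act_apply]

private theorem z1Semi_act_mul (κ : H →* R) (θ : H →* Matrix (Fin 4) (Fin 4) R) (g h : H)
    (X : Matrix (Fin 4) (Fin 4) R) :
    z1Semi_act κ θ (g * h) X = z1Semi_act κ θ g (z1Semi_act κ θ h X) := by
  simp only [z1Semi_act_apply, _root_.mul_inv_rev, map_mul, Matrix.transpose_mul, Matrix.mul_smul,
    Matrix.smul_mul, smul_smul, Matrix.mul_assoc]

private theorem z1Semi_act_alt (κ : H →* R) (θ : H →* Matrix (Fin 4) (Fin 4) R) (g : H)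
    (X : Matrix (Fin 4) (Fin 4) R) (hX : Xᵀ = -X) :
    (z1Semi_act κ θ g X)ᵀ = - z1Semi_act κ θ g X := by
  simp only [z1Semi_act_apply, Matrix.transpose_smul, Matrix.transpose_mul,
    Matrix.transpose_transpose, hX, Matrix.mul_assoc, Matrix.neg_mul, Matrix.mul_neg, smul_neg]

/-- the element given by a word -/
private def z1Semi_prod {S : Finset H} : List (S × Bool) → H
  | [] => 1
  | (s, true) :: w => (s : H) * z1Semi_prod w
  | (s, false) :: w => (s : H)⁻¹ * z1Semi_prod w

/-- the inverse word -/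
private def z1Semi_inv {S : Finset H} : List (S × Bool) → List (S × Bool)
  | [] => []
  | (s, b) :: w => z1Semi_inv w ++ [(s, !b)]

private theorem z1Semi_prod_append {S : Finset H} (u v : List (S × Bool)) :
    z1Semi_prod (u ++ v) = z1Semi_prod u * z1Semi_prod v := by
  induction u with
  | nil => simp [z1Semi_prod]
  | cons a u ih =>
    obtain ⟨s, b⟩ := a
    cases b <;> simp only [List.cons_append, z1Semi_prod, ih, mul_assoc]

private theorem z1Semi_prod_inv {S : Finset H} (u : List (S × Bool)) :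
    z1Semi_prod (z1Semi_inv u) = (z1Semi_prod u)⁻¹ := by
  induction u with
  | nil => simp [z1Semi_prod, z1Semi_inv]
  | cons a u ih =>
    obtain ⟨s, b⟩ := a
    cases b <;> simp [z1Semi_inv, z1Semi_prod_append, ih, z1Semi_prod]

private theorem z1Semi_word {S : Finset H} (hS : Subgroup.closure (S : Set H) = ⊤) (g : H) :
    ∃ w : List (S × Bool), z1Semi_prod w = g := by
  have hg : g ∈ Subgroup.closure (S : Set H) := by rw [hS]; exact Subgroup.mem_top g
  induction hg using Subgroup.closure_induction with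
  | mem x hx => exact ⟨[(⟨x, hx⟩, true)], by simp [z1Semi_prod]⟩
  | one => exact ⟨[], rfl⟩
  | mul x y _ _ hx hy =>
    obtain ⟨u, hu⟩ := hx
    obtain ⟨v, hv⟩ := hy
    exact ⟨u ++ v, by rw [z1Semi_prod_append, hu, hv]⟩
  | inv x _ hx =>
    obtain ⟨u, hu⟩ := hx
    exact ⟨z1Semi_inv u, by rw [z1Semi_prod_inv, hu]⟩

/-- the value of the crossed homomorphism of the free group at a word -/
private def z1Semi_E (κ : H →* R) (θ : H →* Matrix (Fin 4) (Fin 4) R) {S : Finset H} :
    List (S × Bool) → ((S → Matrix (Fin 4) (Fin 4) R) →ₗ[R] Matrix (Fin 4) (Fin 4) R)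
  | [] => 0
  | (s, true) :: w => LinearMap.proj s + (z1Semi_act κ θ (s : H)) ∘ₗ z1Semi_E κ θ w
  | (s, false) :: w => (z1Semi_act κ θ (s : H)⁻¹) ∘ₗ (z1Semi_E κ θ w - LinearMap.proj s)

private theorem z1Semi_E_nil (κ : H →* R) (θ : H →* Matrix (Fin 4) (Fin 4) R) {S : Finset H}
    (x : S → Matrix (Fin 4) (Fin 4) R) : z1Semi_E κ θ [] x = 0 := rfl

private theorem z1Semi_E_true (κ : H →* R) (θ : H →* Matrix (Fin 4) (Fin 4) R) {S : Finset H}
    (x : S → Matrix (Fin 4) (Fin 4) R) (s : S) (w : List (S × Bool)) :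
    z1Semi_E κ θ ((s, true) :: w) x = x s + z1Semi_act κ θ (s : H) (z1Semi_E κ θ w x) := rfl

private theorem z1Semi_E_false (κ : H →* R) (θ : H →* Matrix (Fin 4) (Fin 4) R) {S : Finset H}
    (x : S → Matrix (Fin 4) (Fin 4) R) (s : S) (w : List (S × Bool)) :
    z1Semi_E κ θ ((s, false) :: w) x = z1Semi_act κ θ (s : H)⁻¹ (z1Semi_E κ θ w x - x s) := rfl

private theorem z1Semi_E_append (κ : H →* R) (θ : H →* Matrix (Fin 4) (Fin 4) R) {S : Finset H}
    (x : S → Matrix (Fin 4) (Fin 4) R) (u v : List (S × Bool)) :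
    z1Semi_E κ θ (u ++ v) x =
      z1Semi_E κ θ u x + z1Semi_act κ θ (z1Semi_prod u) (z1Semi_E κ θ v x) := by
  induction u with
  | nil => simp [z1Semi_E_nil, z1Semi_prod, z1Semi_act_one]
  | cons a u ih =>
    obtain ⟨s, b⟩ := a
    cases b
    · simp only [List.cons_append, z1Semi_E_false, z1Semi_prod, ih, z1Semi_act_mul]
      rw [← map_add]
      congr 1
      abel
    · simp only [List.cons_append, z1Semi_E_true, z1Semi_prod, ih, z1Semi_act_mul, map_add]
      abel

private theorem z1Semi_E_alt (κ : H →* R) (θ : H →* Matrix (Fin 4) (Fin 4) R) {S : Finset H}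
    (x : S → Matrix (Fin 4) (Fin 4) R) (hx : ∀ s, (x s)ᵀ = - x s) (u : List (S × Bool)) :
    (z1Semi_E κ θ u x)ᵀ = - z1Semi_E κ θ u x := by
  induction u with
  | nil => simp [z1Semi_E_nil]
  | cons a u ih =>
    obtain ⟨s, b⟩ := a
    cases b
    · rw [z1Semi_E_false]
      apply z1Semi_act_alt
      rw [Matrix.transpose_sub, ih, hx]
      abel
    · rw [z1Semi_E_true, Matrix.transpose_add, hx, z1Semi_act_alt _ _ _ _ ih]
      abel

private theorem z1Semi_z_one (κ : H →* R) (θ : H →* Matrix (Fin 4) (Fin 4) R)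
    (z : H → Matrix (Fin 4) (Fin 4) R)
    (hz : ∀ g h, z (g * h) = z g + z1Semi_act κ θ g (z h)) : z 1 = 0 := by
  have h := hz 1 1
  rw [mul_one, z1Semi_act_one] at h
  exact left_eq_add.mp h

private theorem z1Semi_z_word (κ : H →* R) (θ : H →* Matrix (Fin 4) (Fin 4) R) {S : Finset H}
    (z : H → Matrix (Fin 4) (Fin 4) R)
    (hz : ∀ g h, z (g * h) = z g + z1Semi_act κ θ g (z h)) (w : List (S × Bool)) :
    z (z1Semi_prod w) = z1Semi_E κ θ w (fun s => z (s : H)) := by
  induction w with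
  | nil => exact z1Semi_z_one κ θ z hz
  | cons a w ih =>
    obtain ⟨s, b⟩ := a
    cases b
    · rw [z1Semi_E_false, z1Semi_prod, hz, ih, map_sub]
      have h := hz (s : H)⁻¹ (s : H)
      rw [inv_mul_cancel, z1Semi_z_one κ θ z hz] at h
      have h2 : z (s : H)⁻¹ = - z1Semi_act κ θ (s : H)⁻¹ (z (s : H)) := by
        rw [eq_neg_iff_add_eq_zero]
        exact h.symm
      rw [h2]
      abel
    · rw [z1Semi_E_true, z1Semi_prod, hz, ih]

private theorem z1Semi_exists (κ : H →* R) (θ : H →* Matrix (Fin 4) (Fin 4) R) {S : Finset H}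
    (hS : Subgroup.closure (S : Set H) = ⊤) (x : S → Matrix (Fin 4) (Fin 4) R)
    (hx : ∀ s, (x s)ᵀ = - x s)
    (hw : ∀ w : List (S × Bool), z1Semi_prod w = 1 → z1Semi_E κ θ w x = 0) :
    ∃ z : H → Matrix (Fin 4) (Fin 4) R, (∀ g, (z g)ᵀ = - z g) ∧
      (∀ g h, z (g * h) = z g + z1Semi_act κ θ g (z h)) ∧ ∀ s : S, z (s : H) = x s := by
  choose W hW using z1Semi_word (S := S) hS
  have key : ∀ u v : List (S × Bool), z1Semi_prod u = z1Semi_prod v →
      z1Semi_E κ θ u x = z1Semi_E κ θ v x := by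
    intro u v huv
    have h1 := hw (u ++ z1Semi_inv v) (by
      rw [z1Semi_prod_append, z1Semi_prod_inv, huv, mul_inv_cancel])
    have h2 := hw (v ++ z1Semi_inv v) (by
      rw [z1Semi_prod_append, z1Semi_prod_inv, mul_inv_cancel])
    rw [z1Semi_E_append] at h1 h2
    rw [huv] at h1
    exact add_right_cancel (h1.trans h2.symm)
  refine ⟨fun g => z1Semi_E κ θ (W g) x, fun g => z1Semi_E_alt κ θ x hx _, fun g h => ?_,
    fun s => ?_⟩
  · have h1 := key (W (g * h)) (W g ++ W h) (by
      rw [z1Semi_prod_append, hW, hW, hW])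
    rw [z1Semi_E_append, hW] at h1
    exact h1
  · have h1 := key (W (s : H)) [(s, true)] (by
      rw [hW]
      simp [z1Semi_prod])
    rw [z1Semi_E_true, z1Semi_E_nil, map_zero, add_zero] at h1
    exact h1

/-- the images of the coefficients under a homomorphism of rings -/
private theorem z1Semi_E_map {R' : Type*} [CommRing R'] (i : R →+* R') (κ : H →* R)
    (θ : H →* Matrix (Fin 4) (Fin 4) R) {S : Finset H} (x : S → Matrix (Fin 4) (Fin 4) R)
    (w : List (S × Bool)) :
    z1Semi_E ((i : R →* R').comp κ) ((RingHom.mapMatrix i : Matrix (Fin 4) (Fin 4) R →+*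
      Matrix (Fin 4) (Fin 4) R').toMonoidHom.comp θ) w (fun s => (x s).map i) =
      (z1Semi_E κ θ w x).map i := by
  have hact : ∀ (g : H) (X : Matrix (Fin 4) (Fin 4) R),
      z1Semi_act ((i : R →* R').comp κ) ((RingHom.mapMatrix i : Matrix (Fin 4) (Fin 4) R →+*
        Matrix (Fin 4) (Fin 4) R').toMonoidHom.comp θ) g (X.map i) =
        (z1Semi_act κ θ g X).map i := by
    intro g X
    rw [z1Semi_act_apply, z1Semi_act_apply]
    show i (κ g) • (((θ g⁻¹).map i)ᵀ * X.map i * (θ g⁻¹).map i) = _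
    rw [Matrix.map_smul' _ _ _ (map_mul i), Matrix.map_mul, Matrix.map_mul, Matrix.transpose_map]
  induction w with
  | nil =>
    rw [z1Semi_E_nil, z1Semi_E_nil]
    simp
  | cons a w ih =>
    obtain ⟨s, b⟩ := a
    cases b
    · rw [z1Semi_E_false, z1Semi_E_false, ih, ← hact, Matrix.map_sub _ (map_sub i)]
    · rw [z1Semi_E_true, z1Semi_E_true, ih, hact, Matrix.map_add _ (map_add i)]

/-- the unit vectors -/
private noncomputable def z1Semi_X (R : Type*) [CommRing R] {H : Type*} {S : Finset H}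
    (j : S × Fin 4 × Fin 4) : S → Matrix (Fin 4) (Fin 4) R :=
  fun s a b => by classical exact if j = (s, a, b) then 1 else 0

omit [Group H] in
private theorem z1Semi_X_map {R' : Type*} [CommRing R'] (i : R →+* R') {S : Finset H}
    (j : S × Fin 4 × Fin 4) :
    (fun s => (z1Semi_X R (S := S) j s).map i) = z1Semi_X R' j := by
  funext s
  ext a b
  simp only [z1Semi_X, Matrix.map_apply]
  split_ifs <;> simp

omit [Group H] in
private theorem z1Semi_X_sum {S : Finset H} (x : S → Matrix (Fin 4) (Fin 4) R) :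
    x = ∑ j : S × Fin 4 × Fin 4, x j.1 j.2.1 j.2.2 • z1Semi_X R j := by
  classical
  funext s
  ext a b
  simp only [Finset.sum_apply, Matrix.sum_apply, Pi.smul_apply, Matrix.smul_apply, smul_eq_mul,
    z1Semi_X, mul_ite, mul_one, mul_zero]
  rw [Finset.sum_eq_single (s, a, b)]
  · simp
  · intro j _ hj
    simp [hj]
  · simp

/-- the coefficient vectors of the equations -/
private def z1Semi_M (κ : H →* R) (θ : H →* Matrix (Fin 4) (Fin 4) R) (S : Finset H) :
    Set (S × Fin 4 × Fin 4 → R) :=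
  {m | (∃ (s : S) (a b : Fin 4), m = fun j => z1Semi_X R j s a b + z1Semi_X R j s b a) ∨
    ∃ w : List (S × Bool), z1Semi_prod w = 1 ∧ ∃ a b : Fin 4,
      m = fun j => z1Semi_E κ θ w (z1Semi_X R j) a b}

private theorem z1Semi_eval {F : Type*} [Field F] (i : R →+* F) (κ : H →* R)
    (θ : H →* Matrix (Fin 4) (Fin 4) R) {S : Finset H} (x : S → Matrix (Fin 4) (Fin 4) F)
    (w : List (S × Bool)) (a b : Fin 4) :
    z1Semi_E ((i : R →* F).comp κ) ((RingHom.mapMatrix i : Matrix (Fin 4) (Fin 4) R →+*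
      Matrix (Fin 4) (Fin 4) F).toMonoidHom.comp θ) w x a b =
      ∑ j : S × Fin 4 × Fin 4, i (z1Semi_E κ θ w (z1Semi_X R j) a b) * x j.1 j.2.1 j.2.2 := by
  conv_lhs => rw [z1Semi_X_sum x]
  rw [map_sum, Matrix.sum_apply]
  refine Finset.sum_congr rfl fun j _ => ?_
  rw [map_smul, Matrix.smul_apply, smul_eq_mul, mul_comm, ← z1Semi_X_map i j, z1Semi_E_map,
    Matrix.map_apply]

omit [Group H] in
private theorem z1Semi_eval_X {F : Type*} [Field F] (i : R →+* F) {S : Finset H}
    (x : S → Matrix (Fin 4) (Fin 4) F) (s : S) (a b : Fin 4) :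
    ∑ j : S × Fin 4 × Fin 4, i (z1Semi_X R j s a b) * x j.1 j.2.1 j.2.2 = x s a b := by
  conv_rhs => rw [z1Semi_X_sum x]
  rw [Finset.sum_apply, Matrix.sum_apply]
  refine Finset.sum_congr rfl fun j _ => ?_
  rw [Pi.smul_apply, Matrix.smul_apply, smul_eq_mul, mul_comm, ← z1Semi_X_map i j]
  rfl

/-- membership in the space of solutions -/
private theorem z1Semi_mem {F : Type*} [Field F] (i : R →+* F) (κ : H →* R)
    (θ : H →* Matrix (Fin 4) (Fin 4) R) {S : Finset H} (x : S → Matrix (Fin 4) (Fin 4) F) :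
    (fun j : S × Fin 4 × Fin 4 => x j.1 j.2.1 j.2.2) ∈ Sol (z1Semi_M κ θ S) F i ↔
      (∀ s, (x s)ᵀ = - x s) ∧ ∀ w : List (S × Bool), z1Semi_prod w = 1 →
        z1Semi_E ((i : R →* F).comp κ) ((RingHom.mapMatrix i : Matrix (Fin 4) (Fin 4) R →+*
          Matrix (Fin 4) (Fin 4) F).toMonoidHom.comp θ) w x = 0 := by
  constructor
  · intro h
    refine ⟨fun s => ?_, fun w hw => ?_⟩
    · ext a b
      have h1 := h _ (Or.inl ⟨s, a, b, rfl⟩)
      simp only [map_add, add_mul, Finset.sum_add_distrib] at h1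
      rw [z1Semi_eval_X, z1Semi_eval_X] at h1
      rw [Matrix.transpose_apply, Matrix.neg_apply, eq_neg_iff_add_eq_zero, add_comm]
      exact h1
    · ext a b
      have h1 := h _ (Or.inr ⟨w, hw, a, b, rfl⟩)
      rw [z1Semi_eval]
      exact h1
  · rintro ⟨h1, h2⟩ m hm
    rcases hm with ⟨s, a, b, rfl⟩ | ⟨w, hw, a, b, rfl⟩
    · simp only [map_add, add_mul, Finset.sum_add_distrib]
      rw [z1Semi_eval_X, z1Semi_eval_X]
      have h3 := congrFun (congrFun (h1 s) a) b
      rw [Matrix.transpose_apply, Matrix.neg_apply, eq_neg_iff_add_eq_zero, add_comm] at h3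
      exact h3
    · have h3 := congrFun (congrFun (h2 w hw) a) b
      rw [z1Semi_eval] at h3
      exact h3

private theorem z1Semi_finrank {F : Type*} [Field F] (i : R →+* F) (κ : H →* R)
    (θ : H →* Matrix (Fin 4) (Fin 4) R) (S : Finset H)
    (hS : Subgroup.closure (S : Set H) = ⊤) :
    Module.finrank F (Z1R F (fun g => i (κ g)) (fun g => (θ g).map i)) =
      Module.finrank F (Sol (z1Semi_M κ θ S) F i) := by
  have hz : ∀ z : Z1R F (fun g => i (κ g)) (fun g => (θ g).map i), ∀ g h, z.1 (g * h) =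
      z.1 g + z1Semi_act ((i : R →* F).comp κ) ((RingHom.mapMatrix i : Matrix (Fin 4) (Fin 4) R →+*
        Matrix (Fin 4) (Fin 4) F).toMonoidHom.comp θ) g (z.1 h) := fun z => z.2.2
  have hmem : ∀ z : Z1R F (fun g => i (κ g)) (fun g => (θ g).map i),
      (fun j : S × Fin 4 × Fin 4 => z.1 (j.1 : H) j.2.1 j.2.2) ∈ Sol (z1Semi_M κ θ S) F i := by
    intro z
    refine (z1Semi_mem i κ θ (fun s => z.1 (s : H))).2 ⟨fun s => z.2.1 s, fun w hw => ?_⟩
    rw [← z1Semi_z_word _ _ z.1 (hz z), hw, z1Semi_z_one _ _ z.1 (hz z)]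
  let e : Z1R F (fun g => i (κ g)) (fun g => (θ g).map i) →ₗ[F] Sol (z1Semi_M κ θ S) F i :=
    { toFun := fun z => ⟨_, hmem z⟩
      map_add' := fun y z => rfl
      map_smul' := fun c z => rfl }
  have hinj : Function.Injective e := by
    intro y z hyz
    have h0 : ∀ s : S, y.1 (s : H) = z.1 (s : H) := by
      intro s
      ext a b
      have h1 := congrArg (fun f : Sol (z1Semi_M κ θ S) F i => f.1 (s, a, b)) hyz
      exact h1
    apply Subtype.ext
    funext g
    obtain ⟨w, rfl⟩ := z1Semi_word hS g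
    rw [z1Semi_z_word _ _ y.1 (hz y), z1Semi_z_word _ _ z.1 (hz z)]
    congr 1
    funext s
    exact h0 s
  have hsurj : Function.Surjective e := by
    rintro ⟨f, hf⟩
    obtain ⟨h1, h2⟩ := (z1Semi_mem i κ θ (fun s a b => f (s, a, b))).1 hf
    obtain ⟨z, hz1, hz2, hz3⟩ := z1Semi_exists _ _ hS _ h1 h2
    refine ⟨⟨z, hz1, hz2⟩, ?_⟩
    apply Subtype.ext
    funext j
    obtain ⟨s, a, b⟩ := j
    exact congrFun (congrFun (hz3 s) a) b
  exact (LinearEquiv.ofBijective e ⟨hinj, hsurj⟩).finrank_eq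

end Z1Semi

theorem z1R_finrank_le {A : Type*} [CommRing A] {H : Type*} [Group H] (S : Finset H)
    (hS : Subgroup.closure (S : Set H) = ⊤) (κ : H →* A) (θ : H →* Matrix (Fin 4) (Fin 4) A)
    (F k : Type*) [Field F] [Field k] (i : A →+* F) (hi : Function.Injective i) (π : A →+* k) :
    Module.finrank F (Z1R F (fun g => i (κ g)) (fun g => (θ g).map i)) ≤
      Module.finrank k (Z1R k (fun g => π (κ g)) (fun g => (θ g).map π)) := by
  rw [z1Semi_finrank i κ θ S hS, z1Semi_finrank π κ θ S hS]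
  exact sol_finrank_le _ F k i hi π

end Pool.Agent.ChL
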